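import Pool.Agent.W2helper47.FM.Rho

/-!
# The character is not de Rham at any place above `l`
-/

set_option autoImplicit false
set_option linter.unusedSectionVars false

namespace Pool.Agent.W2helper47.FM

open NumberField IsDedekindDomain
open scoped Matrix TensorProduct

variable {l : ℕ} [hl : Fact l.Prime] {F : Type*} [Field F] [NumberField F]

lemma exists_restricts (ι : AlgebraicClosure F →+* PadicAlgCl l) (τ : Gal(PadicAlgCl l/ℚ_[l]))
    (hτ : ∀ x : F, τ (ι (algebraMap F (AlgebraicClosure F) x)) =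
      ι (algebraMap F (AlgebraicClosure F) x)) :
    ∃ σ : Gal(AlgebraicClosure F/F), (τ, σ) ∈ localPairs ι := by
  let _ : Algebra F (PadicAlgCl l) := (ι.comp (algebraMap F (AlgebraicClosure F))).toAlgebra
  let _ : Algebra (AlgebraicClosure F) (PadicAlgCl l) := ι.toAlgebra
  have _ : IsScalarTower F (AlgebraicClosure F) (PadicAlgCl l) := IsScalarTower.of_algebraMap_eq
    fun _ => rfl
  let τ' : PadicAlgCl l ≃ₐ[F] PadicAlgCl l := AlgEquiv.ofRingEquiv (f := (τ : PadicAlgCl l ≃+* _)) hτ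
  refine ⟨τ'.restrictNormal (AlgebraicClosure F), fun x => ?_⟩
  exact (AlgEquiv.restrictNormal_commutes τ' (AlgebraicClosure F) x).symm

lemma chi_eq_cyc {ι : AlgebraicClosure F →+* PadicAlgCl l} {τ : Gal(PadicAlgCl l/ℚ_[l])}
    {σ : Gal(AlgebraicClosure F/F)} (h : (τ, σ) ∈ localPairs ι) : chi τ = cyc l F σ := by
  apply Units.ext
  refine PadicInt.ext_of_toZModPow.mp fun n => ?_
  have hne : NeZero (l ^ n) := ⟨(pow_pos hl.out.pos n).ne'⟩
  obtain ⟨ζ, hζ⟩ := HasEnoughRootsOfUnity.exists_primitiveRoot (AlgebraicClosure F) (l ^ n)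
  have hζ' : IsPrimitiveRoot (ι ζ) (l ^ n) := hζ.map_of_injective ι.injective
  have h1 := chi_spec τ hζ'.pow_eq_one
  rw [show τ (ι ζ) = ι (σ ζ) from h ζ, cyc_spec σ hζ.pow_eq_one, map_pow] at h1
  have h2 := (ZMod.natCast_eq_natCast_iff _ _ _).mpr (modEq_of_pow_eq' hζ' hne.out h1)
  rw [ZMod.natCast_zmod_val, ZMod.natCast_zmod_val] at h2
  exact h2.symm

/-- The permutation of the embeddings of `F` given by a Galois automorphism. -/
noncomputable def permHom (l : ℕ) [Fact l.Prime] (F : Type*) [Field F] :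
    Gal(PadicAlgCl l/ℚ_[l]) →* Equiv.Perm (F →+* PadicAlgCl l) where
  toFun τ :=
    { toFun := fun f => (τ : PadicAlgCl l →+* PadicAlgCl l).comp f
      invFun := fun f => ((τ⁻¹ : Gal(PadicAlgCl l/ℚ_[l])) : PadicAlgCl l →+* PadicAlgCl l).comp f
      left_inv := fun f => by ext x; exact τ.symm_apply_apply _
      right_inv := fun f => by ext x; exact τ.apply_symm_apply _ }
  map_one' := by ext; rfl
  map_mul' _ _ := by ext; rfl

lemma permHom_apply (τ : Gal(PadicAlgCl l/ℚ_[l])) (f : F →+* PadicAlgCl l) (x : F) :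
    permHom l F τ f x = τ (f x) := rfl

instance finite_emb : Finite (F →+* PadicAlgCl l) :=
  Finite.of_equiv (F →ₐ[ℚ] PadicAlgCl l) (RingHom.equivRatAlgHom F (PadicAlgCl l)).symm

/-- The cyclotomic character as a homomorphism. -/
noncomputable def chiHom (l : ℕ) [Fact l.Prime] : Gal(PadicAlgCl l/ℚ_[l]) →* ℤ_[l]ˣ where
  toFun := chi
  map_mul' := chi_mul
  map_one' := by
    have h := chi_mul (1 : Gal(PadicAlgCl l/ℚ_[l])) 1
    rw [one_mul] at h
    exact (mul_eq_left.mp h.symm)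

/-- A subgroup of finite index. -/
noncomputable def smallU (l : ℕ) [Fact l.Prime] (F : Type*) [Field F] :
    Subgroup Gal(PadicAlgCl l/ℚ_[l]) := (permHom l F).ker ⊓ (nearOne l).comap (chiHom l)

instance finiteIndex_smallU : (smallU l F).FiniteIndex := by
  unfold smallU
  have h1 : (permHom l F).ker.FiniteIndex := inferInstance
  have h2 : ((nearOne l).comap (chiHom l)).FiniteIndex := by
    refine ⟨?_⟩
    rw [Subgroup.index_comap]
    have h3 : ((nearOne l).subgroupOf (chiHom l).range).FiniteIndex := inferInstance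
    exact h3.index_ne_zero
  infer_instance

/-- The square root of the cyclotomic character on the small subgroup. -/
noncomputable def eta (τ : Gal(PadicAlgCl l/ℚ_[l])) : ℚ_[l] := by
  classical
  exact if h : chi τ ∈ nearOne l then ((sq l ⟨chi τ, h⟩ : ℤ_[l]) : ℚ_[l]) else 0

lemma eta_eq {τ : Gal(PadicAlgCl l/ℚ_[l])} (h : chi τ ∈ nearOne l) :
    eta τ = ((sq l ⟨chi τ, h⟩ : ℤ_[l]) : ℚ_[l]) := by
  unfold eta
  exact dif_pos h

lemma eta_sq {τ : Gal(PadicAlgCl l/ℚ_[l])} (h : chi τ ∈ nearOne l) :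
    eta τ ^ 2 = (((chi τ ^ (1 : ℤ) : ℤ_[l]ˣ) : ℤ_[l]) : ℚ_[l]) := by
  rw [eta_eq h, zpow_one]
  have h1 := congrArg (Units.val (α := ℤ_[l])) (sq_sq ⟨chi τ, h⟩)
  rw [Units.val_pow_eq_pow_val] at h1
  rw [← h1, PadicInt.coe_pow]

lemma eta_ne_zero {τ : Gal(PadicAlgCl l/ℚ_[l])} (h : chi τ ∈ nearOne l) : eta τ ≠ 0 := by
  rw [eta_eq h]
  intro h1
  rw [PadicInt.coe_eq_zero] at h1
  exact Units.ne_zero _ h1

lemma eta_mul_rho0 {ι : AlgebraicClosure F →+* PadicAlgCl l} {τ : Gal(PadicAlgCl l/ℚ_[l])}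
    {σ : Gal(AlgebraicClosure F/F)} (h : (τ, σ) ∈ localPairs ι) (hτ : chi τ ∈ nearOne l) :
    (rho0 l F σ : PadicAlgCl l) = algebraMap ℚ_[l] (PadicAlgCl l) (eta τ)⁻¹ := by
  rw [rho0_apply, ← chi_eq_cyc h, map_inv, Units.val_inv_eq_inv_val, map_inv₀, eta_eq hτ]
  have h1 := rootHom_nearOne ⟨chi τ, hτ⟩
  rw [show rootHom l (chi τ) = _ from h1, coe_unitsIncl]

/-- The coordinates of a vector of `B ⊗ V`. -/
lemma repr_map {n : ℕ} (R : PeriodRing l) {J : Type*} (b : Module.Basis J ℚ_[l] (Space l n))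
    (τ : Gal(PadicAlgCl l/ℚ_[l])) (w : R.B ⊗[ℚ_[l]] Space l n) (j : J) :
    (b.baseChange R.B).repr (TensorProduct.map (R.lin τ) LinearMap.id w) j =
      R.act τ ((b.baseChange R.B).repr w j) := by
  induction w with
  | zero => simp
  | add x y hx hy => simp only [map_add, Finsupp.add_apply, hx, hy]
  | tmul c v =>
    rw [TensorProduct.map_tmul, Module.Basis.baseChange_repr_tmul,
      Module.Basis.baseChange_repr_tmul, LinearMap.id_apply, Algebra.smul_def, Algebra.smul_def,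
      map_mul]
    congr 1
    exact (R.act_incl τ _).symm

lemma map_restricts (R : PeriodRing l) {ι : AlgebraicClosure F →+* PadicAlgCl l}
    {τ : Gal(PadicAlgCl l/ℚ_[l])}
    {σ : Gal(AlgebraicClosure F/F)} (h : (τ, σ) ∈ localPairs ι) (hτ : chi τ ∈ nearOne l)
    (w : R.B ⊗[ℚ_[l]] Space l 1) :
    TensorProduct.map (R.lin τ) ((linRep (rho l F) σ).restrictScalars ℚ_[l]) w =
      (eta τ)⁻¹ • TensorProduct.map (R.lin τ) LinearMap.id w := by
  have h1 : (linRep (rho l F) σ).restrictScalars ℚ_[l] =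
      (eta τ)⁻¹ • (LinearMap.id : Space l 1 →ₗ[ℚ_[l]] Space l 1) := by
    refine LinearMap.ext fun v => ?_
    change linRep (rho l F) σ v = (eta τ)⁻¹ • v
    rw [linRep_rho, eta_mul_rho0 h hτ, algebraMap_smul]
  rw [h1, TensorProduct.map_smul_right]
  rfl

lemma mem_smallU {τ : Gal(PadicAlgCl l/ℚ_[l])} (h : τ ∈ smallU l F)
    (ι : AlgebraicClosure F →+* PadicAlgCl l) :
    chi τ ∈ nearOne l ∧ ∃ σ : Gal(AlgebraicClosure F/F), (τ, σ) ∈ localPairs ι := by
  refine ⟨h.2, exists_restricts ι τ fun x => ?_⟩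
  have h1 : permHom l F τ = 1 := h.1
  have h2 := permHom_apply τ (ι.comp (algebraMap F (AlgebraicClosure F))) x
  rw [h1] at h2
  exact h2.symm

/-- There is no nonzero invariant vector. -/
theorem no_invariant (ι : AlgebraicClosure F →+* PadicAlgCl l)
    (w : (periodBdR l).B ⊗[ℚ_[l]] Space l 1)
    (hw : w ∈ eigenSet (localPairs ι) (fun g => (periodBdR l).lin g.1)
      (fun g => (linRep (rho l F) g.2).restrictScalars ℚ_[l]) fun _ => (1 : ℚ_[l])) :
    w = 0 := by
  let b := Module.Basis.ofVectorSpace ℚ_[l] (Space l 1)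
  apply (b.baseChange (periodBdR l).B).ext_elem
  intro j
  rw [map_zero, Finsupp.zero_apply]
  refine no_eigenvector' (smallU l F) odd_one eta (fun τ hτ => eta_sq (mem_smallU hτ ι).1) _ ?_
  intro τ hτ
  obtain ⟨h1, σ, h2⟩ := mem_smallU hτ ι
  have h3 : TensorProduct.map ((periodBdR l).lin τ)
      ((linRep (rho l F) σ).restrictScalars ℚ_[l]) w = (1 : ℚ_[l]) • w := hw (τ, σ) h2
  rw [one_smul, map_restricts _ h2 h1, inv_smul_eq_iff₀ (eta_ne_zero h1)] at h3
  rw [← repr_map, h3, ← algebraMap_smul (periodBdR l).B (eta τ) w, map_smul, Finsupp.smul_apply,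
    smul_eq_mul]
  rfl

/-- The character is not de Rham at any place above `l`. -/
theorem not_deRham (ι : AlgebraicClosure F →+* PadicAlgCl l) : ¬ IsDeRhamAt ι (rho l F) := by
  intro h
  unfold IsDeRhamAt IsSpannedByInvariants at h
  have h1 : Submodule.span (periodBdR l).B (eigenSet (localPairs ι)
      (fun g => (periodBdR l).lin g.1)
      (fun g => (linRep (rho l F) g.2).restrictScalars ℚ_[l]) fun _ => (1 : ℚ_[l])) = ⊥ := by
    rw [Submodule.span_eq_bot]
    exact fun w hw => no_invariant ι w hw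
  rw [h1] at h
  let b := Module.Basis.ofVectorSpace ℚ_[l] (Space l 1)
  have _ : Nontrivial (Space l 1) := inferInstance
  obtain ⟨j⟩ := b.index_nonempty
  have h2 : (b.baseChange (periodBdR l).B) j ∈
      (⊥ : Submodule (periodBdR l).B ((periodBdR l).B ⊗[ℚ_[l]] Space l 1)) := by
    rw [h]; exact Submodule.mem_top
  exact (b.baseChange (periodBdR l).B).ne_zero j ((Submodule.mem_bot _).mp h2)

lemma exists_embedding (l : ℕ) [Fact l.Prime] (F : Type*) [Field F] [NumberField F] :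
    Nonempty (AlgebraicClosure F →+* PadicAlgCl l) := by
  have _ : Algebra.IsAlgebraic ℚ (AlgebraicClosure F) := Algebra.IsAlgebraic.trans ℚ F _
  exact ⟨((IsAlgClosed.lift : AlgebraicClosure F →ₐ[ℚ] PadicAlgCl l) :
    AlgebraicClosure F →+* PadicAlgCl l)⟩

theorem not_condition1 : ¬ Condition1 (rho l F) := by
  intro h
  obtain ⟨ι⟩ := exists_embedding l F
  exact not_deRham ι (h ι).1

end Pool.Agent.W2helper47.FM
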