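import Mathlib

/-!
# Functoriality of Fontaine's rings

For an automorphism `φ` of a `p`-adically complete ring `R` we define the induced endomorphisms of the
tilt of `R`, of its Witt vectors, and of the rings `B_dR^+` and `B_dR` of Mathlib.
-/

set_option autoImplicit false

namespace Pool.Agent.W2helper47.FM

open Ideal

noncomputable section

section compl

variable {A : Type*} [CommRing A] {I : Ideal A}

lemma pow_le_comap {f : A →+* A} (h : I ≤ comap f I) (n : ℕ) : I ^ n ≤ comap f (I ^ n) :=
  (Ideal.pow_right_mono h n).trans (Ideal.le_comap_pow _ n)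

/-- The maps to the quotients induced by `f`. -/
def complQuot (f : A →+* A) (h : I ≤ comap f I) (n : ℕ) : AdicCompletion I A →+* A ⧸ I ^ n :=
  (Ideal.quotientMap (I ^ n) f (pow_le_comap h n)).comp (AdicCompletion.evalₐ I n).toRingHom

lemma complQuot_compat (f : A →+* A) (h : I ≤ comap f I) {m n : ℕ} (hle : m ≤ n) :
    (Ideal.Quotient.factorPow I hle).comp (complQuot f h n) = complQuot f h m := by
  ext x
  obtain ⟨g, rfl⟩ := AdicCompletion.mk_surjective _ _ x
  have h1 := g.2 hle
  rw [SModEq.sub_mem, smul_eq_mul, mul_top] at h1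
  have e : ∀ k, AdicCompletion.evalₐ I k (AdicCompletion.mk _ _ g) =
    Ideal.Quotient.mk _ (g.1 k) := fun k => AdicCompletion.evalₐ_mk I k g
  change Ideal.Quotient.factorPow I hle
    (Ideal.quotientMap (I ^ n) f (pow_le_comap h n)
      (AdicCompletion.evalₐ I n (AdicCompletion.mk _ _ g))) =
    Ideal.quotientMap (I ^ m) f (pow_le_comap h m)
      (AdicCompletion.evalₐ I m (AdicCompletion.mk _ _ g))
  rw [e, e, Ideal.quotientMap_mk, Ideal.quotientMap_mk]
  change Ideal.Quotient.mk _ (f (g.1 n)) = Ideal.Quotient.mk _ (f (g.1 m))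
  rw [Ideal.Quotient.eq, ← map_sub, ← neg_sub, map_neg]
  exact neg_mem (pow_le_comap h m h1)

/-- The endomorphism of the completion of `A` with respect to the ideal `I` induced by an endomorphism
`f` of `A` with `f I ⊆ I`. -/
def complMap (f : A →+* A) (h : I ≤ comap f I) : AdicCompletion I A →+* AdicCompletion I A :=
  AdicCompletion.liftRingHom I (complQuot f h) (complQuot_compat f h)

end compl

variable {R : Type*} [CommRing R] {p : ℕ} [hp : Fact p.Prime]
    [Fact ¬IsUnit (p : R)] [IsAdicComplete (span {(p : R)}) R]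

omit hp [Fact ¬IsUnit (p : R)] [IsAdicComplete (span {(p : R)}) R] in
lemma span_le_comap (φ : R →+* R) : span {(p : R)} ≤ comap φ (span {(p : R)}) := by
  rw [span_singleton_le_iff_mem, mem_comap, map_natCast]
  exact mem_span_singleton_self _

/-- The endomorphism of `R / p` induced by `φ`. -/
def modMap (φ : R →+* R) : ModP R p →+* ModP R p :=
  Ideal.quotientMap _ φ (span_le_comap φ)

/-- The endomorphism of the tilt induced by `φ`. -/
def tiltMap (φ : R →+* R) : PreTilt R p →+* PreTilt R p :=
  Perfection.map p (modMap (p := p) φ)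

omit [IsAdicComplete (span {(p : R)}) R] in
lemma coeff_tiltMap (φ : R →+* R) (n : ℕ) (x : PreTilt R p) :
    PreTilt.coeff n (tiltMap φ x) = modMap φ (PreTilt.coeff n x) := rfl

omit [IsAdicComplete (span {(p : R)}) R] in
lemma tiltMap_ext {x y : PreTilt R p} (h : ∀ n, PreTilt.coeff n x = PreTilt.coeff n y) : x = y :=
  Perfection.ext h

omit [IsAdicComplete (span {(p : R)}) R] in
lemma tiltMap_comp (φ ψ : R →+* R) (x : PreTilt R p) :
    tiltMap (φ.comp ψ) x = tiltMap φ (tiltMap ψ x) := by
  refine tiltMap_ext fun n => ?_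
  rw [coeff_tiltMap, coeff_tiltMap, coeff_tiltMap]
  obtain ⟨y, hy⟩ := Ideal.Quotient.mk_surjective (PreTilt.coeff n x)
  rw [← hy]
  rfl

omit [IsAdicComplete (span {(p : R)}) R] in
lemma tiltMap_id (x : PreTilt R p) : tiltMap (RingHom.id R) x = x := by
  refine tiltMap_ext fun n => ?_
  rw [coeff_tiltMap]
  obtain ⟨y, hy⟩ := Ideal.Quotient.mk_surjective (PreTilt.coeff n x)
  rw [← hy]
  rfl

lemma untilt_tiltMap (φ : R →+* R) (x : PreTilt R p) : (tiltMap φ x).untilt = φ x.untilt := by
  change Perfection.teichmuller p _ (tiltMap φ x) = φ (Perfection.teichmuller p _ x)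
  refine Perfection.teichmuller_spec fun n => ?_
  obtain ⟨y, hy⟩ := Ideal.Quotient.mk_surjective (PreTilt.coeff n x)
  refine ⟨φ y, ?_, ?_⟩
  · change _ = PreTilt.coeff n (tiltMap φ x)
    rw [coeff_tiltMap, ← hy]
    rfl
  · have h1 : Perfection.teichmuller p (span {(p : R)}) x ≡ y ^ p ^ n
        [SMOD (span {(p : R)}) ^ (n + 1)] := Perfection.teichmuller_sModEq hy
    rw [SModEq.sub_mem] at h1 ⊢
    rw [← map_pow, ← map_sub, ← neg_sub, map_neg]
    refine neg_mem ?_
    rw [span_singleton_pow, mem_span_singleton] at h1 ⊢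
    have h2 := map_dvd φ h1
    rwa [map_pow, map_natCast] at h2

/-- The endomorphism of `A_inf = W(R^♭)` induced by `φ`. -/
def ainfMap (φ : R →+* R) : WittVector p (PreTilt R p) →+* WittVector p (PreTilt R p) :=
  WittVector.map (tiltMap φ)

lemma theta_ainfMap (φ : R →+* R) (x : WittVector p (PreTilt R p)) :
    WittVector.fontaineTheta R p (ainfMap φ x) = φ (WittVector.fontaineTheta R p x) := by
  rw [IsHausdorff.eq_iff_smodEq (I := span {(p : R)})]
  intro n
  rw [smul_eq_mul, mul_top]
  have h1 : ((Ideal.Quotient.mk (span {(p : R)} ^ n)).comp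
      ((WittVector.fontaineTheta R p).comp (ainfMap φ))) =
      ((Ideal.Quotient.mk (span {(p : R)} ^ n)).comp (φ.comp (WittVector.fontaineTheta R p))) := by
    apply WittVector.eq_of_apply_teichmuller_eq
    · refine ⟨n, ?_⟩
      rw [← map_natCast (Ideal.Quotient.mk (span {(p : R)} ^ n)), ← map_pow,
        Ideal.Quotient.eq_zero_iff_mem]
      exact pow_mem_pow (mem_span_singleton_self _) n
    · intro y
      simp only [RingHom.comp_apply]
      rw [ainfMap, WittVector.map_teichmuller, WittVector.fontaineTheta_teichmuller,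
        WittVector.fontaineTheta_teichmuller, untilt_tiltMap]
  have h2 := congrArg (fun f => f x) h1
  exact h2

/-- The endomorphism of `R[1/p]` induced by `φ`. -/
def invMap (φ : R →+* R) : Localization.Away (p : R) →+* Localization.Away (p : R) :=
  Localization.awayLift ((algebraMap R _).comp φ) (p : R) (by
    rw [RingHom.comp_apply, map_natCast φ]
    exact IsLocalization.Away.algebraMap_isUnit (p : R))

omit hp [Fact ¬IsUnit (p : R)] [IsAdicComplete (span {(p : R)}) R] in
lemma invMap_algebraMap (φ : R →+* R) (x : R) :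
    invMap (p := p) φ (algebraMap R _ x) = algebraMap R _ (φ x) := by
  rw [invMap, Localization.awayLift, IsLocalization.Away.lift_eq]
  rfl

/-- The endomorphism of `A_inf[1/p]` induced by `φ`. -/
def ainfPMap (φ : R →+* R) : Localization.Away (p : WittVector p (PreTilt R p)) →+*
    Localization.Away (p : WittVector p (PreTilt R p)) :=
  Localization.awayLift ((algebraMap (WittVector p (PreTilt R p)) _).comp (ainfMap φ))
    (p : WittVector p (PreTilt R p)) (by
      rw [RingHom.comp_apply, map_natCast (ainfMap φ)]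
      exact IsLocalization.Away.algebraMap_isUnit _)

omit [IsAdicComplete (span {(p : R)}) R] in
lemma ainfPMap_algebraMap (φ : R →+* R) (x : WittVector p (PreTilt R p)) :
    ainfPMap φ (algebraMap _ (Localization.Away (p : WittVector p (PreTilt R p))) x) =
      algebraMap _ (Localization.Away (p : WittVector p (PreTilt R p))) (ainfMap φ x) := by
  rw [ainfPMap, Localization.awayLift, IsLocalization.Away.lift_eq]
  rfl

omit [IsAdicComplete (span {(p : R)}) R] in
lemma ainfP_hom_ext {S : Type*} [CommRing S]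
    {f g : Localization.Away (p : WittVector p (PreTilt R p)) →+* S}
    (h : ∀ x : WittVector p (PreTilt R p), f (algebraMap _ _ x) = g (algebraMap _ _ x)) : f = g :=
  IsLocalization.ringHom_ext (Submonoid.powers (p : WittVector p (PreTilt R p)))
    (RingHom.ext h)

lemma thetaP_algebraMap (x : WittVector p (PreTilt R p)) :
    fontaineThetaInvertP R p (algebraMap _ _ x) =
      algebraMap R _ (WittVector.fontaineTheta R p x) := by
  rw [fontaineThetaInvertP, Localization.awayLift, IsLocalization.Away.lift_eq]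
  rfl

lemma thetaP_ainfPMap (φ : R →+* R) (x : Localization.Away (p : WittVector p (PreTilt R p))) :
    fontaineThetaInvertP R p (ainfPMap φ x) = invMap φ (fontaineThetaInvertP R p x) := by
  have h1 : (fontaineThetaInvertP R p).comp (ainfPMap φ) =
      (invMap φ).comp (fontaineThetaInvertP R p) := by
    refine ainfP_hom_ext fun y => ?_
    rw [RingHom.comp_apply, RingHom.comp_apply, ainfPMap_algebraMap, thetaP_algebraMap,
      thetaP_algebraMap, theta_ainfMap, invMap_algebraMap]
  exact congrArg (fun f => f x) h1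

omit [IsAdicComplete (span {(p : R)}) R] in
lemma ainfMap_comp (φ ψ : R →+* R) (x : WittVector p (PreTilt R p)) :
    ainfMap (φ.comp ψ) x = ainfMap φ (ainfMap ψ x) := by
  ext n
  simp only [ainfMap, WittVector.map_coeff, tiltMap_comp]

omit [IsAdicComplete (span {(p : R)}) R] in
lemma ainfMap_id (x : WittVector p (PreTilt R p)) : ainfMap (RingHom.id R) x = x := by
  ext n
  simp only [ainfMap, WittVector.map_coeff, tiltMap_id]

omit [IsAdicComplete (span {(p : R)}) R] in
lemma ainfPMap_comp (φ ψ : R →+* R) (x : Localization.Away (p : WittVector p (PreTilt R p))) :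
    ainfPMap (φ.comp ψ) x = ainfPMap φ (ainfPMap ψ x) := by
  have h1 : ainfPMap (p := p) (φ.comp ψ) = (ainfPMap φ).comp (ainfPMap ψ) := by
    refine ainfP_hom_ext fun y => ?_
    rw [RingHom.comp_apply, ainfPMap_algebraMap, ainfPMap_algebraMap, ainfPMap_algebraMap,
      ainfMap_comp]
  exact congrArg (fun f => f x) h1

omit [IsAdicComplete (span {(p : R)}) R] in
lemma ainfPMap_id (x : Localization.Away (p : WittVector p (PreTilt R p))) :
    ainfPMap (RingHom.id R) x = x := by
  have h1 : ainfPMap (p := p) (RingHom.id R) = RingHom.id _ := by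
    refine ainfP_hom_ext fun y => ?_
    rw [ainfPMap_algebraMap, ainfMap_id]
    rfl
  exact congrArg (fun f => f x) h1

/-- The kernel of `θ` on `A_inf[1/p]`. -/
abbrev kerTheta (R : Type*) [CommRing R] (p : ℕ) [Fact p.Prime]
    [Fact ¬IsUnit (p : R)] [IsAdicComplete (span {(p : R)}) R] :
    Ideal (Localization.Away (p : WittVector p (PreTilt R p))) :=
  RingHom.ker (fontaineThetaInvertP R p)

lemma ker_le_comap (φ : R →+* R) : kerTheta R p ≤ comap (ainfPMap φ) (kerTheta R p) := by
  intro x hx
  rw [mem_comap, RingHom.mem_ker, thetaP_ainfPMap, RingHom.mem_ker.mp hx, map_zero]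

lemma ker_pow_le_comap (φ : R →+* R) (n : ℕ) :
    kerTheta R p ^ n ≤ comap (ainfPMap φ) (kerTheta R p ^ n) :=
  (Ideal.pow_right_mono (ker_le_comap φ) n).trans (Ideal.le_comap_pow _ n)

/-- The completion of `A_inf[1/p]`, which is `B_dR^+`. -/
abbrev Cpl (R : Type*) [CommRing R] (p : ℕ) [Fact p.Prime]
    [Fact ¬IsUnit (p : R)] [IsAdicComplete (span {(p : R)}) R] : Type _ :=
  AdicCompletion (kerTheta R p) (Localization.Away (p : WittVector p (PreTilt R p)))

/-- The endomorphism of `B_dR^+` induced by `φ`. -/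
def bdrPlusMap (φ : R →+* R) : BDeRhamPlus R p →+* BDeRhamPlus R p :=
  complMap (ainfPMap φ) (ker_le_comap φ)

/-- The canonical map from `A_inf[1/p]` to `B_dR^+`. -/
def toBdrPlus (R : Type*) [CommRing R] (p : ℕ) [Fact p.Prime]
    [Fact ¬IsUnit (p : R)] [IsAdicComplete (span {(p : R)}) R] :
    Localization.Away (p : WittVector p (PreTilt R p)) →+* BDeRhamPlus R p :=
  algebraMap (Localization.Away (p : WittVector p (PreTilt R p)))
    (AdicCompletion (kerTheta R p) (Localization.Away (p : WittVector p (PreTilt R p))))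

/-- Reduction of `B_dR^+` modulo the `n`-th power of the maximal ideal. -/
def bdrEval (R : Type*) [CommRing R] (p : ℕ) [Fact p.Prime]
    [Fact ¬IsUnit (p : R)] [IsAdicComplete (span {(p : R)}) R] (n : ℕ) :
    BDeRhamPlus R p →+* Localization.Away (p : WittVector p (PreTilt R p)) ⧸ kerTheta R p ^ n :=
  (AdicCompletion.evalₐ (kerTheta R p) n).toRingHom

lemma bdrEval_map (φ : R →+* R) (n : ℕ) (x : BDeRhamPlus R p) :
    bdrEval R p n (bdrPlusMap φ x) =
      Ideal.quotientMap (kerTheta R p ^ n) (ainfPMap φ) (ker_pow_le_comap φ n)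
        (bdrEval R p n x) :=
  AdicCompletion.evalₐ_liftRingHom (kerTheta R p) (complQuot (ainfPMap φ) (ker_le_comap φ))
    (complQuot_compat (ainfPMap φ) (ker_le_comap φ)) n x

lemma bdrPlus_ext {x y : BDeRhamPlus R p} (h : ∀ n, bdrEval R p n x = bdrEval R p n y) : x = y :=
  AdicCompletion.ext_evalₐ h

lemma bdrEval_toBdrPlus (n : ℕ) (x : Localization.Away (p : WittVector p (PreTilt R p))) :
    bdrEval R p n (toBdrPlus R p x) = Ideal.Quotient.mk _ x :=
  AdicCompletion.evalₐ_of (kerTheta R p) n x

lemma bdrPlusMap_toBdrPlus (φ : R →+* R)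
    (x : Localization.Away (p : WittVector p (PreTilt R p))) :
    bdrPlusMap φ (toBdrPlus R p x) = toBdrPlus R p (ainfPMap φ x) := by
  refine bdrPlus_ext fun n => ?_
  rw [bdrEval_map, bdrEval_toBdrPlus, bdrEval_toBdrPlus, Ideal.quotientMap_mk]

/-- The multiplicative set of Mathlib's definition of `B_dR`. -/
abbrev genSet (R : Type*) [CommRing R] (p : ℕ) [Fact p.Prime]
    [Fact ¬IsUnit (p : R)] [IsAdicComplete (span {(p : R)}) R] : Submonoid (BDeRhamPlus R p) :=
  Submonoid.closure (AdicCompletion.of (kerTheta R p) _ '' {a | kerTheta R p = span {a}})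

/-- `B_dR` is a commutative ring. -/
instance instCommRingBDeRham : CommRing (BDeRham R p) :=
  (inferInstance : CommRing (Localization (genSet R p)))

/-- The canonical map from `B_dR^+` to `B_dR`. -/
def toBdr (R : Type*) [CommRing R] (p : ℕ) [Fact p.Prime]
    [Fact ¬IsUnit (p : R)] [IsAdicComplete (span {(p : R)}) R] :
    BDeRhamPlus R p →+* BDeRham R p :=
  algebraMap (BDeRhamPlus R p) (Localization (genSet R p))

lemma ker_eq_span_map (φ ψ : R →+* R) (h : φ.comp ψ = RingHom.id R)
    {a : Localization.Away (p : WittVector p (PreTilt R p))} (ha : kerTheta R p = span {a}) :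
    kerTheta R p = span {ainfPMap φ a} := by
  apply le_antisymm
  · intro x hx
    have h1 : ainfPMap ψ x ∈ kerTheta R p := mem_comap.mp (ker_le_comap ψ hx)
    rw [ha] at h1
    obtain ⟨y, hy⟩ := mem_span_singleton.mp h1
    have h2 : x = ainfPMap φ (ainfPMap ψ x) := by
      rw [← ainfPMap_comp, h, ainfPMap_id]
    rw [h2, hy, map_mul, mem_span_singleton]
    exact ⟨_, rfl⟩
  · rw [span_singleton_le_iff_mem]
    have h1 : a ∈ kerTheta R p := by
      rw [ha]
      exact mem_span_singleton_self a
    exact mem_comap.mp (ker_le_comap φ h1)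

lemma genSet_le_comap (φ ψ : R →+* R) (h : φ.comp ψ = RingHom.id R) :
    genSet R p ≤ (genSet R p).comap (bdrPlusMap (p := p) φ) := by
  rw [Submonoid.closure_le]
  rintro _ ⟨a, ha, rfl⟩
  exact Submonoid.subset_closure ⟨ainfPMap φ a, ker_eq_span_map φ ψ h ha,
    (bdrPlusMap_toBdrPlus φ a).symm⟩

/-- The endomorphism of `B_dR` induced by an automorphism `φ` with inverse `ψ`. -/
def bdrMap (φ ψ : R →+* R) (h : φ.comp ψ = RingHom.id R) : BDeRham R p →+* BDeRham R p :=
  IsLocalization.map (M := genSet R p) (T := genSet R p) (S := Localization (genSet R p))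
    (Localization (genSet R p)) (bdrPlusMap φ) (genSet_le_comap φ ψ h)

lemma bdrMap_toBdr (φ ψ : R →+* R) (h : φ.comp ψ = RingHom.id R) (x : BDeRhamPlus R p) :
    bdrMap φ ψ h (toBdr R p x) = toBdr R p (bdrPlusMap φ x) :=
  IsLocalization.map_eq (M := genSet R p) (T := genSet R p) (S := Localization (genSet R p))
    (Q := Localization (genSet R p)) (genSet_le_comap φ ψ h) x

end

end Pool.Agent.W2helper47.FM
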