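import Pool.Agent.W2helper47.FM.Cyc

/-!
# The action of the Galois group on `ℂ_p`, and the cyclotomic character
-/

set_option autoImplicit false

namespace Pool.Agent.W2helper47.FM

open Polynomial

variable {p : ℕ} [hp : Fact p.Prime]

/-! ### The action on `ℂ_p` -/

lemma continuous_gal (σ : Gal(PadicAlgCl p/ℚ_[p])) :
    Continuous (RingHomClass.toRingHom σ : PadicAlgCl p →+* PadicAlgCl p) := by
  refine AddMonoidHomClass.continuous_of_bound
    (RingHomClass.toRingHom σ : PadicAlgCl p →+* PadicAlgCl p) 1 fun x => ?_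
  rw [one_mul]
  exact (norm_algEquiv σ x).le

/-- The action of the Galois group on `ℂ_p`. -/
noncomputable def actC (σ : Gal(PadicAlgCl p/ℚ_[p])) : ℂ_[p] →+* ℂ_[p] :=
  UniformSpace.Completion.mapRingHom (RingHomClass.toRingHom σ : PadicAlgCl p →+* PadicAlgCl p)
    (continuous_gal σ)

lemma actC_coe (σ : Gal(PadicAlgCl p/ℚ_[p])) (x : PadicAlgCl p) :
    actC σ (x : ℂ_[p]) = ((σ x : PadicAlgCl p) : ℂ_[p]) :=
  UniformSpace.Completion.mapRingHom_coe (continuous_gal σ) x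

lemma continuous_actC (σ : Gal(PadicAlgCl p/ℚ_[p])) : Continuous (actC σ) :=
  UniformSpace.Completion.continuous_map

lemma norm_actC (σ : Gal(PadicAlgCl p/ℚ_[p])) (x : ℂ_[p]) : ‖actC σ x‖ = ‖x‖ := by
  refine UniformSpace.Completion.induction_on x ?_ fun a => ?_
  · exact isClosed_eq ((continuous_actC σ).norm) continuous_norm
  · rw [actC_coe, PadicComplex.norm_extends, PadicComplex.norm_extends, norm_algEquiv]

lemma actC_one (x : ℂ_[p]) : actC (1 : Gal(PadicAlgCl p/ℚ_[p])) x = x := by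
  refine UniformSpace.Completion.induction_on x ?_ fun a => ?_
  · exact isClosed_eq (continuous_actC _) continuous_id
  · rw [actC_coe]; rfl

lemma actC_mul (σ τ : Gal(PadicAlgCl p/ℚ_[p])) (x : ℂ_[p]) :
    actC (σ * τ) x = actC σ (actC τ x) := by
  refine UniformSpace.Completion.induction_on x ?_ fun a => ?_
  · exact isClosed_eq (continuous_actC _) ((continuous_actC _).comp (continuous_actC _))
  · rw [actC_coe, actC_coe, actC_coe]; rfl

lemma actC_algebraMap (σ : Gal(PadicAlgCl p/ℚ_[p])) (a : ℚ_[p]) :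
    actC σ (algebraMap ℚ_[p] ℂ_[p] a) = algebraMap ℚ_[p] ℂ_[p] a := by
  have h : algebraMap ℚ_[p] ℂ_[p] a = ((algebraMap ℚ_[p] (PadicAlgCl p) a : PadicAlgCl p) : ℂ_[p]) :=
    rfl
  rw [h, actC_coe, AlgEquiv.commutes]

lemma normC_sub_max (x y : ℂ_[p]) : ‖x - y‖ ≤ max ‖x‖ ‖y‖ := by
  rw [sub_eq_add_neg, ← norm_neg y]
  exact IsUltrametricDist.norm_add_le_max x (-y)

/-! ### The cyclotomic character -/

/-- The cyclotomic character of the absolute Galois group of `ℚ_p`. -/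
noncomputable def chi (σ : Gal(PadicAlgCl p/ℚ_[p])) : ℤ_[p]ˣ :=
  cyclotomicCharacter (PadicAlgCl p) p (σ : PadicAlgCl p ≃+* PadicAlgCl p)

lemma chi_mul (σ τ : Gal(PadicAlgCl p/ℚ_[p])) : chi (σ * τ) = chi σ * chi τ := by
  unfold chi
  rw [← map_mul]
  rfl

lemma chi_spec (σ : Gal(PadicAlgCl p/ℚ_[p])) {n : ℕ} {ζ : PadicAlgCl p} (h : ζ ^ p ^ n = 1) :
    σ ζ = ζ ^ ((chi σ : ℤ_[p]).toZModPow n).val :=
  cyclotomicCharacter.spec p (σ : PadicAlgCl p ≃+* PadicAlgCl p) ζ h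

end Pool.Agent.W2helper47.FM
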