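import Mathlib

/-!
# Ax's theorem on almost invariant algebraic elements

Let `K` be an algebraic extension of `ℚ_p` in an algebraic closure `Ω`, with the extension of the
`p`-adic norm. If `α` is moved by at most `Δ` by each element of the Galois group of `Ω` over `K`,
then the distance of `α` from `K` is at most `p ^ 2 * Δ`.
-/

set_option autoImplicit false

namespace Pool.Agent.W2helper47.FM

open Polynomial

variable {p : ℕ} [hp : Fact p.Prime]

/-- Automorphisms over an intermediate field are isometries. -/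
lemma norm_algEquiv (σ : Gal(PadicAlgCl p/ℚ_[p])) (x : PadicAlgCl p) : ‖σ x‖ = ‖x‖ :=
  (spectralNorm_eq_of_equiv σ x).symm

lemma norm_algEquiv' {K : IntermediateField ℚ_[p] (PadicAlgCl p)} (σ : Gal(PadicAlgCl p/K))
    (x : PadicAlgCl p) : ‖σ x‖ = ‖x‖ :=
  norm_algEquiv (σ.restrictScalars ℚ_[p]) x

lemma norm_sub_max (x y : PadicAlgCl p) : ‖x - y‖ ≤ max ‖x‖ ‖y‖ := by
  rw [sub_eq_add_neg, ← norm_neg y]
  exact IsUltrametricDist.norm_add_le_max x (-y)

/-- Coefficients of a product of linear factors with small roots. -/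
lemma coeff_prod_le (s : Multiset (PadicAlgCl p)) {Δ : ℝ} (hΔ : 0 ≤ Δ)
    (h : ∀ b ∈ s, ‖b‖ ≤ Δ) (k : ℕ) (hk : k ≤ Multiset.card s) :
    ‖((s.map fun b => X - C b).prod).coeff k‖ ≤ Δ ^ (Multiset.card s - k) := by
  induction s using Multiset.induction_on generalizing k with
  | empty =>
    have : k = 0 := by simpa using hk
    subst this
    simp
  | cons a s ih =>
    rw [Multiset.map_cons, Multiset.prod_cons, sub_mul]
    have ha : ‖a‖ ≤ Δ := h a (Multiset.mem_cons_self a s)
    have hs : ∀ b ∈ s, ‖b‖ ≤ Δ := fun b hb => h b (Multiset.mem_cons_of_mem hb)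
    rw [Multiset.card_cons] at hk ⊢
    cases k with
    | zero =>
      rw [coeff_sub, coeff_X_mul_zero, zero_sub, norm_neg, coeff_C_mul, norm_mul]
      have h1 := ih hs 0 (Nat.zero_le _)
      calc ‖a‖ * _ ≤ Δ * Δ ^ (Multiset.card s - 0) :=
            mul_le_mul ha h1 (norm_nonneg _) hΔ
        _ = _ := by rw [← pow_succ']; congr 1
    | succ k =>
      rw [coeff_sub, coeff_X_mul, coeff_C_mul]
      have h1 := ih hs k (by omega)
      refine (norm_sub_max _ _).trans (max_le ?_ ?_)
      · rwa [show Multiset.card s + 1 - (k + 1) = Multiset.card s - k by omega]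
      · rw [norm_mul]
        by_cases hks : k + 1 ≤ Multiset.card s
        · have h2 := ih hs (k + 1) hks
          calc ‖a‖ * _ ≤ Δ * Δ ^ (Multiset.card s - (k + 1)) :=
                mul_le_mul ha h2 (norm_nonneg _) hΔ
            _ = _ := by rw [← pow_succ']; congr 1; omega
        · have h3 : ((s.map fun b => X - C b).prod).coeff (k + 1) = 0 := by
            apply coeff_eq_zero_of_natDegree_lt
            rw [natDegree_multiset_prod_X_sub_C_eq_card]
            omega
          rw [h3, norm_zero, mul_zero]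
          positivity

/-- The binomial coefficient of `p ^ i * d` over `p ^ i` is `d` modulo `p`. -/
lemma choose_mod (i d : ℕ) : (p ^ i * d).choose (p ^ i) ≡ d [MOD p] := by
  induction i with
  | zero => simp [Nat.ModEq.refl]
  | succ i ih =>
    refine (Choose.choose_modEq_choose_mod_mul_choose_div_nat (p := p)).trans ?_
    have h1 : p ^ (i + 1) * d % p = 0 := by
      rw [pow_succ, mul_assoc, mul_comm p d, ← mul_assoc]; exact Nat.mul_mod_left _ _
    have h2 : p ^ (i + 1) % p = 0 := by rw [pow_succ]; exact Nat.mul_mod_left _ _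
    have h3 : p ^ (i + 1) * d / p = p ^ i * d := by
      rw [pow_succ, mul_assoc, mul_comm p d, ← mul_assoc]
      exact Nat.mul_div_cancel _ hp.out.pos
    have h4 : p ^ (i + 1) / p = p ^ i := by
      rw [pow_succ]; exact Nat.mul_div_cancel _ hp.out.pos
    rw [h1, h2, h3, h4]
    simpa using ih

lemma norm_choose_one {i d : ℕ} (hd : ¬ p ∣ d) :
    ‖(((p ^ i * d).choose (p ^ i) : ℕ) : PadicAlgCl p)‖ = 1 := by
  have h1 : ¬ p ∣ (p ^ i * d).choose (p ^ i) := fun h =>
    hd ((Nat.modEq_zero_iff_dvd).mp ((choose_mod i d).symm.trans (Nat.modEq_zero_iff_dvd.mpr h)))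
  rw [← map_natCast (algebraMap ℚ_[p] (PadicAlgCl p)), norm_algebraMap', Padic.norm_natCast_eq_one_iff]
  exact (Nat.Prime.coprime_iff_not_dvd hp.out).mpr h1

lemma norm_choose_p (i : ℕ) :
    ‖(((p ^ (i + 1)).choose (p ^ i) : ℕ) : PadicAlgCl p)‖ = (p : ℝ)⁻¹ := by
  have hpr := hp.out
  have h0 : (p ^ (i + 1)).choose (p ^ i) ≠ 0 :=
    (Nat.choose_pos (Nat.pow_le_pow_right hpr.pos (Nat.le_succ i))).ne'
  have h1 : padicValNat p ((p ^ (i + 1)).choose (p ^ i)) = 1 := by
    have h2 := Nat.Prime.emultiplicity_choose_prime_pow hpr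
      (Nat.pow_le_pow_right hpr.pos (Nat.le_succ i)) (pow_ne_zero i hpr.ne_zero) (n := i + 1)
    rw [multiplicity_pow_self_of_prime hpr.prime] at h2
    have h3 : i.succ - i = 1 := by omega
    rw [h3] at h2
    rw [← padicValNat_eq_emultiplicity h0] at h2
    exact_mod_cast h2
  rw [← map_natCast (algebraMap ℚ_[p] (PadicAlgCl p)), norm_algebraMap']
  have h2 := Padic.norm_eq_zpow_neg_valuation (p := p)
    (x := (((p ^ (i + 1)).choose (p ^ i) : ℕ) : ℚ_[p])) (by exact_mod_cast h0)
  rw [h2, Padic.valuation_natCast, h1]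
  simp

/-- There is a root of the Hasse derivative of order `q` of the minimal polynomial of `α` which
is near `α`. -/
lemma exists_root {K : IntermediateField ℚ_[p] (PadicAlgCl p)} (α : PadicAlgCl p) {Δ : ℝ}
    (hΔ : 0 ≤ Δ) (h : ∀ σ : Gal(PadicAlgCl p/K), ‖σ α - α‖ ≤ Δ) (q : ℕ)
    (hq : q < (minpoly K α).natDegree) {r : ℝ} (hr : 0 < r)
    (hr' : Δ ^ ((minpoly K α).natDegree - q) ≤
      ‖(((minpoly K α).natDegree.choose q : ℕ) : PadicAlgCl p)‖ *
        r ^ ((minpoly K α).natDegree - q)) :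
    ∃ β : PadicAlgCl p, ‖β - α‖ ≤ r ∧
      (minpoly K β).natDegree ≤ (minpoly K α).natDegree - q := by
  classical
  have hint : IsIntegral K α := (Algebra.IsIntegral.isIntegral (R := ℚ_[p]) α).tower_top
  set f := minpoly K α with hf
  set n := f.natDegree with hn
  have hmon : f.Monic := minpoly.monic hint
  set F : (PadicAlgCl p)[X] := f.map (algebraMap K (PadicAlgCl p)) with hF
  have hFmon : F.Monic := hmon.map _
  have hFdeg : F.natDegree = n := natDegree_map _
  have hFprod : F = (F.roots.map fun a => X - C a).prod :=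
    ((IsAlgClosed.splits F).eq_prod_roots_of_monic hFmon)
  have hcard : Multiset.card F.roots = n := by
    rw [← hFdeg]; exact (splits_iff_card_roots.mp (IsAlgClosed.splits F))
  -- the Taylor expansion at `α`
  have htay : taylor α F = ((F.roots.map fun a => a - α).map fun b => X - C b).prod := by
    conv_lhs => rw [hFprod]
    have e : ∀ G : (PadicAlgCl p)[X], taylor α G = taylorAlgHom α G := fun _ => rfl
    rw [e, map_multiset_prod, Multiset.map_map, Multiset.map_map]
    congr 1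
    apply Multiset.map_congr rfl
    intro a _
    simp only [Function.comp_apply, ← e, map_sub, taylor_X, taylor_C]
    ring
  set P := hasseDeriv q f with hP
  set P' : (PadicAlgCl p)[X] := P.map (algebraMap K (PadicAlgCl p)) with hP'
  have hmap : hasseDeriv q F = P' := by
    rw [hP', hP, hF]
    ext k
    simp [hasseDeriv_coeff]
  have hPα : ‖P'.eval α‖ ≤ Δ ^ (n - q) := by
    rw [← hmap, ← taylor_coeff, htay]
    have := coeff_prod_le (F.roots.map fun a => a - α) hΔ (by
      intro b hb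
      obtain ⟨a, ha, rfl⟩ := Multiset.mem_map.mp hb
      have h1 : IsConjRoot K α a := by
        rw [isConjRoot_iff_mem_minpoly_aroots hint]
        exact ha
      obtain ⟨σ, hσ⟩ := h1.exists_algEquiv
      have h2 := h σ⁻¹
      rw [← hσ] at h2 ⊢
      have h3 : σ⁻¹ (σ a) = a := by
        change (σ⁻¹ * σ) a = a
        simp
      rwa [h3] at h2) q (by rw [Multiset.card_map, hcard]; exact hq.le)
    rwa [Multiset.card_map, hcard] at this
  have hPdeg : P.natDegree = n - q := natDegree_hasseDeriv f q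
  have hP'deg : P'.natDegree = n - q := by rw [hP', natDegree_map, hPdeg]
  have hP0 : P ≠ 0 := by
    intro h0
    rw [h0, natDegree_zero] at hPdeg
    omega
  have hP'0 : P' ≠ 0 := by
    rw [hP']; exact (Polynomial.map_ne_zero_iff (algebraMap K (PadicAlgCl p)).injective).mpr hP0
  have hlead : P'.leadingCoeff = ((n.choose q : ℕ) : PadicAlgCl p) := by
    rw [leadingCoeff, hP'deg, ← hmap, hasseDeriv_coeff,
      show n - q + q = n by omega]
    have : F.coeff n = 1 := by rw [← hFdeg]; exact hFmon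
    rw [this, mul_one]
  have hsplit : P' = C P'.leadingCoeff * (P'.roots.map fun a => X - C a).prod :=
    (IsAlgClosed.splits P').eq_prod_roots
  have hcardP : Multiset.card P'.roots = n - q := by
    rw [← hP'deg]; exact (splits_iff_card_roots.mp (IsAlgClosed.splits P'))
  -- one root is near
  have hex : ∃ β ∈ P'.roots, ‖β - α‖ ≤ r := by
    by_contra hcon
    push Not at hcon
    have h1 : P'.eval α = P'.leadingCoeff * (P'.roots.map fun a => α - a).prod := by
      conv_lhs => rw [hsplit]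
      rw [eval_mul, eval_C, eval_multiset_prod, Multiset.map_map]
      congr 2
      apply Multiset.map_congr rfl
      intro a _
      simp
    have h2 : ∀ s : Multiset (PadicAlgCl p), (∀ b ∈ s, r < ‖b - α‖) →
        r ^ Multiset.card s ≤ ‖(s.map fun a => α - a).prod‖ ∧
        (s ≠ 0 → r ^ Multiset.card s < ‖(s.map fun a => α - a).prod‖) := by
      intro s
      induction s using Multiset.induction_on with
      | empty => intro _; simp
      | cons a s ih =>
        intro hs
        have ha := hs a (Multiset.mem_cons_self a s)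
        have h3 := ih fun b hb => hs b (Multiset.mem_cons_of_mem hb)
        have h4 : r ^ Multiset.card (a ::ₘ s) <
            ‖((a ::ₘ s).map fun a => α - a).prod‖ := by
          rw [Multiset.map_cons, Multiset.prod_cons, Multiset.card_cons, norm_mul, pow_succ']
          rw [norm_sub_rev] at ha
          exact mul_lt_mul ha h3.1 (by positivity) (norm_nonneg _)
        exact ⟨h4.le, fun _ => h4⟩
    have h3 := (h2 P'.roots hcon).2 (by
      intro h0
      rw [h0, Multiset.card_zero] at hcardP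
      omega)
    rw [hcardP] at h3
    have h4 : ‖P'.eval α‖ =
        ‖((n.choose q : ℕ) : PadicAlgCl p)‖ * ‖(P'.roots.map fun a => α - a).prod‖ := by
      rw [h1, norm_mul, hlead]
    have h5 : 0 < ‖((n.choose q : ℕ) : PadicAlgCl p)‖ := by
      rw [norm_pos_iff]
      exact_mod_cast (Nat.choose_pos hq.le).ne'
    have h6 : ‖((n.choose q : ℕ) : PadicAlgCl p)‖ * r ^ (n - q) < ‖P'.eval α‖ := by
      rw [h4]; exact mul_lt_mul_of_pos_left h3 h5
    exact absurd (hPα.trans hr') (not_le.mpr h6)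
  obtain ⟨β, hβ, hβr⟩ := hex
  refine ⟨β, hβr, ?_⟩
  have h1 : aeval β P = 0 := by
    have := (mem_roots hP'0).mp hβ
    rwa [IsRoot.def, hP', eval_map_algebraMap] at this
  have h2 := natDegree_le_of_dvd (minpoly.dvd K β h1) hP0
  rwa [hPdeg] at h2

/-- the exponent in the bound -/
noncomputable def ex (p n : ℕ) : ℝ := 2 * (1 - ((p : ℝ) ^ (Nat.log p n))⁻¹)

lemma ex_mono {m n : ℕ} (h : m ≤ n) : ex p m ≤ ex p n := by
  unfold ex
  have h1 : Nat.log p m ≤ Nat.log p n := Nat.log_mono_right h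
  have h2 : (1 : ℝ) ≤ p := by exact_mod_cast hp.out.one_lt.le
  have h3 : (p : ℝ) ^ Nat.log p m ≤ (p : ℝ) ^ Nat.log p n := pow_le_pow_right₀ h2 h1
  have h4 : ((p : ℝ) ^ Nat.log p n)⁻¹ ≤ ((p : ℝ) ^ Nat.log p m)⁻¹ :=
    inv_anti₀ (by positivity) h3
  linarith

lemma ex_nonneg (n : ℕ) : 0 ≤ ex p n := by
  unfold ex
  have h2 : (1 : ℝ) ≤ p := by exact_mod_cast hp.out.one_lt.le
  have h3 : ((p : ℝ) ^ Nat.log p n)⁻¹ ≤ 1 := inv_le_one_of_one_le₀ (one_le_pow₀ h2)
  linarith

lemma ex_le (n : ℕ) : ex p n ≤ 2 := by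
  unfold ex
  have : 0 < ((p : ℝ) ^ Nat.log p n)⁻¹ := by
    have : (0 : ℝ) < p := by exact_mod_cast hp.out.pos
    positivity
  linarith

lemma ex_step (i m : ℕ) (hm : m < p ^ (i + 1)) :
    ex p m + 1 / ((p : ℝ) ^ (i + 1) - (p : ℝ) ^ i) ≤ ex p (p ^ (i + 1)) := by
  have hp1 : (2 : ℝ) ≤ p := by exact_mod_cast hp.out.two_le
  have hp0 : (0 : ℝ) < p := by linarith
  have h1 : Nat.log p (p ^ (i + 1)) = i + 1 := Nat.log_pow hp.out.one_lt _
  have h2 : Nat.log p m ≤ i := by
    rcases Nat.eq_zero_or_pos m with h0 | h0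
    · subst h0; simp
    · have := (Nat.log_lt_iff_lt_pow hp.out.one_lt h0.ne').mpr hm
      omega
  have h3 : (p : ℝ) ^ Nat.log p m ≤ (p : ℝ) ^ i := pow_le_pow_right₀ (by linarith) h2
  have h4 : ((p : ℝ) ^ i)⁻¹ ≤ ((p : ℝ) ^ Nat.log p m)⁻¹ := inv_anti₀ (by positivity) h3
  unfold ex
  rw [h1]
  have h5 : (0 : ℝ) < (p : ℝ) ^ i := by positivity
  have h6 : 1 / ((p : ℝ) ^ (i + 1) - (p : ℝ) ^ i) ≤
      2 * (((p : ℝ) ^ i)⁻¹ - ((p : ℝ) ^ (i + 1))⁻¹) := by
    rw [pow_succ]
    have h7 : (p : ℝ) ^ i * p - (p : ℝ) ^ i = (p : ℝ) ^ i * (p - 1) := by ring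
    rw [h7, mul_inv]
    have h8 : ((p : ℝ) ^ i)⁻¹ - ((p : ℝ) ^ i)⁻¹ * (p : ℝ)⁻¹ =
        ((p : ℝ) ^ i)⁻¹ * ((p - 1) / p) := by
      field_simp
    rw [h8, one_div, mul_inv]
    have h9 : ((p : ℝ) - 1)⁻¹ ≤ 2 * ((p - 1) / p) := by
      rw [inv_le_iff_one_le_mul₀ (by linarith)]
      rw [show 2 * (((p : ℝ) - 1) / p) * (p - 1) = 2 * (p - 1) ^ 2 / p by ring,
        le_div_iff₀ hp0]
      nlinarith
    calc ((p : ℝ) ^ i)⁻¹ * ((p : ℝ) - 1)⁻¹ ≤ ((p : ℝ) ^ i)⁻¹ * (2 * ((p - 1) / p)) := by
          gcongr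
      _ = _ := by ring
  linarith

/-- **Ax's theorem**, with the degree. -/
theorem ax_aux (K : IntermediateField ℚ_[p] (PadicAlgCl p)) (n : ℕ) :
    ∀ (α : PadicAlgCl p) (Δ : ℝ), 0 < Δ → (minpoly K α).natDegree ≤ n →
      (∀ σ : Gal(PadicAlgCl p/K), ‖σ α - α‖ ≤ Δ) →
      ∃ a : K, ‖α - a‖ ≤ (p : ℝ) ^ (ex p n) * Δ := by
  have hp1 : (1 : ℝ) ≤ p := by exact_mod_cast hp.out.one_lt.le
  have hp0 : (0 : ℝ) < p := by linarith
  induction n using Nat.strong_induction_on with
  | _ n ih =>
    intro α Δ hΔ hn h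
    have hint : IsIntegral K α := (Algebra.IsIntegral.isIntegral (R := ℚ_[p]) α).tower_top
    have hpos : 0 < (minpoly K α).natDegree := minpoly.natDegree_pos hint
    set d := (minpoly K α).natDegree with hd
    -- it suffices to treat `n = d`
    suffices hS : ∃ a : K, ‖α - a‖ ≤ (p : ℝ) ^ (ex p d) * Δ by
      obtain ⟨a, ha⟩ := hS
      refine ⟨a, ha.trans ?_⟩
      have := Real.rpow_le_rpow_of_exponent_le hp1 (ex_mono (p := p) hn)
      gcongr
    rcases Nat.eq_or_lt_of_le (Nat.succ_le_of_lt hpos) with h1 | h1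
    · -- degree one
      have h2 : (minpoly K α).natDegree = 1 := by rw [← hd]; exact h1.symm
      rw [minpoly.natDegree_eq_one_iff] at h2
      obtain ⟨a, ha⟩ := h2
      refine ⟨a, ?_⟩
      have : ((a : K) : PadicAlgCl p) = α := ha
      rw [this, sub_self, norm_zero]
      positivity
    -- the descent step
    have step : ∀ (q : ℕ) (r : ℝ), 0 < q → q < d → Δ ≤ r →
        Δ ^ (d - q) ≤ ‖((d.choose q : ℕ) : PadicAlgCl p)‖ * r ^ (d - q) →
        ∃ a : K, ‖α - a‖ ≤ (p : ℝ) ^ (ex p (d - q)) * r := by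
      intro q r hq hqd hr hrr
      have hr0 : 0 < r := lt_of_lt_of_le hΔ hr
      obtain ⟨β, hβ, hβd⟩ := exists_root α hΔ.le h q hqd hr0 hrr
      obtain ⟨a, ha⟩ := ih (d - q) (by omega) β r hr0 hβd (by
        intro σ
        have e : σ β - β = (σ (β - α)) + ((σ α - α) - (β - α)) := by
          rw [map_sub]; ring
        rw [e]
        refine (IsUltrametricDist.norm_add_le_max _ _).trans (max_le ?_ ?_)
        · rw [norm_algEquiv']; exact hβ
        · exact (norm_sub_max _ _).trans (max_le ((h σ).trans hr) hβ))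
      refine ⟨a, ?_⟩
      have e : α - a = (β - a) - (β - α) := by ring
      rw [e]
      refine (norm_sub_max _ _).trans (max_le ha (hβ.trans ?_))
      have : 1 ≤ (p : ℝ) ^ (ex p (d - q)) := Real.one_le_rpow hp1 (ex_nonneg _)
      nlinarith
    obtain ⟨i, e, he, hde⟩ := Nat.exists_eq_pow_mul_and_not_dvd hpos.ne' p hp.out.ne_one
    by_cases he1 : e = 1
    · -- a power of `p`
      subst he1
      rw [mul_one] at hde
      cases i with
      | zero => rw [pow_zero] at hde; omega
      | succ i =>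
        have hlt : p ^ i < p ^ (i + 1) := Nat.pow_lt_pow_right hp.out.one_lt (Nat.lt_succ_self i)
        have hposq : 0 < p ^ i := pow_pos hp.out.pos i
        set N : ℕ := p ^ (i + 1) - p ^ i with hN
        have hN0 : 0 < N := by omega
        have hNr : (N : ℝ) = (p : ℝ) ^ (i + 1) - (p : ℝ) ^ i := by
          rw [hN, Nat.cast_sub hlt.le]; push_cast; ring
        have hN0' : (0 : ℝ) < N := by exact_mod_cast hN0
        obtain ⟨a, ha⟩ := step (p ^ i) ((p : ℝ) ^ (1 / (N : ℝ)) * Δ) hposq (by rw [hde]; exact hlt)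
          (by
            have : 1 ≤ (p : ℝ) ^ (1 / (N : ℝ)) := Real.one_le_rpow hp1 (by positivity)
            nlinarith)
          (by
            rw [hde, norm_choose_p, ← hN, mul_pow, ← Real.rpow_natCast ((p : ℝ) ^ (1 / (N : ℝ))),
              ← Real.rpow_mul hp0.le, one_div, inv_mul_cancel₀ hN0'.ne', Real.rpow_one]
            rw [← mul_assoc, inv_mul_cancel₀ hp0.ne', one_mul])
        refine ⟨a, ha.trans ?_⟩
        rw [← mul_assoc, ← Real.rpow_add hp0]
        have h2 := ex_step (p := p) i (d - p ^ i) (by rw [hde]; omega)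
        rw [← hNr] at h2
        have := Real.rpow_le_rpow_of_exponent_le hp1 h2
        rw [hde] at this ⊢
        gcongr
    · -- not a power of `p`
      have he0 : e ≠ 0 := by rintro rfl; simp at hde; omega
      have hlt : p ^ i < d := by
        rw [hde]
        have : 2 ≤ e := by omega
        have := pow_pos hp.out.pos i
        nlinarith
      obtain ⟨a, ha⟩ := step (p ^ i) Δ (pow_pos hp.out.pos i) hlt le_rfl (by
        have h2 : ‖((d.choose (p ^ i) : ℕ) : PadicAlgCl p)‖ = 1 := by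
          rw [hde]; exact norm_choose_one he
        rw [h2, one_mul])
      refine ⟨a, ha.trans ?_⟩
      have := Real.rpow_le_rpow_of_exponent_le hp1 (ex_mono (p := p) (Nat.sub_le d (p ^ i)))
      gcongr

/-- **Ax's theorem.** -/
theorem ax (K : IntermediateField ℚ_[p] (PadicAlgCl p)) (α : PadicAlgCl p) {Δ : ℝ} (hΔ : 0 < Δ)
    (h : ∀ σ : Gal(PadicAlgCl p/K), ‖σ α - α‖ ≤ Δ) :
    ∃ a : K, ‖α - a‖ ≤ (p : ℝ) ^ 2 * Δ := by
  have hp1 : (1 : ℝ) ≤ p := by exact_mod_cast hp.out.one_lt.le
  obtain ⟨a, ha⟩ := ax_aux K _ α Δ hΔ le_rfl h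
  refine ⟨a, ha.trans ?_⟩
  have := Real.rpow_le_rpow_of_exponent_le hp1 (ex_le (p := p) (minpoly K α).natDegree)
  rw [Real.rpow_two] at this
  gcongr

end Pool.Agent.W2helper47.FM
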