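import Pool.Agent.W2helper47.FM.Eps

/-!
# Eigenvectors of the Galois group in `B_dR`
-/

set_option autoImplicit false

namespace Pool.Agent.W2helper47.FM

open Ideal

variable {p : ℕ} [hp : Fact p.Prime]

/-- The ring `A_inf[1/p]`. -/
abbrev AInfP (p : ℕ) [Fact p.Prime] : Type := Localization.Away (p : AInf p)

/-- The ring `B_dR^+`. -/
abbrev BdRPlus (p : ℕ) [Fact p.Prime] : Type := BDeRhamPlus 𝓞_ℂ_[p] p

/-- The ring `B_dR`. -/
abbrev BdR (p : ℕ) [Fact p.Prime] : Type := BDeRham 𝓞_ℂ_[p] p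

/-! ### The structure of algebra over `ℚ_p` -/

/-- The canonical map from `ℤ_p` to `A_inf`. -/
noncomputable def zpToAInf (p : ℕ) [Fact p.Prime] : ℤ_[p] →+* AInf p :=
  (WittVector.map (ZMod.castHom (dvd_refl p) (OFlat p))).comp
    (WittVector.equiv p).symm.toRingHom

lemma isUnit_algebraMap_zpToAInf (y : nonZeroDivisors ℤ_[p]) :
    IsUnit (((algebraMap (AInf p) (AInfP p)).comp (zpToAInf p)) y) := by
  have hy : (y : ℤ_[p]) ≠ 0 := nonZeroDivisors.coe_ne_zero y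
  rw [PadicInt.unitCoeff_spec hy, map_mul, map_pow]
  refine IsUnit.mul (IsUnit.map _ (Units.isUnit _)) (IsUnit.pow _ ?_)
  rw [map_natCast, ← map_natCast (algebraMap (AInf p) (AInfP p))]
  exact IsLocalization.Away.algebraMap_isUnit _

/-- The canonical map from `ℚ_p` to `A_inf[1/p]`. -/
noncomputable def qpToAInfP (p : ℕ) [Fact p.Prime] : ℚ_[p] →+* AInfP p :=
  IsLocalization.lift (M := nonZeroDivisors ℤ_[p]) isUnit_algebraMap_zpToAInf

lemma qpToAInfP_coe (z : ℤ_[p]) :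
    qpToAInfP p (z : ℚ_[p]) = algebraMap (AInf p) (AInfP p) (zpToAInf p z) :=
  IsLocalization.lift_eq (M := nonZeroDivisors ℤ_[p]) isUnit_algebraMap_zpToAInf z

lemma qp_hom_ext {S : Type*} [CommRing S] {f g : ℚ_[p] →+* S}
    (h : ∀ z : ℤ_[p], f (z : ℚ_[p]) = g (z : ℚ_[p])) : f = g :=
  IsLocalization.ringHom_ext (nonZeroDivisors ℤ_[p]) (RingHom.ext h)

lemma ainfMap_zp (φ : 𝓞_ℂ_[p] →+* 𝓞_ℂ_[p]) (z : ℤ_[p]) :
    ainfMap φ (zpToAInf p z) = zpToAInf p z := by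
  unfold zpToAInf ainfMap
  rw [RingHom.comp_apply]
  ext n
  rw [WittVector.map_coeff, WittVector.map_coeff]
  have h : (tiltMap φ).comp (ZMod.castHom (dvd_refl p) (OFlat p)) =
      ZMod.castHom (dvd_refl p) (OFlat p) := Subsingleton.elim _ _
  exact RingHom.congr_fun h _

lemma ainfPMap_qp (φ : 𝓞_ℂ_[p] →+* 𝓞_ℂ_[p]) (q : ℚ_[p]) :
    ainfPMap φ (qpToAInfP p q) = qpToAInfP p q := by
  have h : (ainfPMap φ).comp (qpToAInfP p) = qpToAInfP p := by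
    refine qp_hom_ext fun z => ?_
    rw [RingHom.comp_apply, qpToAInfP_coe, ainfPMap_algebraMap, ainfMap_zp]
  exact congrArg (fun f => f q) h

/-! ### The map to `ℂ_p` -/

/-- The inclusion of `R[1/p]` in `ℂ_p`. -/
noncomputable def lam (p : ℕ) [Fact p.Prime] : Localization.Away (p : 𝓞_ℂ_[p]) →+* ℂ_[p] :=
  Localization.awayLift (𝓞_ℂ_[p]).subtype (p : 𝓞_ℂ_[p]) (by
    rw [map_natCast]
    exact (Nat.cast_ne_zero.mpr (Fact.out : p.Prime).ne_zero).isUnit)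

lemma lam_algebraMap (x : 𝓞_ℂ_[p]) : lam p (algebraMap _ _ x) = (x : ℂ_[p]) := by
  rw [lam, Localization.awayLift, IsLocalization.Away.lift_eq]
  rfl

/-- The map `θ` on `A_inf[1/p]` with values in `ℂ_p`. -/
noncomputable def thetaC (p : ℕ) [Fact p.Prime] : AInfP p →+* ℂ_[p] :=
  (lam p).comp (fontaineThetaInvertP 𝓞_ℂ_[p] p)

lemma thetaC_algebraMap (x : AInf p) : thetaC p (algebraMap _ _ x) =
    ((WittVector.fontaineTheta 𝓞_ℂ_[p] p x : 𝓞_ℂ_[p]) : ℂ_[p]) := by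
  rw [thetaC, RingHom.comp_apply, thetaP_algebraMap, lam_algebraMap]

lemma thetaC_act (σ : Gal(PadicAlgCl p/ℚ_[p])) (x : AInfP p) :
    thetaC p (ainfPMap (actO σ) x) = actC σ (thetaC p x) := by
  have h : (thetaC p).comp (ainfPMap (actO σ)) = (actC σ).comp (thetaC p) := by
    refine ainfP_hom_ext fun y => ?_
    rw [RingHom.comp_apply, RingHom.comp_apply, ainfPMap_algebraMap, thetaC_algebraMap,
      thetaC_algebraMap, theta_ainfMap, coe_actO]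
  exact congrArg (fun f => f x) h

lemma thetaC_qp (q : ℚ_[p]) : thetaC p (qpToAInfP p q) = algebraMap ℚ_[p] ℂ_[p] q := by
  have h : (thetaC p).comp (qpToAInfP p) = algebraMap ℚ_[p] ℂ_[p] := by
    refine qp_hom_ext fun z => ?_
    rw [RingHom.comp_apply, qpToAInfP_coe, thetaC_algebraMap]
    refine eq_of_close fun n => ?_
    obtain ⟨a, z', rfl⟩ := exists_appr z n
    have h1 := zC_nat a n z'
    unfold zC at h1
    rw [h1]
    simp only [map_add, map_mul, map_pow, map_natCast]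
    push_cast
    have h3 : (a : ℂ_[p]) + (p : ℂ_[p]) ^ n *
        ((WittVector.fontaineTheta 𝓞_ℂ_[p] p (zpToAInf p z') : 𝓞_ℂ_[p]) : ℂ_[p]) -
        ((a : ℂ_[p]) + (p : ℂ_[p]) ^ n * algebraMap ℚ_[p] ℂ_[p] (z' : ℚ_[p])) =
        (p : ℂ_[p]) ^ n * (((WittVector.fontaineTheta 𝓞_ℂ_[p] p (zpToAInf p z') : 𝓞_ℂ_[p]) : ℂ_[p])
          - algebraMap ℚ_[p] ℂ_[p] (z' : ℚ_[p])) := by ring
    rw [h3, norm_mul, norm_pow, normC_p]
    refine mul_le_of_le_one_right (by positivity) ?_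
    exact (normC_sub_max _ _).trans (max_le (norm_int_le _) (norm_zC z'))
  exact congrArg (fun f => f q) h

lemma lam_injective : Function.Injective (lam p) := by
  rw [injective_iff_map_eq_zero]
  intro x hx
  obtain ⟨n, a, ha⟩ := IsLocalization.Away.surj (p : 𝓞_ℂ_[p]) x
  have h1 := congrArg (lam p) ha
  rw [map_mul, hx, zero_mul, lam_algebraMap] at h1
  have h2 : a = 0 := Subtype.ext h1.symm
  rw [h2, map_zero] at ha
  have h3 : IsUnit (algebraMap 𝓞_ℂ_[p] (Localization.Away (p : 𝓞_ℂ_[p])) (p : 𝓞_ℂ_[p]) ^ n) :=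
    (IsLocalization.Away.algebraMap_isUnit _).pow n
  exact (h3.mul_left_eq_zero).mp ha

lemma mem_kerTheta_iff (x : AInfP p) : x ∈ kerTheta 𝓞_ℂ_[p] p ↔ thetaC p x = 0 := by
  rw [RingHom.mem_ker]
  unfold thetaC
  rw [RingHom.comp_apply]
  constructor
  · intro h
    rw [h, map_zero]
  · intro h
    exact lam_injective (by rw [h, map_zero])

/-! ### The generator of the kernel in `A_inf[1/p]` -/

section eps

variable {ζ : ℕ → PadicAlgCl p} (hζ : IsTower ζ)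

/-- `w` in `A_inf[1/p]` -/
noncomputable def wP (hζ : IsTower ζ) : AInfP p := algebraMap (AInf p) (AInfP p) (wel hζ)

lemma p_mem_nzd : Submonoid.powers (p : AInf p) ≤ nonZeroDivisors (AInf p) := by
  have hpA : (p : AInf p) ≠ 0 := by
    intro h
    have h1 := congrArg (WittVector.fontaineTheta 𝓞_ℂ_[p] p) h
    rw [map_natCast, map_zero] at h1
    have h2 : (((p : 𝓞_ℂ_[p]) : 𝓞_ℂ_[p]) : ℂ_[p]) = 0 := by rw [h1]; rfl
    push_cast at h2
    exact hp.out.ne_zero (by exact_mod_cast h2)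
  rintro _ ⟨n, rfl⟩
  exact mem_nonZeroDivisors_of_ne_zero (pow_ne_zero n hpA)

instance isDomainAInfP : IsDomain (AInfP p) :=
  IsLocalization.isDomain_localization p_mem_nzd

lemma algebraMap_AInfP_injective : Function.Injective (algebraMap (AInf p) (AInfP p)) :=
  IsLocalization.injective (AInfP p) p_mem_nzd

lemma wP_ne_zero : wP hζ ≠ 0 := by
  intro h
  apply wel_ne_zero hζ
  apply algebraMap_AInfP_injective
  rw [map_zero]
  exact h

lemma wP_cancel (a : AInfP p) (h : wP hζ * a = 0) : a = 0 :=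
  (mul_eq_zero.mp h).resolve_left (wP_ne_zero hζ)

lemma kerTheta_eq : kerTheta 𝓞_ℂ_[p] p = span {wP hζ} := by
  ext x
  rw [mem_kerTheta_iff, mem_span_singleton]
  constructor
  · intro h
    obtain ⟨n, a, ha⟩ := IsLocalization.Away.surj (p : AInf p) x
    have h1 := congrArg (thetaC p) ha
    rw [map_mul, h, zero_mul, thetaC_algebraMap] at h1
    have h2 : WittVector.fontaineTheta 𝓞_ℂ_[p] p a = 0 := Subtype.ext h1.symm
    obtain ⟨y, hy⟩ := ker_theta hζ a h2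
    have h3 : IsUnit (algebraMap (AInf p) (AInfP p) (p : AInf p) ^ n) :=
      (IsLocalization.Away.algebraMap_isUnit _).pow n
    obtain ⟨u, hu⟩ := h3.exists_right_inv
    refine ⟨algebraMap (AInf p) (AInfP p) y * u, ?_⟩
    calc x = (x * algebraMap (AInf p) (AInfP p) (p : AInf p) ^ n) * u := by
          rw [mul_assoc, hu, mul_one]
      _ = _ := by rw [ha, hy, map_mul, wP, mul_assoc]
  · rintro ⟨y, rfl⟩
    rw [map_mul, wP, thetaC_algebraMap, theta_wel]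
    simp

/-! ### The map `θ` on `B_dR^+` -/

/-- The map `θ` on the completion. -/
noncomputable def thetaBdR (p : ℕ) [Fact p.Prime] : BdRPlus p →+* ℂ_[p] :=
  (Ideal.Quotient.lift (kerTheta 𝓞_ℂ_[p] p ^ 1) (thetaC p) (by
    intro a ha
    rw [pow_one, mem_kerTheta_iff] at ha
    exact ha)).comp (bdrEval 𝓞_ℂ_[p] p 1)

lemma thetaBdR_of (x : AInfP p) : thetaBdR p (toBdrPlus 𝓞_ℂ_[p] p x) = thetaC p x := by
  rw [thetaBdR, RingHom.comp_apply, bdrEval_toBdrPlus, Ideal.Quotient.lift_mk]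

lemma thetaBdR_eq_zero_iff (x : BdRPlus p) :
    thetaBdR p x = 0 ↔ bdrEval 𝓞_ℂ_[p] p 1 x = 0 := by
  rw [thetaBdR, RingHom.comp_apply]
  obtain ⟨a, ha⟩ := Ideal.Quotient.mk_surjective (bdrEval 𝓞_ℂ_[p] p 1 x)
  rw [← ha, Ideal.Quotient.lift_mk, Ideal.Quotient.eq_zero_iff_mem, pow_one, mem_kerTheta_iff]

/-- The action of the Galois group on `B_dR^+`. -/
noncomputable def actBPlus (σ : Gal(PadicAlgCl p/ℚ_[p])) : BdRPlus p →+* BdRPlus p :=
  bdrPlusMap (actO σ)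

lemma thetaBdR_act (σ : Gal(PadicAlgCl p/ℚ_[p])) (x : BdRPlus p) :
    thetaBdR p (actBPlus σ x) = actC σ (thetaBdR p x) := by
  rw [thetaBdR, RingHom.comp_apply, RingHom.comp_apply, actBPlus, bdrEval_map]
  obtain ⟨a, ha⟩ := Ideal.Quotient.mk_surjective (bdrEval 𝓞_ℂ_[p] p 1 x)
  rw [← ha, Ideal.quotientMap_mk, Ideal.Quotient.lift_mk, Ideal.Quotient.lift_mk, thetaC_act]

/-- The action of the Galois group on `B_dR`. -/
noncomputable def actB (σ : Gal(PadicAlgCl p/ℚ_[p])) : BdR p →+* BdR p :=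
  bdrMap (actO σ) (actO σ⁻¹) (actO_inv σ)

/-- The canonical map from `ℚ_p` to `B_dR`. -/
noncomputable def qpToBdR (p : ℕ) [Fact p.Prime] : ℚ_[p] →+* BdR p :=
  (toBdr 𝓞_ℂ_[p] p).comp ((toBdrPlus 𝓞_ℂ_[p] p).comp (qpToAInfP p))

lemma actB_toBdr (σ : Gal(PadicAlgCl p/ℚ_[p])) (x : BdRPlus p) :
    actB σ (toBdr 𝓞_ℂ_[p] p x) = toBdr 𝓞_ℂ_[p] p (actBPlus σ x) :=
  bdrMap_toBdr _ _ _ x

lemma actB_qp (σ : Gal(PadicAlgCl p/ℚ_[p])) (q : ℚ_[p]) :
    actB σ (qpToBdR p q) = qpToBdR p q := by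
  unfold qpToBdR
  rw [RingHom.comp_apply, RingHom.comp_apply, actB_toBdr, actBPlus, bdrPlusMap_toBdrPlus,
    ainfPMap_qp]

/-! ### Properties of the completion -/

lemma toBdr_injective : Function.Injective (toBdr 𝓞_ℂ_[p] p) := by
  obtain ⟨ζ, hζ⟩ := exists_tower (p := p)
  have h : genSet 𝓞_ℂ_[p] p ≤ nonZeroDivisors (BdRPlus p) :=
    Comp.closure_le (kerTheta_eq hζ) (wP_cancel hζ)
  exact IsLocalization.injective (M := genSet 𝓞_ℂ_[p] p) (Localization (genSet 𝓞_ℂ_[p] p)) h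

instance nontrivialBdRPlus : Nontrivial (BdRPlus p) := by
  refine ⟨⟨0, 1, fun h => ?_⟩⟩
  have h1 := congrArg (thetaBdR p) h
  rw [map_zero, map_one] at h1
  exact zero_ne_one h1

instance nontrivialBdR : Nontrivial (BdR p) :=
  toBdr_injective.nontrivial

/-- The leading term of an element of `B_dR^+`. -/
lemma bdr_lead (c : BdRPlus p) (hc : c ≠ 0) : ∃ (k : ℕ) (c' : BdRPlus p),
    c = toBdrPlus 𝓞_ℂ_[p] p (wP hζ) ^ k * c' ∧ thetaBdR p c' ≠ 0 := by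
  obtain ⟨k, c', h1, h2⟩ := Comp.exists_lead (kerTheta_eq hζ) (wP_cancel hζ) c hc
  exact ⟨k, c', h1, fun h => h2 ((thetaBdR_eq_zero_iff c').mp h)⟩

lemma bdr_isUnit (c : BdRPlus p) (hc : IsUnit (bdrEval 𝓞_ℂ_[p] p 1 c)) : IsUnit c :=
  Comp.isUnit_of_eval (I := kerTheta 𝓞_ℂ_[p] p) c hc

lemma bdr_cancel (n : ℕ) {c d : BdRPlus p}
    (h : toBdrPlus 𝓞_ℂ_[p] p (wP hζ) ^ n * c = toBdrPlus 𝓞_ℂ_[p] p (wP hζ) ^ n * d) : c = d :=
  Comp.w_pow_inj (kerTheta_eq hζ) (wP_cancel hζ) n h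

/-- Elements of `B_dR` are fractions with a power of `w` as denominator. -/
lemma bdr_frac (b : BdR p) : ∃ (m : ℕ) (c : BdRPlus p),
    toBdr 𝓞_ℂ_[p] p (toBdrPlus 𝓞_ℂ_[p] p (wP hζ) ^ m) * b = toBdr 𝓞_ℂ_[p] p c := by
  obtain ⟨⟨x, s⟩, hxs⟩ := IsLocalization.surj (genSet 𝓞_ℂ_[p] p)
    (S := Localization (genSet 𝓞_ℂ_[p] p)) b
  have h0 : ∃ (m : ℕ) (u : BdRPlus p),
      (s : BdRPlus p) * u = toBdrPlus 𝓞_ℂ_[p] p (wP hζ) ^ m :=
    Comp.exists_mul_eq_pow (kerTheta_eq hζ) (s : BdRPlus p) s.2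
  obtain ⟨m, u, hu⟩ := h0
  refine ⟨m, x * u, ?_⟩
  have h1 : toBdrPlus 𝓞_ℂ_[p] p (wP hζ) ^ m = (s : BdRPlus p) * u := hu.symm
  have h2 : b * toBdr 𝓞_ℂ_[p] p (s : BdRPlus p) = toBdr 𝓞_ℂ_[p] p x := hxs
  rw [h1, map_mul, map_mul, ← h2]
  ring

/-- `v = [ε^(1/p)] - 1` is invertible in `B_dR^+`. -/
lemma isUnit_v : IsUnit (toBdrPlus 𝓞_ℂ_[p] p (algebraMap (AInf p) (AInfP p) (vel hζ))) := by
  apply bdr_isUnit
  rw [bdrEval_toBdrPlus]
  -- `v * Q = w - p`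
  set z : AInf p := WittVector.teichmuller p (eps hζ 1) with hz
  have h1 : ∃ Q : AInf p, vel hζ * Q = wel hζ - p := by
    have h2 : (z - 1) ∣ ∑ i ∈ Finset.range p, (z ^ i - 1) :=
      Finset.dvd_sum fun i _ => by
        have := sub_dvd_pow_sub_pow z 1 i
        rwa [one_pow] at this
    obtain ⟨Q, hQ⟩ := h2
    refine ⟨Q, ?_⟩
    unfold vel wel
    rw [← hz, ← hQ, Finset.sum_sub_distrib]
    simp
  obtain ⟨Q, hQ⟩ := h1
  have h3 : Ideal.Quotient.mk (kerTheta 𝓞_ℂ_[p] p ^ 1) (algebraMap (AInf p) (AInfP p) (vel hζ)) *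
      Ideal.Quotient.mk (kerTheta 𝓞_ℂ_[p] p ^ 1) (algebraMap (AInf p) (AInfP p) Q) =
      -Ideal.Quotient.mk (kerTheta 𝓞_ℂ_[p] p ^ 1) (algebraMap (AInf p) (AInfP p) (p : AInf p)) := by
    rw [← map_mul, ← map_mul, hQ, map_sub, map_sub]
    have h4 : Ideal.Quotient.mk (kerTheta 𝓞_ℂ_[p] p ^ 1)
        (algebraMap (AInf p) (AInfP p) (wel hζ)) = 0 := by
      rw [Ideal.Quotient.eq_zero_iff_mem, pow_one, kerTheta_eq hζ]
      exact mem_span_singleton_self _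
    rw [h4, zero_sub]
  have h5 : IsUnit (-Ideal.Quotient.mk (kerTheta 𝓞_ℂ_[p] p ^ 1)
      (algebraMap (AInf p) (AInfP p) (p : AInf p))) :=
    ((IsLocalization.Away.algebraMap_isUnit (p : AInf p)).map _).neg
  rw [← h3] at h5
  exact isUnit_of_mul_isUnit_left h5

/-- **Eigenvectors in `B_dR`.** If the elements `σ` of a subgroup of finite index multiply `b` by
scalars `η σ` the squares of which are a fixed odd power of the cyclotomic character, then `b = 0`. -/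
theorem no_eigenvector (U : Subgroup Gal(PadicAlgCl p/ℚ_[p])) [U.FiniteIndex] {e : ℤ} (he : Odd e)
    (η : Gal(PadicAlgCl p/ℚ_[p]) → ℚ_[p])
    (hη : ∀ σ ∈ U, η σ ^ 2 = (((chi σ ^ e : ℤ_[p]ˣ) : ℤ_[p]) : ℚ_[p])) (b : BdR p)
    (hb : ∀ σ ∈ U, actB σ b = qpToBdR p (η σ) * b) : b = 0 := by
  obtain ⟨ζ, hζ⟩ := exists_tower (p := p)
  by_contra hb0
  set W : BdRPlus p := toBdrPlus 𝓞_ℂ_[p] p (wP hζ) with hW
  set V : BdRPlus p := toBdrPlus 𝓞_ℂ_[p] p (algebraMap (AInf p) (AInfP p) (vel hζ)) with hV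
  have hVu : IsUnit V := isUnit_v hζ
  obtain ⟨V', hVV'⟩ := hVu.exists_right_inv
  obtain ⟨m, c, hmc⟩ := bdr_frac hζ b
  have hWu : IsUnit (toBdr 𝓞_ℂ_[p] p W) := by
    have h1 : W ∈ genSet 𝓞_ℂ_[p] p :=
      Submonoid.subset_closure ⟨wP hζ, kerTheta_eq hζ, rfl⟩
    exact IsLocalization.map_units (Localization (genSet 𝓞_ℂ_[p] p)) (⟨W, h1⟩ : genSet 𝓞_ℂ_[p] p)
  have hc0 : c ≠ 0 := by
    intro h
    rw [h, map_zero, map_pow] at hmc
    exact hb0 (((hWu.pow m).mul_right_eq_zero).mp hmc)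
  obtain ⟨k, c', hck, hc'⟩ := bdr_lead hζ c hc0
  -- `T = W * V` is the image of `[ε] - 1`
  set T : BdRPlus p := toBdrPlus 𝓞_ℂ_[p] p (algebraMap (AInf p) (AInfP p) (tel hζ)) with hT
  have hTWV : T = W * V := by
    rw [hT, hW, hV, ← map_mul, ← wel_mul_vel, map_mul, wP]
  -- `b` in terms of `T`
  obtain ⟨d, hTb, hd0⟩ : ∃ d : BdRPlus p,
      toBdr 𝓞_ℂ_[p] p (T ^ m) * b = toBdr 𝓞_ℂ_[p] p (T ^ k * d) ∧ thetaBdR p d ≠ 0 := by
    refine ⟨V ^ m * (V' ^ k * c'), ?_, ?_⟩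
    · have h1 : T ^ k * (V ^ m * (V' ^ k * c')) = V ^ m * c := by
        rw [hck, hTWV]
        calc (W * V) ^ k * (V ^ m * (V' ^ k * c')) = (V * V') ^ k * (V ^ m * (W ^ k * c')) := by ring
          _ = _ := by rw [hVV', one_pow, one_mul]
      rw [h1, map_mul, ← hmc, hTWV, mul_pow, map_mul]
      ring
    · rw [map_mul, map_mul, map_pow, map_pow]
      have h1 : thetaBdR p V * thetaBdR p V' = 1 := by rw [← map_mul, hVV', map_one]
      have h2 : thetaBdR p V ≠ 0 := left_ne_zero_of_mul_eq_one h1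
      have h3 : thetaBdR p V' ≠ 0 := right_ne_zero_of_mul_eq_one h1
      exact mul_ne_zero (pow_ne_zero _ h2) (mul_ne_zero (pow_ne_zero _ h3) hc')
  -- the action on `T`
  obtain ⟨u, hact, hu⟩ : ∃ u : Gal(PadicAlgCl p/ℚ_[p]) → BdRPlus p,
      (∀ σ, actBPlus σ T = T * u σ) ∧ ∀ σ, thetaBdR p (u σ) = zC (chi σ : ℤ_[p]) := by
    refine ⟨fun σ =>
      toBdrPlus 𝓞_ℂ_[p] p (algebraMap (AInf p) (AInfP p) (Yel hζ (chi σ))) * V', ?_, ?_⟩
    · intro σ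
      rw [hT, actBPlus, bdrPlusMap_toBdrPlus, ainfPMap_algebraMap, ainfMap_tel, ← hT, hTWV,
        map_mul, map_mul]
      calc _ = W * (V * V') * toBdrPlus 𝓞_ℂ_[p] p
            (algebraMap (AInf p) (AInfP p) (Yel hζ (chi σ))) := by rw [hVV', mul_one]; rfl
        _ = _ := by ring
    · intro σ
      have h1 : thetaBdR p V = ((ζ 1 : PadicAlgCl p) : ℂ_[p]) - 1 := by
        rw [hV, thetaBdR_of, thetaC_algebraMap, theta_vel]
      have h2 : thetaBdR p V * thetaBdR p V' = 1 := by rw [← map_mul, hVV', map_one]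
      rw [map_mul, thetaBdR_of, thetaC_algebraMap, ← hhom_apply, hhom_eq, ← h1, mul_assoc, h2,
        mul_one]
  -- the relation
  have hrel : ∀ σ ∈ U, zC (chi σ : ℤ_[p]) ^ m * (algebraMap ℚ_[p] ℂ_[p] (η σ) * thetaBdR p d) =
      zC (chi σ : ℤ_[p]) ^ k * actC σ (thetaBdR p d) := by
    intro σ hσ
    have h1 := congrArg (actB σ) hTb
    rw [map_mul, hb σ hσ, actB_toBdr, actB_toBdr, map_pow, map_mul (actBPlus σ), map_pow, hact] at h1
    obtain ⟨E, hE⟩ : ∃ E, E = toBdrPlus 𝓞_ℂ_[p] p (qpToAInfP p (η σ)) := ⟨_, rfl⟩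
    have h3 : qpToBdR p (η σ) = toBdr 𝓞_ℂ_[p] p E := by rw [hE]; rfl
    rw [h3] at h1
    have h2 : toBdr 𝓞_ℂ_[p] p (T ^ (m + k) * (u σ ^ m * (E * d))) =
        toBdr 𝓞_ℂ_[p] p (T ^ (m + k) * (u σ ^ k * actBPlus σ d)) := by
      calc toBdr 𝓞_ℂ_[p] p (T ^ (m + k) * (u σ ^ m * (E * d)))
          = toBdr 𝓞_ℂ_[p] p (T ^ m * u σ ^ m * E) * toBdr 𝓞_ℂ_[p] p (T ^ k * d) := by
            rw [← map_mul]; congr 1; ring
        _ = toBdr 𝓞_ℂ_[p] p (T ^ m * u σ ^ m * E) * (toBdr 𝓞_ℂ_[p] p (T ^ m) * b) := by rw [hTb]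
        _ = toBdr 𝓞_ℂ_[p] p (T ^ m) *
            (toBdr 𝓞_ℂ_[p] p ((T * u σ) ^ m) * (toBdr 𝓞_ℂ_[p] p E * b)) := by
            rw [mul_pow]; simp only [map_mul]; ring
        _ = toBdr 𝓞_ℂ_[p] p (T ^ m) *
            toBdr 𝓞_ℂ_[p] p ((T * u σ) ^ k * actBPlus σ d) := by
            rw [map_pow (toBdr 𝓞_ℂ_[p] p) (T * u σ), h1, map_pow (actBPlus σ), hact]
        _ = _ := by rw [← map_mul]; congr 1; ring
    have h4 := toBdr_injective h2
    have h5 : u σ ^ m * (E * d) = u σ ^ k * actBPlus σ d := by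
      have h6 : ∀ y : BdRPlus p, T ^ (m + k) * y = W ^ (m + k) * (V ^ (m + k) * y) := by
        intro y; rw [hTWV]; ring
      rw [h6, h6] at h4
      have h7 := bdr_cancel hζ _ h4
      exact (hVu.pow (m + k)).mul_left_cancel h7
    have h6 := congrArg (thetaBdR p) h5
    rw [map_mul, map_mul, map_mul (thetaBdR p) (u σ ^ k), map_pow, map_pow, hu, hE, thetaBdR_of,
      thetaC_qp, thetaBdR_act] at h6
    exact h6
  obtain ⟨x, hx⟩ : ∃ x, x = thetaBdR p d := ⟨_, rfl⟩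
  rw [← hx] at hd0
  simp only [← hx] at hrel
  -- the square of `x`
  have hzne : ∀ σ : Gal(PadicAlgCl p/ℚ_[p]), zC (chi σ : ℤ_[p]) ≠ 0 := by
    intro σ h
    unfold zC at h
    rw [map_eq_zero] at h
    have : (chi σ : ℤ_[p]) = 0 := PadicInt.ext (by rw [h]; rfl)
    exact (chi σ).ne_zero this
  have hchi : ∀ (σ : Gal(PadicAlgCl p/ℚ_[p])) (n : ℤ),
      algebraMap ℚ_[p] ℂ_[p] (((chi σ ^ n : ℤ_[p]ˣ) : ℤ_[p]) : ℚ_[p]) = zC (chi σ : ℤ_[p]) ^ n := by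
    intro σ n
    obtain ⟨j, rfl | rfl⟩ := n.eq_nat_or_neg
    · rw [zpow_natCast, zpow_natCast, Units.val_pow_eq_pow_val, PadicInt.coe_pow, map_pow]
      rfl
    · rw [zpow_neg, zpow_natCast, zpow_neg, zpow_natCast]
      apply eq_inv_of_mul_eq_one_left
      have h1 : (((chi σ ^ j)⁻¹ : ℤ_[p]ˣ) : ℤ_[p]) * ((chi σ : ℤ_[p]) ^ j) = 1 := by
        rw [← Units.val_pow_eq_pow_val, ← Units.val_mul, inv_mul_cancel, Units.val_one]
      have h2 := congrArg (fun z : ℤ_[p] => algebraMap ℚ_[p] ℂ_[p] (z : ℚ_[p])) h1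
      simp only [PadicInt.coe_mul, PadicInt.coe_pow, PadicInt.coe_one, map_mul, map_pow,
        map_one] at h2
      exact h2
  have hx2 : x ^ 2 = 0 := by
    refine tate_finiteIndex U (m := e + 2 * ((m : ℤ) - k)) (by
      intro h
      rcases he with ⟨j, hj⟩
      omega) (x ^ 2) fun σ hσ => ?_
    have h1 := hrel σ hσ
    have h2 : actC σ x = zC (chi σ : ℤ_[p]) ^ ((m : ℤ) - k) * (algebraMap ℚ_[p] ℂ_[p] (η σ) * x) := by
      rw [zpow_sub₀ (hzne σ), zpow_natCast, zpow_natCast, div_mul_eq_mul_div, h1,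
        mul_div_cancel_left₀ _ (pow_ne_zero k (hzne σ))]
    rw [map_pow, h2, hchi, mul_pow, mul_pow, ← map_pow, hη σ hσ, hchi, zpow_add₀ (hzne σ),
      ← zpow_natCast (zC (chi σ : ℤ_[p]) ^ ((m : ℤ) - k)) 2, ← zpow_mul]
    rw [show ((m : ℤ) - k) * ((2 : ℕ) : ℤ) = 2 * ((m : ℤ) - k) by push_cast; ring]
    ring
  exact hd0 (pow_eq_zero_iff (two_ne_zero) |>.mp hx2)

end eps

end Pool.Agent.W2helper47.FM
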