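import Mathlib

/-!
# Completions with respect to a principal ideal

Let `I` be an ideal of `A` generated by a nonzerodivisor `w`. Elementary facts on the completion of `A`
with respect to `I`, and on its localization by the generators of `I`.
-/

set_option autoImplicit false

namespace Pool.Agent.W2helper47.FM.Comp

open Ideal AdicCompletion

variable {A : Type*} [CommRing A] {I : Ideal A} {w : A}

/-- the canonical map -/
lemma evalₐ_algebraMap (n : ℕ) (a : A) :
    evalₐ I n (algebraMap A (AdicCompletion I A) a) = Ideal.Quotient.mk (I ^ n) a := by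
  rw [AdicCompletion.algebraMap_apply]
  exact evalₐ_of I n _

lemma pow_cancel (hw : ∀ a, w * a = 0 → a = 0) (n : ℕ) {a b : A} (h : w ^ n * a = w ^ n * b) :
    a = b := by
  induction n with
  | zero => simpa using h
  | succ n ih =>
    apply ih
    have h1 : w * (w ^ n * a - w ^ n * b) = 0 := by
      rw [pow_succ'] at h
      rw [mul_sub, ← mul_assoc, ← mul_assoc, h, sub_self]
    exact sub_eq_zero.mp (hw _ h1)

lemma mem_pow_iff (hI : I = span {w}) (n : ℕ) (a : A) : a ∈ I ^ n ↔ ∃ b, a = w ^ n * b := by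
  rw [hI, span_singleton_pow, mem_span_singleton]
  exact Iff.rfl

/-- An element which is zero modulo `I ^ n` is divisible by `w ^ n`. -/
lemma exists_div (hI : I = span {w}) (hw : ∀ a, w * a = 0 → a = 0) (c : AdicCompletion I A) (n : ℕ)
    (hc : evalₐ I n c = 0) :
    ∃ c' : AdicCompletion I A, c = algebraMap A (AdicCompletion I A) w ^ n * c' := by
  obtain ⟨f, rfl⟩ := mk_surjective I A c
  rw [evalₐ_mk, Ideal.Quotient.eq_zero_iff_mem] at hc
  have hf : ∀ m k : ℕ, m ≤ k → f.1 k - f.1 m ∈ I ^ m := by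
    intro m k hmk
    have h1 := f.2 hmk
    rw [SModEq.sub_mem, smul_eq_mul, mul_top] at h1
    rw [← neg_sub]
    exact neg_mem h1
  have h1 : ∀ m, ∃ b, f.1 (m + n) = w ^ n * b := by
    intro m
    rw [← mem_pow_iff hI]
    have h2 := hf n (m + n) (by omega)
    have h3 : f.1 (m + n) = (f.1 (m + n) - f.1 n) + f.1 n := by ring
    rw [h3]
    exact add_mem h2 hc
  choose b hb using h1
  have hb' : ∀ m, b (m + 1) - b m ∈ I ^ m := by
    intro m
    have h2 := hf (m + n) (m + 1 + n) (by omega)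
    rw [hb, hb, ← mul_sub] at h2
    obtain ⟨a, ha⟩ := (mem_pow_iff hI _ _).mp h2
    rw [mem_pow_iff hI]
    refine ⟨a, pow_cancel hw n ?_⟩
    rw [ha, pow_add]
    ring
  refine ⟨AdicCompletion.mk I A (AdicCauchySequence.mk I A b (by
    intro m
    rw [SModEq.sub_mem, smul_eq_mul, mul_top, ← neg_sub]
    exact neg_mem (hb' m))), ?_⟩
  refine ext_evalₐ fun m => ?_
  rw [map_mul, map_pow, evalₐ_mk, evalₐ_mk, evalₐ_algebraMap, ← map_pow, ← map_mul]
  change _ = Ideal.Quotient.mk (I ^ m) (w ^ n * b m)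
  rw [← hb m, Ideal.Quotient.eq, ← neg_sub]
  exact neg_mem (hf m (m + n) (by omega))

/-- `w` is a nonzerodivisor in the completion. -/
lemma w_inj (hI : I = span {w}) (hw : ∀ a, w * a = 0 → a = 0) (c : AdicCompletion I A)
    (hc : algebraMap A (AdicCompletion I A) w * c = 0) : c = 0 := by
  obtain ⟨f, rfl⟩ := mk_surjective I A c
  have hf : ∀ m k : ℕ, m ≤ k → f.1 k - f.1 m ∈ I ^ m := by
    intro m k hmk
    have h1 := f.2 hmk
    rw [SModEq.sub_mem, smul_eq_mul, mul_top] at h1
    rw [← neg_sub]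
    exact neg_mem h1
  refine ext_evalₐ fun n => ?_
  rw [evalₐ_mk, _root_.map_zero, Ideal.Quotient.eq_zero_iff_mem]
  have h1 := congrArg (evalₐ I (n + 1)) hc
  rw [map_mul, _root_.map_zero, evalₐ_mk, evalₐ_algebraMap, ← map_mul, Ideal.Quotient.eq_zero_iff_mem,
    mem_pow_iff hI] at h1
  obtain ⟨a, ha⟩ := h1
  have h2 : f.1 (n + 1) = w ^ n * a := by
    apply pow_cancel hw 1
    rw [pow_one]
    change w * f.val (n + 1) = _ at ha
    rw [ha, pow_succ]
    ring
  have h3 : f.1 n = f.1 (n + 1) - (f.1 (n + 1) - f.1 n) := by ring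
  rw [h3]
  refine sub_mem ?_ (hf n (n + 1) (by omega))
  rw [h2, mem_pow_iff hI]
  exact ⟨a, rfl⟩

lemma w_pow_inj (hI : I = span {w}) (hw : ∀ a, w * a = 0 → a = 0) (n : ℕ)
    {c d : AdicCompletion I A} (h : algebraMap A (AdicCompletion I A) w ^ n * c =
      algebraMap A (AdicCompletion I A) w ^ n * d) : c = d :=
  pow_cancel (fun a ha => w_inj hI hw a ha) n h

/-- The leading term of an element of the completion. -/
lemma exists_lead (hI : I = span {w}) (hw : ∀ a, w * a = 0 → a = 0) (c : AdicCompletion I A)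
    (hc : c ≠ 0) : ∃ (k : ℕ) (c' : AdicCompletion I A),
      c = algebraMap A (AdicCompletion I A) w ^ k * c' ∧ evalₐ I 1 c' ≠ 0 := by
  classical
  have h1 : ∃ n, evalₐ I n c ≠ 0 := by
    by_contra hcon
    push Not at hcon
    exact hc (ext_evalₐ fun n => by rw [hcon n, _root_.map_zero])
  have h2 := Nat.find_spec h1
  have h3 : ∀ m < Nat.find h1, evalₐ I m c = 0 := fun m hm => by
    have := Nat.find_min h1 hm
    push Not at this
    exact this
  obtain ⟨n, hn⟩ : ∃ n, Nat.find h1 = n + 1 := by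
    refine Nat.exists_eq_succ_of_ne_zero ?_
    intro h0
    rw [h0] at h2
    apply h2
    have : Subsingleton (A ⧸ I ^ 0) := by
      rw [pow_zero, one_eq_top]
      exact Ideal.Quotient.subsingleton_iff.mpr rfl
    exact Subsingleton.elim _ _
  obtain ⟨c', hc'⟩ := exists_div hI hw c n (h3 n (by omega))
  refine ⟨n, c', hc', fun h4 => ?_⟩
  obtain ⟨c'', hc''⟩ := exists_div hI hw c' 1 h4
  rw [hn] at h2
  apply h2
  rw [hc', hc'', pow_one, ← mul_assoc, ← pow_succ, map_mul, map_pow, evalₐ_algebraMap, ← map_pow,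
    Ideal.Quotient.eq_zero_iff_mem.mpr, zero_mul]
  rw [mem_pow_iff hI]
  exact ⟨1, (mul_one _).symm⟩

/-- An element which is a unit modulo `I` is a unit. -/
lemma isUnit_of_eval (c : AdicCompletion I A) (hc : IsUnit (evalₐ I 1 c)) : IsUnit c := by
  have h1 : ∀ n, IsUnit (evalₐ I n c) := by
    intro n
    obtain ⟨f, rfl⟩ := mk_surjective I A c
    have hf : ∀ m k : ℕ, m ≤ k → f.1 k - f.1 m ∈ I ^ m := by
      intro m k hmk
      have h1 := f.2 hmk
      rw [SModEq.sub_mem, smul_eq_mul, mul_top] at h1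
      rw [← neg_sub]
      exact neg_mem h1
    rw [evalₐ_mk] at hc ⊢
    change IsUnit (Ideal.Quotient.mk (I ^ n) (f.1 n))
    change IsUnit (Ideal.Quotient.mk (I ^ 1) (f.1 1)) at hc
    obtain ⟨u, hu⟩ := hc.exists_right_inv
    obtain ⟨v, rfl⟩ := Ideal.Quotient.mk_surjective u
    rcases Nat.eq_zero_or_pos n with h0 | h0
    · subst h0
      have : Subsingleton (A ⧸ I ^ 0) := by
        rw [pow_zero, one_eq_top]
        exact Ideal.Quotient.subsingleton_iff.mpr rfl
      exact isUnit_of_subsingleton _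
    -- `f n * v = 1 - z` with `z ∈ I`
    have hz : 1 - f.1 n * v ∈ I := by
      have h2 : 1 - f.1 1 * v ∈ I := by
        rw [← map_mul, ← map_one (Ideal.Quotient.mk (I ^ 1)), Ideal.Quotient.eq, pow_one] at hu
        rw [← neg_sub]
        exact neg_mem hu
      have h3 := hf 1 n h0
      rw [pow_one] at h3
      have h4 : 1 - f.1 n * v = (1 - f.1 1 * v) - (f.1 n - f.1 1) * v := by ring
      rw [h4]
      exact sub_mem h2 (I.mul_mem_right _ h3)
    have h5 : (Ideal.Quotient.mk (I ^ n) (1 - f.1 n * v)) ^ n = 0 := by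
      rw [← map_pow, Ideal.Quotient.eq_zero_iff_mem]
      exact Ideal.pow_mem_pow hz n
    have h6 : IsUnit (1 - Ideal.Quotient.mk (I ^ n) (1 - f.1 n * v)) :=
      IsNilpotent.isUnit_one_sub ⟨n, h5⟩
    have h7 : 1 - Ideal.Quotient.mk (I ^ n) (1 - f.1 n * v) =
        Ideal.Quotient.mk (I ^ n) (f.1 n) * Ideal.Quotient.mk (I ^ n) v := by
      rw [map_sub, map_one, map_mul]; ring
    rw [h7] at h6
    exact isUnit_of_mul_isUnit_left h6
  choose u hu using fun n => (h1 n).exists_right_inv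
  choose g hg using fun n => Ideal.Quotient.mk_surjective (u n)
  obtain ⟨f, rfl⟩ := mk_surjective I A c
  have hf : ∀ m k : ℕ, m ≤ k → f.1 k - f.1 m ∈ I ^ m := by
    intro m k hmk
    have h1 := f.2 hmk
    rw [SModEq.sub_mem, smul_eq_mul, mul_top] at h1
    rw [← neg_sub]
    exact neg_mem h1
  have hfg : ∀ n, f.1 n * g n - 1 ∈ I ^ n := by
    intro n
    have h2 := hu n
    rw [evalₐ_mk, ← hg n, ← map_mul, ← map_one (Ideal.Quotient.mk (I ^ n)), Ideal.Quotient.eq] at h2
    exact h2
  have hgc : ∀ n, g n - g (n + 1) ∈ I ^ n := by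
    intro n
    have h2 := hfg n
    have h3 : f.1 (n + 1) * g (n + 1) - 1 ∈ I ^ n :=
      Ideal.pow_le_pow_right (Nat.le_succ n) (hfg (n + 1))
    have h4 := hf n (n + 1) (Nat.le_succ n)
    have h5 : g n - g (n + 1) = -(g n * (f.1 (n + 1) * g (n + 1) - 1)) +
        (f.1 (n + 1) - f.1 n) * (g n * g (n + 1)) + (f.1 n * g n - 1) * g (n + 1) := by ring
    rw [h5]
    exact add_mem (add_mem (neg_mem (Ideal.mul_mem_left _ _ h3)) (Ideal.mul_mem_right _ _ h4))
      (Ideal.mul_mem_right _ _ h2)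
  refine IsUnit.of_mul_eq_one (AdicCompletion.mk I A (AdicCauchySequence.mk I A g (by
    intro m
    rw [SModEq.sub_mem, smul_eq_mul, mul_top]
    exact hgc m))) ?_
  refine ext_evalₐ fun n => ?_
  rw [map_mul, evalₐ_mk, evalₐ_mk, map_one, ← map_mul, ← map_one (Ideal.Quotient.mk (I ^ n)),
    Ideal.Quotient.eq]
  exact hfg n

/-- The multiplicative set generated by the generators of the ideal. -/
lemma exists_mul_eq_pow (hI : I = span {w}) (s : AdicCompletion I A)
    (hs : s ∈ Submonoid.closure (AdicCompletion.of I A '' {a | I = span {a}})) :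
    ∃ (m : ℕ) (u : AdicCompletion I A), s * u = algebraMap A (AdicCompletion I A) w ^ m := by
  induction hs using Submonoid.closure_induction with
  | mem x hx =>
    obtain ⟨a, ha, rfl⟩ := hx
    have h1 : w ∈ span {a} := by
      rw [← show I = span {a} from ha, hI]
      exact mem_span_singleton_self w
    obtain ⟨b, hb⟩ := mem_span_singleton.mp h1
    refine ⟨1, algebraMap A _ b, ?_⟩
    rw [pow_one, hb, map_mul]
    rfl
  | one => exact ⟨0, 1, by simp⟩
  | mul x y _ _ hx hy =>
    obtain ⟨m, u, hu⟩ := hx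
    obtain ⟨n, v, hv⟩ := hy
    refine ⟨m + n, u * v, ?_⟩
    rw [pow_add, ← hu, ← hv]
    ring

lemma closure_le (hI : I = span {w}) (hw : ∀ a, w * a = 0 → a = 0) :
    Submonoid.closure (AdicCompletion.of I A '' {a | I = span {a}}) ≤
      nonZeroDivisors (AdicCompletion I A) := by
  intro s hs
  obtain ⟨m, u, hu⟩ := exists_mul_eq_pow hI s hs
  have key : ∀ x, s * x = 0 → x = 0 := by
    intro x hx
    have h1 : algebraMap A (AdicCompletion I A) w ^ m * x =
        algebraMap A (AdicCompletion I A) w ^ m * 0 := by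
      rw [← hu, mul_zero, mul_right_comm, hx, zero_mul]
    exact w_pow_inj hI hw m h1
  exact ⟨key, fun x hx => key x (by rwa [mul_comm])⟩

end Pool.Agent.W2helper47.FM.Comp
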