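import Pool.Agent.W2helper47.FM.Rho

/-!
# The character satisfies condition (2)
-/

set_option autoImplicit false
set_option linter.unusedSectionVars false

namespace Pool.Agent.W2helper47.FM

open NumberField IsDedekindDomain
open scoped Matrix

variable {l : ℕ} [hl : Fact l.Prime] {F : Type*} [Field F] [NumberField F]
variable {P : Ideal (𝓞 (AlgebraicClosure F))} [hP : P.IsMaximal]

lemma isFrobPow_pow {Φ : Gal(AlgebraicClosure F/F)} (h : IsFrobPow P Φ 1) (k : ℕ) :
    IsFrobPow P (Φ ^ k) (k : ℤ) := by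
  induction k with
  | zero => simpa using isFrobPow_one (P := P)
  | succ k ih =>
    rw [pow_succ]
    push_cast
    exact isFrobPow_mul ih h

lemma isFrobPow_zpow {Φ : Gal(AlgebraicClosure F/F)} (h : IsFrobPow P Φ 1) (m : ℤ) :
    IsFrobPow P (Φ ^ m) m := by
  obtain ⟨k, rfl | rfl⟩ := m.eq_nat_or_neg
  · rw [zpow_natCast]; exact isFrobPow_pow h k
  · rw [zpow_neg, zpow_natCast]
    exact isFrobPow_inv (isFrobPow_pow h k)

/-- The Weil-Deligne representation attached to the character. -/
noncomputable def wdRho (hlP : (l : 𝓞 (AlgebraicClosure F)) ∉ P) :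
    WeilDeligneRep (PadicAlgCl l) (Space l 1) (IsFrobPow P) (resCard P) where
  r := linRep (rho l F)
  N := 0
  r_one := by
    refine LinearMap.ext fun x => ?_
    rw [linRep_rho, map_one, Units.val_one, one_smul]
    rfl
  r_mul σ τ _ _ _ _ := by
    refine LinearMap.ext fun x => ?_
    rw [Module.End.mul_apply, linRep_rho, linRep_rho, linRep_rho, map_mul, Units.val_mul, mul_smul]
  smooth := ⟨⊤, isOpen_univ, fun σ _ hσ => by
    refine LinearMap.ext fun x => ?_
    rw [linRep_rho, rho0_inertia hlP hσ, Units.val_one, one_smul]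
    rfl⟩
  nilpotent := IsNilpotent.zero
  rel := fun σ m _ => by rw [mul_zero, zero_mul, smul_zero]

lemma expNil_zero (c : PadicAlgCl l) :
    expNil (0 : Module.End (PadicAlgCl l) (Space l 1)) c = 1 := by
  unfold expNil
  have h : nilpotencyClass (0 : Module.End (PadicAlgCl l) (Space l 1)) = 1 :=
    nilpotencyClass_zero
  rw [h, Finset.sum_range_one]
  simp

lemma wdRho_attached (hlP : (l : 𝓞 (AlgebraicClosure F)) ∉ P) :
    (wdRho hlP).IsAttached ℚ_[l] (linRep (rho l F)) := by
  obtain ⟨Φ, hΦ⟩ := exists_isFrobPow_one (P := P)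
  refine ⟨fun _ => 0, Φ, hΦ, fun _ _ _ _ => (add_zero 0).symm, continuousOn_const,
    fun h => absurd rfl h, fun m u _ => ?_⟩
  change _ = _ * expNil (0 : Module.End (PadicAlgCl l) (Space l 1)) _
  rw [expNil_zero, mul_one]
  rfl

lemma N_eq_zero (W : WeilDeligneRep (PadicAlgCl l) (Space l 1) (IsFrobPow P) (resCard P)) :
    W.N = 0 := by
  obtain ⟨k, hk⟩ := W.nilpotent
  let e : Space l 1 := fun _ => 1
  have he : ∀ x : Space l 1, x = x 0 • e := by
    intro x
    ext i
    rw [Subsingleton.elim i 0, Pi.smul_apply, smul_eq_mul, mul_one]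
  have h1 : ∀ x, W.N x = (W.N e 0) • x := by
    intro x
    rw [he x, map_smul, he (W.N e), smul_smul, smul_smul, mul_comm]
    congr 1
    simp [e]
  have h2 : ∀ (j : ℕ) (x : Space l 1), (W.N ^ j) x = (W.N e 0) ^ j • x := by
    intro j
    induction j with
    | zero => intro x; simp
    | succ j ih =>
      intro x
      rw [pow_succ, Module.End.mul_apply, h1, map_smul, ih, smul_smul, pow_succ, mul_comm]
  have h3 : (W.N e 0) ^ k = 0 := by
    have h4 := h2 k e
    rw [hk] at h4
    have h5 := congrFun h4 0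
    simpa [e] using h5.symm
  have h4 : W.N e 0 = 0 := by
    by_contra hne
    exact pow_ne_zero k hne h3
  refine LinearMap.ext fun x => ?_
  rw [h1, h4, zero_smul]
  rfl

lemma r_eq {W : WeilDeligneRep (PadicAlgCl l) (Space l 1) (IsFrobPow P) (resCard P)}
    (h : W.IsAttached ℚ_[l] (linRep (rho l F))) {σ : Gal(AlgebraicClosure F/F)} {m : ℤ}
    (hm : IsFrobPow P σ m) : W.r σ = linRep (rho l F) σ := by
  obtain ⟨t, Φ, hΦ, -, -, -, h1⟩ := h
  have hu : IsFrobPow P (Φ ^ (-m) * σ) 0 := by
    have h2 := isFrobPow_mul (isFrobPow_zpow hΦ (-m)) hm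
    rwa [neg_add_cancel] at h2
  have h3 := h1 m _ hu
  rw [← mul_assoc, ← zpow_add, add_neg_cancel, zpow_zero, one_mul, N_eq_zero, expNil_zero,
    mul_one] at h3
  exact h3.symm

lemma r_apply {W : WeilDeligneRep (PadicAlgCl l) (Space l 1) (IsFrobPow P) (resCard P)}
    (h : W.IsAttached ℚ_[l] (linRep (rho l F))) {σ : Gal(AlgebraicClosure F/F)} {m : ℤ}
    (hm : IsFrobPow P σ m) (x : Space l 1) : W.r σ x = (rho0 l F σ : PadicAlgCl l) • x := by
  rw [r_eq h hm, linRep_rho]

lemma eigen (a b : PadicAlgCl l) {x : Space l 1} (hx : x ≠ 0) (h : a • x = b • x) : a = b := by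
  rw [← sub_eq_zero, ← sub_smul, smul_eq_zero] at h
  exact sub_eq_zero.mp (h.resolve_right hx)

lemma integral_of_attached (hlP : (l : 𝓞 (AlgebraicClosure F)) ∉ P)
    {W : WeilDeligneRep (PadicAlgCl l) (Space l 1) (IsFrobPow P) (resCard P)}
    (h : W.IsAttached ℚ_[l] (linRep (rho l F))) : W.IsIntegral := by
  rintro Φ hΦ α ⟨x, hx, hx1⟩
  rw [r_apply h hΦ] at hx1
  rw [← eigen _ _ hx hx1]
  exact isIntegral_of_pow_eq (mul_pos two_pos index_pos) (rho0_frob hlP hΦ)

lemma isMonodromyFiltration_zero :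
    IsMonodromyFiltration (0 : Module.End (PadicAlgCl l) (Space l 1))
      (fun j : ℤ => if j < 0 then (⊥ : Submodule (PadicAlgCl l) (Space l 1)) else ⊤) where
  mono := by
    intro i j hij
    by_cases hj : j < 0
    · have hi : i < 0 := by omega
      simp [hi, hj]
    · simp [hj]
  bot := ⟨-1, by simp⟩
  top := ⟨0, by simp⟩
  map := fun j x _ => by
    rw [LinearMap.zero_apply]
    exact Submodule.zero_mem _
  inj := by
    intro k x _ hx
    rcases Nat.eq_zero_or_pos k with rfl | hk
    · rw [pow_zero, Module.End.one_apply] at hx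
      simpa using hx
    · have : ¬ ((k : ℤ) - 1 < 0) := by omega
      simp only [this, if_false]
      exact Submodule.mem_top
  surj := by
    intro k y hy
    rcases Nat.eq_zero_or_pos k with rfl | hk
    · refine ⟨y, by simp, ?_⟩
      rw [pow_zero, Module.End.one_apply, sub_self]
      exact Submodule.zero_mem _
    · have h1 : (-(k : ℤ)) < 0 := by omega
      simp only [h1, if_true, Submodule.mem_bot] at hy
      refine ⟨0, Submodule.zero_mem _, ?_⟩
      rw [hy, map_zero, sub_self]
      exact Submodule.zero_mem _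

lemma pure_of_attached (hlP : (l : 𝓞 (AlgebraicClosure F)) ∉ P)
    {W : WeilDeligneRep (PadicAlgCl l) (Space l 1) (IsFrobPow P) (resCard P)}
    (h : W.IsAttached ℚ_[l] (linRep (rho l F))) : W.IsPure 1 := by
  refine ⟨fun j : ℤ => if j < 0 then ⊥ else ⊤, ?_, ?_⟩
  · rw [N_eq_zero]
    exact isMonodromyFiltration_zero
  · rintro Φ hΦ j α ⟨x, hx, hx1, hx2⟩
    have hj : j = 0 := by
      rcases lt_trichotomy j 0 with h1 | h1 | h1
      · exfalso
        simp only [h1, if_true, Submodule.mem_bot] at hx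
        rw [hx] at hx1
        exact hx1 (Submodule.zero_mem _)
      · exact h1
      · exfalso
        have h2 : ¬ (j - 1 < 0) := by omega
        simp only [h2, if_false] at hx1
        exact hx1 Submodule.mem_top
    subst hj
    have h3 : (0 : ℤ) - 1 < 0 := by norm_num
    simp only [h3, if_true, Submodule.mem_bot] at hx1 hx2
    rw [r_apply h hΦ, sub_eq_zero] at hx2
    rw [← eigen _ _ hx1 hx2, add_zero]
    exact isWeilNumber_of_pow_eq index_pos (rho0_frob hlP hΦ)

theorem condition2_rho : Condition2 (rho l F) :=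
  ⟨1, fun _ _ hlP => ⟨⟨wdRho hlP, wdRho_attached hlP⟩, fun _ hW =>
    ⟨integral_of_attached hlP hW, pure_of_attached hlP hW⟩⟩⟩

end Pool.Agent.W2helper47.FM
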