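import Pool.Agent.W2helper47.FM.Ax

/-!
# The cyclotomic tower over `ℚ_p`

Norms of `ζ - 1` for the roots of unity of `p`-power order, coordinates with respect to the powers
of `ζ - 1`, and the boundedness of the normalized traces.
-/

set_option autoImplicit false

namespace Pool.Agent.W2helper47.FM

open Polynomial

variable {p : ℕ} [hp : Fact p.Prime]

lemma norm_of_root {ζ : PadicAlgCl p} {N : ℕ} (hN : N ≠ 0) (h : ζ ^ N = 1) : ‖ζ‖ = 1 := by
  have h1 : ‖ζ‖ ^ N = 1 := by rw [← norm_pow, h, norm_one]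
  exact (pow_eq_one_iff_of_nonneg (norm_nonneg _) hN).mp h1

lemma norm_natCast_le (n : ℕ) : ‖(n : PadicAlgCl p)‖ ≤ 1 := by
  rw [← map_natCast (algebraMap ℚ_[p] (PadicAlgCl p)), norm_algebraMap']
  exact_mod_cast Padic.norm_int_le_one (p := p) (n : ℤ)

lemma norm_p : ‖(p : PadicAlgCl p)‖ = (p : ℝ)⁻¹ := by
  rw [← map_natCast (algebraMap ℚ_[p] (PadicAlgCl p)), norm_algebraMap']
  exact Padic.norm_p

lemma norm_one_sub_pow_le {ζ : PadicAlgCl p} (hζ : ‖ζ‖ = 1) (k : ℕ) :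
    ‖1 - ζ ^ k‖ ≤ ‖1 - ζ‖ := by
  have h : 1 - ζ ^ k = (1 - ζ) * ∑ i ∈ Finset.range k, ζ ^ i := (mul_neg_geom_sum ζ k).symm
  rw [h, norm_mul]
  have h2 : ‖∑ i ∈ Finset.range k, ζ ^ i‖ ≤ 1 := by
    refine IsUltrametricDist.norm_sum_le_of_forall_le_of_nonneg zero_le_one fun i _ => ?_
    rw [norm_pow, hζ, one_pow]
  exact mul_le_of_le_one_right (norm_nonneg _) h2

/-- The norm of `ζ - 1` for a primitive root of unity of `p`-power order. -/
lemma norm_sub_one_pow {n : ℕ} {ζ : PadicAlgCl p} (h : IsPrimitiveRoot ζ (p ^ (n + 1))) :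
    ‖ζ - 1‖ ^ (Nat.totient (p ^ (n + 1))) = (p : ℝ)⁻¹ := by
  have hN : p ^ (n + 1) ≠ 0 := pow_ne_zero _ hp.out.ne_zero
  have hn1 : ∀ {ξ : PadicAlgCl p}, IsPrimitiveRoot ξ (p ^ (n + 1)) → ‖ξ‖ = 1 :=
    fun hξ => norm_of_root hN hξ.pow_eq_one
  have h1 := cyclotomic_eq_prod_X_sub_primitiveRoots h
  have h2 := congrArg (eval (1 : PadicAlgCl p)) h1
  rw [eval_one_cyclotomic_prime_pow, eval_prod] at h2
  have h3 := congrArg norm h2
  rw [norm_p, norm_prod] at h3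
  rw [h3]
  have h4 : ∀ μ ∈ primitiveRoots (p ^ (n + 1)) (PadicAlgCl p),
      ‖eval 1 (X - C μ)‖ = ‖ζ - 1‖ := by
    intro μ hμ
    rw [mem_primitiveRoots (Nat.pos_of_ne_zero hN)] at hμ
    rw [eval_sub, eval_X, eval_C, norm_sub_rev ζ 1]
    obtain ⟨i, -, hi⟩ := h.eq_pow_of_pow_eq_one hμ.pow_eq_one
    obtain ⟨j, -, hj⟩ := hμ.eq_pow_of_pow_eq_one h.pow_eq_one
    apply le_antisymm
    · rw [← hi]; exact norm_one_sub_pow_le (hn1 h) i
    · nth_rw 1 [← hj]; exact norm_one_sub_pow_le (hn1 hμ) j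
  rw [Finset.prod_congr rfl h4, Finset.prod_const, h.card_primitiveRoots]

lemma norm_sub_one_pos {n : ℕ} {ζ : PadicAlgCl p} (h : IsPrimitiveRoot ζ (p ^ (n + 1))) :
    0 < ‖ζ - 1‖ := by
  rw [norm_pos_iff]
  intro h0
  have h1 := norm_sub_one_pow h
  have h2 : Nat.totient (p ^ (n + 1)) ≠ 0 :=
    (Nat.totient_pos.mpr (pow_pos hp.out.pos _)).ne'
  rw [h0, norm_zero, zero_pow h2] at h1
  have : (0 : ℝ) < (p : ℝ)⁻¹ := inv_pos.mpr (by exact_mod_cast hp.out.pos)
  linarith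

/-- Coordinates with respect to the powers of an element with norm `p ^ (-1/φ)`. -/
lemma coeff_bound {π : PadicAlgCl p} {φ : ℕ} (hφ : 0 < φ) (hπ : ‖π‖ ^ φ = (p : ℝ)⁻¹)
    (b : ℕ → ℚ_[p]) {i : ℕ} (hi : i < φ) :
    ‖b i‖ * ‖π‖ ^ i ≤ ‖∑ j ∈ Finset.range φ, b j • π ^ j‖ := by
  have hp0 : (0 : ℝ) < p := by exact_mod_cast hp.out.pos
  have hp1 : (1 : ℝ) < p := by exact_mod_cast hp.out.one_lt
  have hπ0 : ‖π‖ ≠ 0 := by
    intro h0
    rw [h0, zero_pow hφ.ne'] at hπ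
    have : (0 : ℝ) < (p : ℝ)⁻¹ := inv_pos.mpr hp0
    linarith
  set t : ℕ → PadicAlgCl p := fun j => b j • π ^ j with ht
  have htn : ∀ j, ‖t j‖ = ‖b j‖ * ‖π‖ ^ j := fun j => by rw [ht]; simp [norm_smul]
  -- distinct terms have distinct norms
  have hdist : ∀ j < φ, ∀ k < φ, ‖t j‖ ≠ 0 → ‖t j‖ = ‖t k‖ → j = k := by
    intro j hj k hk h0 h
    rw [htn, htn] at h
    rw [htn] at h0
    have hbj : b j ≠ 0 := by rintro h1; rw [h1, norm_zero, zero_mul] at h0; exact h0 rfl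
    have hbk : b k ≠ 0 := by
      rintro h1; rw [h1, norm_zero, zero_mul] at h; rw [h] at h0; exact h0 rfl
    have e : ∀ m, b m ≠ 0 → (‖b m‖ * ‖π‖ ^ m) ^ φ =
        (p : ℝ) ^ (-((φ : ℤ) * (b m).valuation + m)) := by
      intro m hm
      rw [mul_pow, ← pow_mul, mul_comm m φ, pow_mul, hπ, Padic.norm_eq_zpow_neg_valuation hm,
        ← zpow_natCast, ← zpow_mul, inv_pow, ← zpow_natCast, ← zpow_neg, ← zpow_add₀ hp0.ne']
      congr 1
      ring
    have h1 := congrArg (· ^ φ) h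
    simp only [e j hbj, e k hbk] at h1
    have h2 := zpow_right_injective₀ hp0 hp1.ne' h1
    have h3 : (φ : ℤ) * (b j).valuation + j = (φ : ℤ) * (b k).valuation + k := by linarith
    have h4 : (j : ℤ) % φ = (k : ℤ) % φ := by
      have h5 := congrArg (· % (φ : ℤ)) h3
      simp only [Int.mul_add_emod_self_left] at h5
      exact h5
    rw [Int.emod_eq_of_lt (by positivity) (by exact_mod_cast hj),
      Int.emod_eq_of_lt (by positivity) (by exact_mod_cast hk)] at h4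
    exact_mod_cast h4
  -- the maximal term
  obtain ⟨j0, hj0, hmax⟩ := Finset.exists_max_image (Finset.range φ) (fun j => ‖t j‖)
    ⟨0, Finset.mem_range.mpr hφ⟩
  rw [Finset.mem_range] at hj0
  have hle : ‖t i‖ ≤ ‖t j0‖ := hmax i (Finset.mem_range.mpr hi)
  rw [← htn i]
  refine hle.trans ?_
  by_cases hz : ‖t j0‖ = 0
  · rw [hz]; exact norm_nonneg _
  have hsum : ∑ j ∈ Finset.range φ, t j = t j0 + ∑ j ∈ (Finset.range φ).erase j0, t j :=
    (Finset.add_sum_erase _ _ (Finset.mem_range.mpr hj0)).symm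
  have hrest : ‖∑ j ∈ (Finset.range φ).erase j0, t j‖ < ‖t j0‖ := by
    rcases ((Finset.range φ).erase j0).eq_empty_or_nonempty with he | hne
    · rw [he, Finset.sum_empty, norm_zero]
      exact lt_of_le_of_ne (norm_nonneg _) (Ne.symm hz)
    · obtain ⟨k, hk, hk'⟩ := IsUltrametricDist.exists_norm_finsetSum_le_of_nonempty hne t
      refine lt_of_le_of_lt hk' ?_
      have hk2 := Finset.mem_of_mem_erase hk
      refine lt_of_le_of_ne (hmax k hk2) ?_
      intro h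
      exact (Finset.ne_of_mem_erase hk) (hdist j0 hj0 k (Finset.mem_range.mp hk2) hz h.symm).symm
  by_contra hcon
  push Not at hcon
  have e : t j0 = (∑ j ∈ Finset.range φ, t j) - ∑ j ∈ (Finset.range φ).erase j0, t j := by
    rw [hsum]; ring
  have h1 : ‖t j0‖ < ‖t j0‖ := by
    calc ‖t j0‖ ≤ max ‖∑ j ∈ Finset.range φ, t j‖ ‖∑ j ∈ (Finset.range φ).erase j0, t j‖ := by
          nth_rw 1 [e]; exact norm_sub_max _ _
      _ < ‖t j0‖ := max_lt hcon hrest
  exact lt_irrefl _ h1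

/-- The minimal polynomial of a primitive root of unity of `p`-power order over `ℚ_p`. -/
lemma minpoly_zeta {n : ℕ} {ζ : PadicAlgCl p} (h : IsPrimitiveRoot ζ (p ^ (n + 1))) :
    minpoly ℚ_[p] ζ = cyclotomic (p ^ (n + 1)) ℚ_[p] := by
  have hint : IsIntegral ℚ_[p] ζ := Algebra.IsIntegral.isIntegral ζ
  have hroot : aeval ζ (cyclotomic (p ^ (n + 1)) ℚ_[p]) = 0 := by
    have h1 : NeZero ((p ^ (n + 1) : ℕ) : PadicAlgCl p) :=
      ⟨by exact_mod_cast pow_ne_zero _ hp.out.ne_zero⟩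
    rw [aeval_def, ← eval_map, map_cyclotomic]
    exact (isRoot_cyclotomic_iff.mpr h)
  have hdvd := minpoly.dvd ℚ_[p] ζ hroot
  have hφ : 0 < Nat.totient (p ^ (n + 1)) := Nat.totient_pos.mpr (pow_pos hp.out.pos _)
  have hdeg : Nat.totient (p ^ (n + 1)) ≤ (minpoly ℚ_[p] ζ).natDegree := by
    by_contra hcon
    push Not at hcon
    -- the minimal polynomial of `ζ - 1`
    set Q := (minpoly ℚ_[p] ζ).comp (X + C 1) with hQ
    have hQdeg : Q.natDegree = (minpoly ℚ_[p] ζ).natDegree := by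
      rw [hQ, natDegree_comp, natDegree_X_add_C, mul_one]
    have hQm : Q.Monic := (minpoly.monic hint).comp_X_add_C 1
    have hQ0 : aeval (ζ - 1) Q = 0 := by
      rw [hQ, aeval_comp]
      simp [minpoly.aeval]
    have h2 : aeval (ζ - 1) Q = ∑ j ∈ Finset.range (Nat.totient (p ^ (n + 1))),
        Q.coeff j • (ζ - 1) ^ j := by
      rw [aeval_eq_sum_range' (by rw [hQdeg]; exact hcon)]
    have h3 := coeff_bound hφ (norm_sub_one_pow h) Q.coeff (i := Q.natDegree)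
      (by rw [hQdeg]; exact hcon)
    rw [← h2, hQ0, norm_zero] at h3
    have h4 : Q.coeff Q.natDegree = 1 := hQm
    rw [h4, norm_one, one_mul] at h3
    have h5 : 0 < ‖ζ - 1‖ ^ Q.natDegree := pow_pos (norm_sub_one_pos h) _
    linarith
  have hfin := eq_of_monic_of_dvd_of_natDegree_le (minpoly.monic hint)
    (cyclotomic.monic (p ^ (n + 1)) ℚ_[p]) hdvd (by rw [natDegree_cyclotomic]; exact hdeg)
  exact hfin.symm

/-- The Galois group acts transitively on the primitive roots of unity of order `p ^ n`. -/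
lemma exists_sigma {n : ℕ} {ζ : PadicAlgCl p} (h : IsPrimitiveRoot ζ (p ^ n)) (a : ℕ)
    (ha : a.Coprime p) : ∃ σ : Gal(PadicAlgCl p/ℚ_[p]), σ ζ = ζ ^ a := by
  cases n with
  | zero =>
    rw [pow_zero, IsPrimitiveRoot.one_right_iff] at h
    exact ⟨1, by subst h; simp⟩
  | succ n =>
    have h1 : IsPrimitiveRoot (ζ ^ a) (p ^ (n + 1)) := h.pow_of_coprime a (ha.pow_right _)
    have h2 : IsConjRoot ℚ_[p] (ζ ^ a) ζ := by
      rw [isConjRoot_def, minpoly_zeta h, minpoly_zeta h1]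
    obtain ⟨σ, hσ⟩ := h2.exists_algEquiv
    exact ⟨σ, hσ⟩

/-- Elements of `ℚ_p(ζ)` as combinations of powers of `ζ - 1`, with bounded coefficients. -/
lemma exists_coeff {n : ℕ} {ζ : PadicAlgCl p} (h : IsPrimitiveRoot ζ (p ^ (n + 1)))
    {y : PadicAlgCl p} (hy : y ∈ IntermediateField.adjoin ℚ_[p] {ζ}) :
    ∃ b : ℕ → ℚ_[p], y = ∑ j ∈ Finset.range (Nat.totient (p ^ (n + 1))), b j • (ζ - 1) ^ j ∧
      ∀ j < Nat.totient (p ^ (n + 1)), ‖b j‖ ≤ p * ‖y‖ := by
  have hp0 : (0 : ℝ) < p := by exact_mod_cast hp.out.pos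
  have hφ : 0 < Nat.totient (p ^ (n + 1)) := Nat.totient_pos.mpr (pow_pos hp.out.pos _)
  have hint : IsIntegral ℚ_[p] ζ := Algebra.IsIntegral.isIntegral ζ
  have h1 : y ∈ Algebra.adjoin ℚ_[p] {ζ} := by
    rw [← IntermediateField.adjoin_simple_toSubalgebra_of_isAlgebraic hint.isAlgebraic]
    exact hy
  rw [Algebra.adjoin_singleton_eq_range_aeval] at h1
  obtain ⟨P, hP⟩ := h1
  -- shift by one and reduce modulo the minimal polynomial
  set M := (minpoly ℚ_[p] ζ).comp (X + C 1) with hM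
  have hMdeg : M.natDegree = Nat.totient (p ^ (n + 1)) := by
    rw [hM, natDegree_comp, natDegree_X_add_C, mul_one, minpoly_zeta h, natDegree_cyclotomic]
  have hMm : M.Monic := (minpoly.monic hint).comp_X_add_C 1
  have hM0 : aeval (ζ - 1) M = 0 := by
    rw [hM, aeval_comp]
    simp [minpoly.aeval]
  set R := (P.comp (X + C 1)) %ₘ M with hR
  have hRy : aeval (ζ - 1) R = y := by
    have h2 := modByMonic_add_div (P.comp (X + C 1)) M
    have h3 := congrArg (aeval (ζ - 1)) h2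
    rw [map_add, map_mul, hM0, zero_mul, add_zero, aeval_comp] at h3
    rw [hR, h3]
    simpa using hP
  have hRdeg : R.natDegree < Nat.totient (p ^ (n + 1)) := by
    rw [← hMdeg]
    refine natDegree_modByMonic_lt _ hMm ?_
    intro h1
    rw [h1, natDegree_one] at hMdeg
    omega
  refine ⟨R.coeff, ?_, fun j hj => ?_⟩
  · rw [← hRy, aeval_eq_sum_range' hRdeg]
  · have h3 := coeff_bound hφ (norm_sub_one_pow h) R.coeff hj
    rw [← aeval_eq_sum_range' hRdeg, hRy] at h3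
    have h4 : (p : ℝ)⁻¹ ≤ ‖ζ - 1‖ ^ j := by
      rw [← norm_sub_one_pow h]
      refine pow_le_pow_of_le_one (norm_nonneg _) ?_ hj.le
      have := norm_sub_max ζ 1
      rw [norm_one, norm_of_root (pow_ne_zero _ hp.out.ne_zero) h.pow_eq_one, max_self] at this
      exact this
    have h5 : ‖R.coeff j‖ * (p : ℝ)⁻¹ ≤ ‖y‖ :=
      (mul_le_mul_of_nonneg_left h4 (norm_nonneg _)).trans h3
    calc ‖R.coeff j‖ = p * (‖R.coeff j‖ * (p : ℝ)⁻¹) := by field_simp
      _ ≤ p * ‖y‖ := by gcongr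

end Pool.Agent.W2helper47.FM
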