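import Mathlib

/-!
# A square root of the identity character of `ℤ_lˣ`, up to torsion
-/

set_option autoImplicit false

namespace Pool.Agent.W2helper47.FM

variable {l : ℕ} [hl : Fact l.Prime]

lemma two_ne_zeroZ : (2 : ℤ_[l]) ≠ 0 := two_ne_zero

lemma norm_two_pos : 0 < ‖(2 : ℤ_[l])‖ := norm_pos_iff.mpr two_ne_zero

lemma norm_four : ‖(4 : ℤ_[l])‖ = ‖(2 : ℤ_[l])‖ ^ 2 := by
  rw [← norm_pow]; norm_num

/-- A square root near one. -/
lemma exists_sqrt {u : ℤ_[l]} (hu : ‖u - 1‖ < ‖(4 : ℤ_[l])‖) :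
    ∃ r : ℤ_[l], r ^ 2 = u ∧ ‖r - 1‖ < ‖(2 : ℤ_[l])‖ := by
  have h1 : ‖(Polynomial.X ^ 2 - Polynomial.C u : Polynomial ℤ_[l]).aeval (1 : ℤ_[l])‖ <
      ‖(Polynomial.X ^ 2 - Polynomial.C u : Polynomial ℤ_[l]).derivative.aeval (1 : ℤ_[l])‖ ^ 2 := by
    simp only [map_sub, map_pow, Polynomial.aeval_X, one_pow, Polynomial.aeval_C,
      Algebra.algebraMap_self, RingHom.id_apply,
      Polynomial.derivative_X_pow, Polynomial.derivative_C, sub_zero, map_mul]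
    rw [norm_sub_rev]
    simpa [norm_four] using hu
  obtain ⟨z, hz, hz1, -, -⟩ := hensels_lemma h1
  refine ⟨z, ?_, ?_⟩
  · simpa [sub_eq_zero] using hz
  · simpa [one_add_one_eq_two] using hz1

lemma sqrt_unique {r r' : ℤ_[l]} (h : r ^ 2 = r' ^ 2) (hr : ‖r - 1‖ < ‖(2 : ℤ_[l])‖)
    (hr' : ‖r' - 1‖ < ‖(2 : ℤ_[l])‖) : r = r' := by
  rcases sq_eq_sq_iff_eq_or_eq_neg.mp h with h1 | h1
  · exact h1
  · exfalso
    have h2 : (2 : ℤ_[l]) = -((r - 1) + (r' - 1)) := by rw [h1]; ring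
    have h3 : ‖(2 : ℤ_[l])‖ ≤ max ‖r - 1‖ ‖r' - 1‖ := by
      conv_lhs => rw [h2, norm_neg]
      exact PadicInt.nonarchimedean _ _
    exact absurd h3 (not_le.mpr (max_lt hr hr'))

lemma norm_mul_sub_one_lt {u v : ℤ_[l]} {c : ℝ} (hu : ‖u - 1‖ < c) (hv : ‖v - 1‖ < c) :
    ‖u * v - 1‖ < c := by
  have h1 : u * v - 1 = u * (v - 1) + (u - 1) := by ring
  rw [h1]
  refine (PadicInt.nonarchimedean _ _).trans_lt (max_lt ?_ hu)
  rw [norm_mul]
  exact (mul_le_of_le_one_left (norm_nonneg _) (PadicInt.norm_le_one u)).trans_lt hv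

/-- The units which are near to one. -/
def nearOne (l : ℕ) [Fact l.Prime] : Subgroup ℤ_[l]ˣ where
  carrier := {u | ‖(u : ℤ_[l]) - 1‖ < ‖(4 : ℤ_[l])‖}
  one_mem' := by
    change ‖((1 : ℤ_[l]ˣ) : ℤ_[l]) - 1‖ < _
    rw [Units.val_one, sub_self, norm_zero, norm_four]
    exact pow_pos norm_two_pos 2
  mul_mem' := fun {u v} hu hv => by
    change ‖((u * v : ℤ_[l]ˣ) : ℤ_[l]) - 1‖ < _
    rw [Units.val_mul]
    exact norm_mul_sub_one_lt hu hv
  inv_mem' := fun {u} hu => by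
    change ‖((u⁻¹ : ℤ_[l]ˣ) : ℤ_[l]) - 1‖ < _
    have h1 : ((u⁻¹ : ℤ_[l]ˣ) : ℤ_[l]) - 1 = -(((u⁻¹ : ℤ_[l]ˣ) : ℤ_[l]) * ((u : ℤ_[l]) - 1)) := by
      rw [mul_sub, Units.inv_mul]; ring
    rw [h1, norm_neg, norm_mul, PadicInt.norm_units, one_mul]
    exact hu

lemma mem_nearOne (u : ℤ_[l]ˣ) : u ∈ nearOne l ↔ ‖(u : ℤ_[l]) - 1‖ < ‖(4 : ℤ_[l])‖ := Iff.rfl

lemma exists_sqrt_unit (u : nearOne l) : ∃ r : ℤ_[l]ˣ, r ^ 2 = (u : ℤ_[l]ˣ) ∧
    ‖(r : ℤ_[l]) - 1‖ < ‖(2 : ℤ_[l])‖ := by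
  obtain ⟨r, hr, hr1⟩ := exists_sqrt u.2
  have h1 : IsUnit r := by
    have h2 : IsUnit (r ^ 2) := by rw [hr]; exact Units.isUnit _
    exact (isUnit_pow_iff two_ne_zero).mp h2
  obtain ⟨r', rfl⟩ := h1
  exact ⟨r', Units.ext (by rw [Units.val_pow_eq_pow_val, hr]), hr1⟩

/-- The square root near one. -/
noncomputable def sq (l : ℕ) [Fact l.Prime] : nearOne l →* ℤ_[l]ˣ where
  toFun u := (exists_sqrt_unit u).choose
  map_one' := by
    have h := (exists_sqrt_unit (1 : nearOne l)).choose_spec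
    refine Units.ext (sqrt_unique ?_ h.2 ?_)
    · rw [← Units.val_pow_eq_pow_val, h.1]; simp
    · rw [Units.val_one, sub_self, norm_zero]; exact norm_two_pos
  map_mul' u v := by
    have h := (exists_sqrt_unit (u * v)).choose_spec
    have hu := (exists_sqrt_unit u).choose_spec
    have hv := (exists_sqrt_unit v).choose_spec
    refine Units.ext (sqrt_unique ?_ h.2 ?_)
    · rw [← Units.val_pow_eq_pow_val, h.1, ← Units.val_pow_eq_pow_val, mul_pow, hu.1, hv.1]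
      rfl
    · rw [Units.val_mul]
      exact norm_mul_sub_one_lt hu.2 hv.2

lemma sq_sq (u : nearOne l) : sq l u ^ 2 = (u : ℤ_[l]ˣ) := (exists_sqrt_unit u).choose_spec.1

lemma norm_sq_sub_one_lt (u : nearOne l) : ‖(sq l u : ℤ_[l]) - 1‖ < ‖(2 : ℤ_[l])‖ :=
  (exists_sqrt_unit u).choose_spec.2

lemma norm_sq_sub_one (u : nearOne l) :
    ‖(sq l u : ℤ_[l]) - 1‖ * ‖(2 : ℤ_[l])‖ = ‖((u : ℤ_[l]ˣ) : ℤ_[l]) - 1‖ := by
  have h1 : ‖(sq l u : ℤ_[l]) + 1‖ = ‖(2 : ℤ_[l])‖ := by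
    have h2 : (sq l u : ℤ_[l]) + 1 = (sq l u - 1) + 2 := by ring
    rw [h2]
    exact PadicInt.norm_add_eq_max_of_ne (norm_sq_sub_one_lt u).ne |>.trans
      (max_eq_right (norm_sq_sub_one_lt u).le)
  have h3 : ((u : ℤ_[l]ˣ) : ℤ_[l]) - 1 = ((sq l u : ℤ_[l]) - 1) * ((sq l u : ℤ_[l]) + 1) := by
    rw [← sq_sq u, Units.val_pow_eq_pow_val]; ring
  rw [h3, norm_mul, h1]

lemma isOpen_nearOne : IsOpen (nearOne l : Set ℤ_[l]ˣ) :=
  isOpen_lt ((Units.continuous_val.sub continuous_const).norm) continuous_const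

instance finiteIndex_nearOne : (nearOne l).FiniteIndex := by
  have h1 : Finite (ℤ_[l]ˣ ⧸ nearOne l) := (nearOne l).quotient_finite_of_isOpen isOpen_nearOne
  exact Subgroup.finiteIndex_of_finite_quotient

/-- The map from `ℤ_lˣ` to the units of the algebraic closure of `ℚ_l`. -/
noncomputable def unitsIncl (l : ℕ) [Fact l.Prime] : ℤ_[l]ˣ →* (PadicAlgCl l)ˣ :=
  Units.map (((algebraMap ℚ_[l] (PadicAlgCl l)).comp
    (PadicInt.Coe.ringHom : ℤ_[l] →+* ℚ_[l])) : ℤ_[l] →* PadicAlgCl l)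

lemma coe_unitsIncl (u : ℤ_[l]ˣ) :
    (unitsIncl l u : PadicAlgCl l) = algebraMap ℚ_[l] (PadicAlgCl l) ((u : ℤ_[l]) : ℚ_[l]) := rfl

noncomputable instance rootable : DivisibleBy (Additive (PadicAlgCl l)ˣ) ℕ :=
  divisibleByOfSMulRightSurj _ _ fun {n} hn => by
    intro x
    obtain ⟨z, hz⟩ := IsAlgClosed.exists_pow_nat_eq ((Additive.toMul x : (PadicAlgCl l)ˣ) :
      PadicAlgCl l) (Nat.pos_of_ne_zero hn)
    have hz0 : z ≠ 0 := by
      rintro rfl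
      rw [zero_pow hn] at hz
      exact (Additive.toMul x).ne_zero hz.symm
    refine ⟨Additive.ofMul (Units.mk0 z hz0), ?_⟩
    change Additive.ofMul ((Units.mk0 z hz0) ^ n) = x
    rw [← ofMul_toMul x]
    congr 1
    ext
    simpa using hz

/-- There is a homomorphism `s` on all of `ℤ_lˣ` which extends the square root. -/
theorem exists_s (l : ℕ) [Fact l.Prime] : ∃ s : ℤ_[l]ˣ →* (PadicAlgCl l)ˣ,
    ∀ u : nearOne l, s u = unitsIncl l (sq l u) := by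
  have _ : DivisibleBy (Additive (PadicAlgCl l)ˣ) ℤ := AddGroup.divisibleByIntOfDivisibleByNat _
  obtain ⟨h, hh⟩ := Module.Baer.extension_property_addMonoidHom
    (Module.Baer.of_divisible (Additive (PadicAlgCl l)ˣ))
    (MonoidHom.toAdditive (nearOne l).subtype) (fun x y hxy => Subtype.ext hxy)
    (MonoidHom.toAdditive ((unitsIncl l).comp (sq l)))
  refine ⟨MonoidHom.toAdditive.symm h, fun u => ?_⟩
  exact DFunLike.congr_fun hh (Additive.ofMul u)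

/-- The extension of the square root to `ℤ_lˣ`. -/
noncomputable def rootHom (l : ℕ) [Fact l.Prime] : ℤ_[l]ˣ →* (PadicAlgCl l)ˣ := (exists_s l).choose

lemma rootHom_nearOne (u : nearOne l) : rootHom l u = unitsIncl l (sq l u) :=
  (exists_s l).choose_spec u

lemma norm_rootHom_sub_one (u : nearOne l) :
    ‖(rootHom l u : PadicAlgCl l) - 1‖ = ‖((u : ℤ_[l]ˣ) : ℤ_[l]) - 1‖ / ‖(2 : ℤ_[l])‖ := by
  rw [eq_div_iff norm_two_pos.ne', ← norm_sq_sub_one, rootHom_nearOne, coe_unitsIncl]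
  congr 1
  rw [← map_one (algebraMap ℚ_[l] (PadicAlgCl l)), ← map_sub, norm_algebraMap', PadicInt.norm_def,
    PadicInt.coe_sub, PadicInt.coe_one]

lemma continuous_rootHom : Continuous (rootHom l) := by
  refine continuous_of_continuousAt_one (rootHom l) ?_
  have hemb : Topology.IsEmbedding (Units.val : (PadicAlgCl l)ˣ → PadicAlgCl l) :=
    Units.isEmbedding_val₀
  rw [hemb.isInducing.continuousAt_iff]
  change Filter.Tendsto (fun u : ℤ_[l]ˣ => (rootHom l u : PadicAlgCl l)) (nhds 1)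
    (nhds ((rootHom l 1 : (PadicAlgCl l)ˣ) : PadicAlgCl l))
  rw [map_one, Units.val_one, tendsto_iff_norm_sub_tendsto_zero]
  have h1 : Filter.Tendsto (fun u : ℤ_[l]ˣ => ‖(u : ℤ_[l]) - 1‖ / ‖(2 : ℤ_[l])‖) (nhds 1)
      (nhds 0) := by
    have h2 : Continuous (fun u : ℤ_[l]ˣ => ‖(u : ℤ_[l]) - 1‖ / ‖(2 : ℤ_[l])‖) :=
      ((Units.continuous_val.sub continuous_const).norm).div_const _
    have h3 := h2.tendsto 1
    simpa using h3
  refine h1.congr' ?_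
  filter_upwards [isOpen_nearOne.mem_nhds (nearOne l).one_mem] with u hu
  exact (norm_rootHom_sub_one ⟨u, hu⟩).symm

lemma rootHom_pow (u : ℤ_[l]ˣ) :
    rootHom l u ^ (2 * (nearOne l).index) = unitsIncl l u ^ (nearOne l).index := by
  have h1 : u ^ (nearOne l).index ∈ nearOne l := (nearOne l).pow_index_mem u
  have h2 := rootHom_nearOne ⟨_, h1⟩
  have h3 := sq_sq ⟨_, h1⟩
  rw [mul_comm, pow_mul, ← map_pow, ← map_pow (unitsIncl l)]
  have h4 : rootHom l (u ^ (nearOne l).index) = unitsIncl l (sq l ⟨_, h1⟩) := h2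
  rw [h4, ← map_pow, h3]

end Pool.Agent.W2helper47.FM
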