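import Pool.Agent.W2helper47.FM.WD
import Pool.Agent.W2helper47.FM.Sqrt

/-!
# The cyclotomic character of a number field at the places not above `l`
-/

set_option autoImplicit false
set_option linter.unusedSectionVars false

namespace Pool.Agent.W2helper47.FM

open NumberField IsDedekindDomain

variable (l : ℕ) [hl : Fact l.Prime] (F : Type*) [Field F] [NumberField F]

/-- The `l`-adic cyclotomic character of `F`. -/
noncomputable def cyc : Gal(AlgebraicClosure F/F) →* ℤ_[l]ˣ :=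
  (cyclotomicCharacter (AlgebraicClosure F) l).comp
    (MulSemiringAction.toRingAut Gal(AlgebraicClosure F/F) (AlgebraicClosure F))

lemma continuous_cyc : Continuous (cyc l F) :=
  cyclotomicCharacter.continuous l F (AlgebraicClosure F)

variable {l F}

lemma cyc_spec (σ : Gal(AlgebraicClosure F/F)) {n : ℕ} {ζ : AlgebraicClosure F}
    (h : ζ ^ l ^ n = 1) : σ ζ = ζ ^ ((cyc l F σ : ℤ_[l]).toZModPow n).val :=
  cyclotomicCharacter.spec l
    (MulSemiringAction.toRingAut Gal(AlgebraicClosure F/F) (AlgebraicClosure F) σ) ζ h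

lemma modEq_of_pow_eq' {K : Type*} [Field K] {ζ : K} {N a b : ℕ} (h : IsPrimitiveRoot ζ N)
    (hN : N ≠ 0) (hab : ζ ^ a = ζ ^ b) : a ≡ b [MOD N] := by
  have h0 : ζ ≠ 0 := h.ne_zero hN
  have h1 := (pow_eq_pow_iff_modEq (x := Units.mk0 ζ h0) (m := b) (n := a))
  have h2 : orderOf (Units.mk0 ζ h0) = N := by
    rw [← orderOf_units, Units.val_mk0, h.eq_orderOf]
  rw [h2] at h1
  exact h1.mp (Units.ext (by simpa using hab))

variable {P : Ideal (𝓞 (AlgebraicClosure F))} [hP : P.IsMaximal]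

lemma root_cancel (hlP : (l : 𝓞 (AlgebraicClosure F)) ∉ P) {ξ : 𝓞 (AlgebraicClosure F)} {k : ℕ}
    (h : ξ ^ l ^ k = 1) (h1 : ξ - 1 ∈ P) : ξ = 1 := by
  by_contra hne
  have h2 : (∑ i ∈ Finset.range (l ^ k), ξ ^ i) = 0 := by
    have h3 := mul_geom_sum ξ (l ^ k)
    rw [h, sub_self] at h3
    exact (mul_eq_zero.mp h3).resolve_left (sub_ne_zero.mpr hne)
  have h4 : Ideal.Quotient.mk P ξ = 1 := by
    rw [← map_one (Ideal.Quotient.mk P), Ideal.Quotient.eq]; exact h1
  have h5 : Ideal.Quotient.mk P (∑ i ∈ Finset.range (l ^ k), ξ ^ i) =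
      Ideal.Quotient.mk P ((l : 𝓞 (AlgebraicClosure F)) ^ k) := by
    simp [map_sum, map_pow, h4]
  rw [h2, map_zero] at h5
  exact hlP (hP.isPrime.mem_of_pow_mem k (Ideal.Quotient.eq_zero_iff_mem.mp h5.symm))

lemma root_cancel₂ (hlP : (l : 𝓞 (AlgebraicClosure F)) ∉ P) {x y : 𝓞 (AlgebraicClosure F)} {k : ℕ}
    (hx : x ^ l ^ k = 1) (hy : y ^ l ^ k = 1) (h : x - y ∈ P) : x = y := by
  have hpos : 0 < l ^ k := pow_pos hl.out.pos k
  have h1 : y ^ (l ^ k - 1) * y = 1 := by rw [← pow_succ, Nat.sub_add_cancel hpos, hy]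
  have h2 : x * y ^ (l ^ k - 1) = 1 := by
    refine root_cancel hlP (k := k) ?_ ?_
    · rw [mul_pow, hx, one_mul, ← pow_mul, mul_comm, pow_mul, hy, one_pow]
    · have h3 : x * y ^ (l ^ k - 1) - 1 = (x - y) * y ^ (l ^ k - 1) := by
        linear_combination h1
      rw [h3]
      exact P.mul_mem_right _ h
  calc x = x * (y ^ (l ^ k - 1) * y) := by rw [h1, mul_one]
    _ = y := by rw [← mul_assoc, h2, one_mul]

theorem cyc_frob (hlP : (l : 𝓞 (AlgebraicClosure F)) ∉ P) {σ : Gal(AlgebraicClosure F/F)}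
    (a b : ℕ) (h : IsFrobPow P σ ((a : ℤ) - b)) :
    (cyc l F σ : ℤ_[l]) * (resCard P : ℤ_[l]) ^ a = (resCard P : ℤ_[l]) ^ b := by
  refine PadicInt.ext_of_toZModPow.mp fun n => ?_
  have hne : NeZero (l ^ n) := ⟨(pow_pos hl.out.pos n).ne'⟩
  obtain ⟨ζ, hζ⟩ := HasEnoughRootsOfUnity.exists_primitiveRoot (AlgebraicClosure F) (l ^ n)
  have hint : IsIntegral ℤ ζ := by
    refine IsIntegral.of_pow (pow_pos hl.out.pos n) ?_
    rw [hζ.pow_eq_one]
    exact isIntegral_one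
  let z : 𝓞 (AlgebraicClosure F) := ⟨ζ, hint⟩
  have hz : z ^ l ^ n = 1 := RingOfIntegers.ext (by simpa using! hζ.pow_eq_one)
  have hσ : σ • z = z ^ ((cyc l F σ : ℤ_[l]).toZModPow n).val :=
    RingOfIntegers.ext (by
      rw [smul_coe_int]
      simpa using! cyc_spec σ hζ.pow_eq_one)
  have h1 := h a b rfl z
  rw [hσ, ← pow_mul] at h1
  have h2 := root_cancel₂ hlP (k := n) (by rw [← pow_mul, mul_comm, pow_mul, hz, one_pow])
    (by rw [← pow_mul, mul_comm, pow_mul, hz, one_pow]) h1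
  have h3 : ζ ^ (((cyc l F σ : ℤ_[l]).toZModPow n).val * resCard P ^ a) = ζ ^ resCard P ^ b := by
    have h4 := congrArg (fun w : 𝓞 (AlgebraicClosure F) => (w : AlgebraicClosure F)) h2
    simpa using! h4
  have h5 := (ZMod.natCast_eq_natCast_iff _ _ _).mpr (modEq_of_pow_eq' hζ hne.out h3)
  rw [map_mul, map_pow, map_pow, map_natCast]
  push_cast at h5
  rw [ZMod.natCast_zmod_val] at h5
  exact h5

end Pool.Agent.W2helper47.FM
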