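import Pool.Agent.W2helper47.FM.Period

/-!
# `l`-adic representations of a number field: the definitions

`F` is a number field, `l` a prime, `PadicAlgCl l` an algebraic closure of `ℚ_l`. An `l`-adic
representation of dimension `n` is a homomorphism `Gal(AlgebraicClosure F/F) →* GL_n(PadicAlgCl l)`.
-/

set_option autoImplicit false

namespace Pool.Agent.W2helper47.FM

open NumberField IsDedekindDomain
open scoped TensorProduct

/-! ### Tensor products with a period ring -/

section Tensor

variable {k B V G : Type*} [Field k] [CommRing B] [Algebra k B] [AddCommGroup V] [Module k V]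

/-- `g` acts on `B` by `a g` and on `V` by `b g`. The elements `w` of `B ⊗ V` such that
`g w = c(g) w` for all `g` in `S`. -/
def eigenSet (S : Set G) (a : G → B →ₗ[k] B) (b : G → V →ₗ[k] V) (c : G → k) : Set (B ⊗[k] V) :=
  {w | ∀ g ∈ S, TensorProduct.map (a g) (b g) w = c g • w}

/-- The invariants of `B ⊗ V` span `B ⊗ V` over `B`. -/
def IsSpannedByInvariants (S : Set G) (a : G → B →ₗ[k] B) (b : G → V →ₗ[k] V) : Prop :=
  Submodule.span B (eigenSet S a b fun _ => 1) = ⊤

/-- There is a nonzero `w` in `B ⊗ V` such that `g w = c(g) w` for all `g` in `S`. -/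
def HasEigenvector (S : Set G) (a : G → B →ₗ[k] B) (b : G → V →ₗ[k] V) (c : G → k) : Prop :=
  ∃ w ∈ eigenSet S a b c, w ≠ 0

end Tensor

/-- A period ring is an algebra over `ℚ_l`. -/
noncomputable instance algebraPeriod {l : ℕ} [Fact l.Prime] (R : PeriodRing l) :
    Algebra ℚ_[l] R.B :=
  R.incl.toAlgebra

/-- An element `τ` of the absolute Galois group of `ℚ_l` acts on a period ring, linearly over `ℚ_l`. -/
noncomputable def PeriodRing.lin {l : ℕ} [Fact l.Prime] (R : PeriodRing l)
    (τ : Gal(PadicAlgCl l/ℚ_[l])) : R.B →ₗ[ℚ_[l]] R.B :=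
  AlgHom.toLinearMap { R.act τ with commutes' := R.act_incl τ }

/-! ### Representations -/

section Rep

variable {K V G : Type*} [Field K] [AddCommGroup V] [Module K V]

/-- The representation `ρ` of `G` on the vector space `V` over `K` is irreducible. -/
def IsIrred (ρ : G → Module.End K V) : Prop :=
  Nontrivial V ∧ ∀ W : Submodule K V, (∀ g, ∀ v ∈ W, ρ g v ∈ W) → W = ⊥ ∨ W = ⊤

end Rep

section Global

variable {l : ℕ} [hl : Fact l.Prime] {F : Type*} [Field F] [NumberField F] {n : ℕ}

/-- The space on which an `l`-adic representation of dimension `n` acts. -/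
abbrev Space (l : ℕ) [Fact l.Prime] (n : ℕ) : Type := Fin n → PadicAlgCl l

/-- The action on `Space l n` of `Gal(AlgebraicClosure F/F)` given by `ρ`. -/
noncomputable def linRep (ρ : Gal(AlgebraicClosure F/F) →* GL (Fin n) (PadicAlgCl l))
    (σ : Gal(AlgebraicClosure F/F)) : Module.End (PadicAlgCl l) (Space l n) :=
  Matrix.mulVecLin (ρ σ).val

/-- `ρ` is unramified at the finite place `v` of `F`: it is trivial on the inertia group of every
maximal ideal above `v` of the ring of all algebraic integers. -/
def IsUnramifiedAt (ρ : Gal(AlgebraicClosure F/F) →* GL (Fin n) (PadicAlgCl l))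
    (v : HeightOneSpectrum (𝓞 F)) : Prop :=
  ∀ P : Ideal (𝓞 (AlgebraicClosure F)), P.IsMaximal → P.under (𝓞 F) = v.asIdeal →
    ∀ σ ∈ P.inertia Gal(AlgebraicClosure F/F), ρ σ = 1

/-! ### The places above `l` -/

/-- An embedding `ι` of `AlgebraicClosure F` into `PadicAlgCl l` defines a place `v` of `F` above
`l`, and an embedding of the completion `F_v` whose image is the closure of `ι(F)`. The absolute
Galois group of `F_v` is the group of all `τ` which fix `ι(F)` pointwise, and its map to the
absolute Galois group of `F` takes `τ` to the `σ` with `τ ∘ ι = ι ∘ σ`. This is the set of all pairs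
`(τ, σ)`, that is, the graph of this map. -/
def localPairs (ι : AlgebraicClosure F →+* PadicAlgCl l) :
    Set (Gal(PadicAlgCl l/ℚ_[l]) × Gal(AlgebraicClosure F/F)) :=
  {g | ∀ x, g.1 (ι x) = ι (g.2 x)}

/-- `ρ` is de Rham at the place above `l` given by `ι`, in the sense of Fontaine: the tensor product
over `ℚ_l` of `B_dR` with the space of `ρ` is spanned over `B_dR` by the invariants of the
local Galois group. -/
def IsDeRhamAt (ι : AlgebraicClosure F →+* PadicAlgCl l)
    (ρ : Gal(AlgebraicClosure F/F) →* GL (Fin n) (PadicAlgCl l)) : Prop :=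
  IsSpannedByInvariants (localPairs ι) (fun g => (periodBdR l).lin g.1)
    (fun g => (linRep ρ g.2).restrictScalars ℚ_[l])

/-- The integer `i` is a Hodge-Tate weight of `ρ` at the place above `l` given by `ι`: there is a
nonzero `w` in the tensor product over `ℚ_l` of `ℂ_l` with the space of `ρ` such that
`g w = χ(g) ^ (-i) w` for `g` in the local Galois group, with `χ` the cyclotomic character. The
normalisation is that the cyclotomic character has weight `-1`. -/
def IsHodgeTateWeight (ι : AlgebraicClosure F →+* PadicAlgCl l)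
    (ρ : Gal(AlgebraicClosure F/F) →* GL (Fin n) (PadicAlgCl l)) (i : ℤ) : Prop :=
  HasEigenvector (localPairs ι) (fun g => (periodC l).lin g.1)
    (fun g => (linRep ρ g.2).restrictScalars ℚ_[l])
    (fun g => (((chi g.1 ^ (-i) : ℤ_[l]ˣ) : ℤ_[l]) : ℚ_[l]))

/-- Condition (1): at every place above `l`, `ρ` is de Rham and its Hodge-Tate weights are
nonnegative. -/
def Condition1 (ρ : Gal(AlgebraicClosure F/F) →* GL (Fin n) (PadicAlgCl l)) : Prop :=
  ∀ ι : AlgebraicClosure F →+* PadicAlgCl l, IsDeRhamAt ι ρ ∧ ∀ i, IsHodgeTateWeight ι ρ i → 0 ≤ i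

/-! ### The places not above `l` -/

/-- The number of elements of the residue field of `F` at the place below `P`. -/
noncomputable def resCard (P : Ideal (𝓞 (AlgebraicClosure F))) : ℕ :=
  Nat.card (𝓞 F ⧸ P.under (𝓞 F))

/-- `σ` acts on the residue field at `P` as the `m`-th power of the geometric Frobenius, that is, of
the inverse of `x ↦ x ^ q`, where `q = resCard P`. (For `m = 0`: `σ` is in the inertia group.) -/
def IsFrobPow (P : Ideal (𝓞 (AlgebraicClosure F))) (σ : Gal(AlgebraicClosure F/F)) (m : ℤ) : Prop :=
  ∀ a b : ℕ, (a : ℤ) - b = m → ∀ x : 𝓞 (AlgebraicClosure F),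
    (σ • x) ^ resCard P ^ a - x ^ resCard P ^ b ∈ P

end Global

end Pool.Agent.W2helper47.FM
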