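import Pool.Agent.W2helper47.FM.Ker

/-!
# The action of the Galois group on `[ε] - 1`
-/

set_option autoImplicit false

namespace Pool.Agent.W2helper47.FM

open Ideal

variable {p : ℕ} [hp : Fact p.Prime]

instance isDomainOFlat : IsDomain (OFlat p) :=
  PreTilt.isDomain ℂ_[p] (PadicComplex.valued p).v 𝓞_ℂ_[p] (PadicComplexInt.integers p) p

/-- The action of the Galois group on the ring of integers of `ℂ_p`. -/
noncomputable def actO (σ : Gal(PadicAlgCl p/ℚ_[p])) : 𝓞_ℂ_[p] →+* 𝓞_ℂ_[p] where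
  toFun x := ⟨actC σ x, by rw [mem_int_iff, norm_actC]; exact norm_int_le x⟩
  map_one' := Subtype.ext (map_one (actC σ))
  map_mul' x y := Subtype.ext (map_mul (actC σ) (x : ℂ_[p]) (y : ℂ_[p]))
  map_zero' := Subtype.ext (map_zero (actC σ))
  map_add' x y := Subtype.ext (map_add (actC σ) (x : ℂ_[p]) (y : ℂ_[p]))

lemma coe_actO (σ : Gal(PadicAlgCl p/ℚ_[p])) (x : 𝓞_ℂ_[p]) :
    ((actO σ x : 𝓞_ℂ_[p]) : ℂ_[p]) = actC σ x := rfl

lemma actO_inv (σ : Gal(PadicAlgCl p/ℚ_[p])) : (actO σ).comp (actO σ⁻¹) = RingHom.id 𝓞_ℂ_[p] := by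
  ext x
  rw [RingHom.comp_apply, coe_actO, coe_actO, ← actC_mul, mul_inv_cancel, actC_one]
  rfl

section eps

variable {ζ : ℕ → PadicAlgCl p} (hζ : IsTower ζ)

lemma wel_ne_zero : wel hζ ≠ 0 := by
  intro h
  have h1 := nu_wel hζ
  rw [h, WittVector.zero_coeff] at h1
  have h2 : nu (0 : OFlat p) = 0 := by
    have h3 := nu_pow (0 : OFlat p) 2
    rw [zero_pow two_ne_zero] at h3
    by_contra h4
    have h5 : nu (0 : OFlat p) = 1 := by
      have : nu (0 : OFlat p) * (nu (0 : OFlat p) - 1) = 0 := by nlinarith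
      rcases mul_eq_zero.mp this with h6 | h6
      · exact absurd h6 h4
      · linarith
    rw [h5] at h1
    have h6 := inv_p_lt_one (p := p)
    linarith
  rw [h2] at h1
  have : (0 : ℝ) < (p : ℝ)⁻¹ := inv_pos.mpr (by exact_mod_cast hp.out.pos)
  linarith

lemma zO_pow_order (n : ℕ) : zO hζ n ^ p ^ n = 1 := by
  have := zO_pow_pow hζ 0 n
  rw [add_zero] at this
  rw [this, zO_zero]

lemma zO_pow_congr (n : ℕ) {a b : ℕ} (h : a ≡ b [MOD p ^ n]) : zO hζ n ^ a = zO hζ n ^ b := by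
  rw [← Nat.div_add_mod a (p ^ n), ← Nat.div_add_mod b (p ^ n), pow_add, pow_add, pow_mul, pow_mul,
    zO_pow_order, one_pow, one_pow, h]

/-- The element `ε ^ z` of the tilt, for a `p`-adic integer `z`. -/
noncomputable def epsZ (hζ : IsTower ζ) (z : ℤ_[p]) : OFlat p :=
  (⟨fun n => Ideal.Quotient.mk _ (zO hζ n ^ (z.toZModPow n).val), fun n => by
    rw [← map_pow, ← pow_mul, mul_comm, pow_mul, zO_pow]
    congr 1
    apply zO_pow_congr
    rw [← ZMod.natCast_eq_natCast_iff, ZMod.natCast_zmod_val]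
    have h1 := PadicInt.cast_toZModPow n (n + 1) (Nat.le_succ n) z
    rw [← h1, ZMod.natCast_val]⟩ : Perfection (ModP 𝓞_ℂ_[p] p) p)

lemma coeff_epsZ (z : ℤ_[p]) (n : ℕ) :
    PreTilt.coeff n (epsZ hζ z) = Ideal.Quotient.mk _ (zO hζ n ^ (z.toZModPow n).val) := rfl

lemma epsZ_add (z z' : ℤ_[p]) : epsZ hζ (z + z') = epsZ hζ z * epsZ hζ z' := by
  refine tiltMap_ext fun n => ?_
  rw [map_mul, coeff_epsZ, coeff_epsZ, coeff_epsZ, ← map_mul, ← pow_add]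
  congr 1
  apply zO_pow_congr
  rw [← ZMod.natCast_eq_natCast_iff]
  push_cast
  rw [ZMod.natCast_zmod_val, ZMod.natCast_zmod_val, ZMod.natCast_zmod_val, map_add]

lemma epsZ_one : epsZ hζ 1 = eps hζ 0 := by
  refine tiltMap_ext fun n => ?_
  rw [coeff_epsZ, coeff_eps, add_zero]
  congr 1
  conv_rhs => rw [← pow_one (zO hζ n)]
  apply zO_pow_congr
  rw [← ZMod.natCast_eq_natCast_iff, ZMod.natCast_zmod_val]
  simp

lemma untilt_epsZ (z : ℤ_[p]) : (epsZ hζ z).untilt = 1 := by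
  refine Perfection.teichmuller_spec fun n => ⟨zO hζ n ^ (z.toZModPow n).val, rfl, ?_⟩
  rw [← pow_mul, mul_comm, pow_mul, zO_pow_order, one_pow]

lemma tiltMap_eps (σ : Gal(PadicAlgCl p/ℚ_[p])) :
    tiltMap (actO σ) (eps hζ 0) = epsZ hζ (chi σ) := by
  refine tiltMap_ext fun n => ?_
  rw [coeff_tiltMap, coeff_epsZ, coeff_eps, add_zero]
  change Ideal.Quotient.mk _ (actO σ (zO hζ n)) = _
  congr 1
  apply Subtype.ext
  rw [coe_actO, coe_zO, actC_coe, chi_spec σ (hζ.prim n).pow_eq_one, coe_powC]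
  push_cast
  rw [coe_zO]

lemma exists_Y (z : ℤ_[p]) :
    ∃ y : AInf p, WittVector.teichmuller p (epsZ hζ z) - 1 = wel hζ * y := by
  apply ker_theta hζ
  rw [map_sub, map_one, WittVector.fontaineTheta_teichmuller, untilt_epsZ, sub_self]

/-- The quotient `([ε ^ z] - 1) / w`. -/
noncomputable def Yel (hζ : IsTower ζ) (z : ℤ_[p]) : AInf p := (exists_Y hζ z).choose

lemma Yel_spec (z : ℤ_[p]) :
    WittVector.teichmuller p (epsZ hζ z) - 1 = wel hζ * Yel hζ z := (exists_Y hζ z).choose_spec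

lemma Yel_add (z z' : ℤ_[p]) :
    Yel hζ (z + z') = wel hζ * (Yel hζ z * Yel hζ z') + Yel hζ z + Yel hζ z' := by
  apply mul_left_cancel₀ (wel_ne_zero hζ)
  rw [← Yel_spec, epsZ_add, map_mul]
  have h1 := Yel_spec hζ z
  have h2 := Yel_spec hζ z'
  calc _ = (WittVector.teichmuller p (epsZ hζ z) - 1) * (WittVector.teichmuller p (epsZ hζ z') - 1)
        + (WittVector.teichmuller p (epsZ hζ z) - 1)
        + (WittVector.teichmuller p (epsZ hζ z') - 1) := by ring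
    _ = _ := by rw [h1, h2]; ring

lemma Yel_one : Yel hζ 1 = vel hζ := by
  apply mul_left_cancel₀ (wel_ne_zero hζ)
  rw [← Yel_spec, epsZ_one, wel_mul_vel]
  rfl

/-- The homomorphism `z ↦ θ(([ε ^ z] - 1) / w)`. -/
noncomputable def hhom (hζ : IsTower ζ) : ℤ_[p] →+ 𝓞_ℂ_[p] :=
  AddMonoidHom.mk' (fun z => WittVector.fontaineTheta 𝓞_ℂ_[p] p (Yel hζ z)) (by
    intro a b
    rw [Yel_add, map_add, map_add, map_mul, theta_wel, zero_mul, zero_add])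

lemma hhom_apply (z : ℤ_[p]) :
    hhom hζ z = WittVector.fontaineTheta 𝓞_ℂ_[p] p (Yel hζ z) := rfl

/-- the inclusion of the `p`-adic integers in `ℂ_p` -/
lemma eq_of_close {a b : ℂ_[p]} (h : ∀ n : ℕ, ‖a - b‖ ≤ (p : ℝ)⁻¹ ^ n) : a = b := by
  have h2 : ‖a - b‖ ≤ 0 :=
    ge_of_tendsto' (tendsto_pow_atTop_nhds_zero_of_lt_one (by positivity)
      (inv_p_lt_one (p := p))) h
  exact sub_eq_zero.mp (norm_eq_zero.mp (le_antisymm h2 (norm_nonneg _)))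

/-- `z` in `ℂ_p` -/
noncomputable def zC (z : ℤ_[p]) : ℂ_[p] := algebraMap ℚ_[p] ℂ_[p] (z : ℚ_[p])

lemma norm_zC (z : ℤ_[p]) : ‖zC z‖ ≤ 1 := by
  unfold zC
  rw [norm_algebraMap']
  exact PadicInt.norm_le_one z

lemma zC_nat (a : ℕ) (n : ℕ) (z : ℤ_[p]) :
    zC ((a : ℤ_[p]) + (p : ℤ_[p]) ^ n * z) = (a : ℂ_[p]) + (p : ℂ_[p]) ^ n * zC z := by
  unfold zC
  push_cast
  simp only [map_add, map_mul, map_pow, map_natCast]

lemma exists_appr (z : ℤ_[p]) (n : ℕ) : ∃ (a : ℕ) (z' : ℤ_[p]), z = a + (p : ℤ_[p]) ^ n * z' := by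
  have h := PadicInt.appr_spec n z
  obtain ⟨z', hz'⟩ := mem_span_singleton.mp h
  exact ⟨z.appr n, z', by rw [← hz']; ring⟩

lemma hhom_eq (z : ℤ_[p]) :
    ((hhom hζ z : 𝓞_ℂ_[p]) : ℂ_[p]) = zC z * (((ζ 1 : PadicAlgCl p) : ℂ_[p]) - 1) := by
  have h1 : ((hhom hζ 1 : 𝓞_ℂ_[p]) : ℂ_[p]) = ((ζ 1 : PadicAlgCl p) : ℂ_[p]) - 1 := by
    rw [hhom_apply, Yel_one, theta_vel]
  rw [← h1]
  refine eq_of_close fun n => ?_
  obtain ⟨a, z', rfl⟩ := exists_appr z n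
  have h2 : hhom hζ ((a : ℤ_[p]) + (p : ℤ_[p]) ^ n * z') =
      a • hhom hζ 1 + (p ^ n) • hhom hζ z' := by
    rw [map_add, ← map_nsmul, ← map_nsmul]
    congr 2
    · simp
    · simp
  rw [h2, zC_nat]
  push_cast
  have h3 : ((a • hhom hζ 1 : 𝓞_ℂ_[p]) : ℂ_[p]) + (((p ^ n) • hhom hζ z' : 𝓞_ℂ_[p]) : ℂ_[p]) -
      ((a : ℂ_[p]) + (p : ℂ_[p]) ^ n * zC z') * ((hhom hζ 1 : 𝓞_ℂ_[p]) : ℂ_[p]) =
      (p : ℂ_[p]) ^ n * (((hhom hζ z' : 𝓞_ℂ_[p]) : ℂ_[p]) - zC z' * ((hhom hζ 1 : 𝓞_ℂ_[p]) : ℂ_[p])) := by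
    rw [nsmul_eq_mul, nsmul_eq_mul]
    push_cast
    ring
  have h4 : ‖(p : ℂ_[p]) ^ n * (((hhom hζ z' : 𝓞_ℂ_[p]) : ℂ_[p]) -
      zC z' * ((hhom hζ 1 : 𝓞_ℂ_[p]) : ℂ_[p]))‖ ≤ (p : ℝ)⁻¹ ^ n := by
    rw [norm_mul, norm_pow, normC_p]
    refine mul_le_of_le_one_right (by positivity) ?_
    refine (normC_sub_max _ _).trans (max_le (norm_int_le _) ?_)
    rw [norm_mul]
    exact mul_le_one₀ (norm_zC z') (norm_nonneg _) (norm_int_le _)
  first
    | rw [h3]; exact h4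
    | (convert h4 using 2; rw [← h3]; push_cast; rfl)

/-- The action of the Galois group on `[ε] - 1`. -/
lemma ainfMap_tel (σ : Gal(PadicAlgCl p/ℚ_[p])) :
    ainfMap (actO σ) (tel hζ) = wel hζ * Yel hζ (chi σ) := by
  unfold tel
  rw [map_sub, map_one, ← Yel_spec, ainfMap, WittVector.map_teichmuller, tiltMap_eps]

end eps

end Pool.Agent.W2helper47.FM
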