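import Mathlib

/-!
# Frobenius elements in the absolute Galois group of a number field
-/

set_option autoImplicit false
set_option linter.unusedSectionVars false

namespace Pool.Agent.W2helper47.FM

open NumberField

variable {F : Type*} [Field F] [NumberField F]

lemma smul_coe_int (σ : Gal(AlgebraicClosure F/F)) (x : 𝓞 (AlgebraicClosure F)) :
    ((σ • x : 𝓞 (AlgebraicClosure F)) : AlgebraicClosure F) = σ x := rfl

lemma smulCommClass_int : SMulCommClass Gal(AlgebraicClosure F/F) (𝓞 F) (𝓞 (AlgebraicClosure F)) := by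
  constructor
  intro σ a x
  apply RingOfIntegers.ext
  rw [smul_coe_int, Algebra.smul_def, Algebra.smul_def, RingOfIntegers.coe_eq_algebraMap,
    RingOfIntegers.coe_eq_algebraMap, map_mul, map_mul, map_mul]
  congr 1
  rw [← IsScalarTower.algebraMap_apply (𝓞 F) (𝓞 (AlgebraicClosure F)) (AlgebraicClosure F),
    IsScalarTower.algebraMap_apply (𝓞 F) F (AlgebraicClosure F), AlgEquiv.commutes]

instance isGaloisBar : IsGalois F (AlgebraicClosure F) := {}

lemma isInvariant_int :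
    Algebra.IsInvariant (𝓞 F) (𝓞 (AlgebraicClosure F)) Gal(AlgebraicClosure F/F) := by
  constructor
  intro b hb
  have h1 : ∀ σ : Gal(AlgebraicClosure F/F), σ (b : AlgebraicClosure F) = b := fun σ => by
    rw [← smul_coe_int, hb]
  obtain ⟨a, ha⟩ := (InfiniteGalois.mem_range_algebraMap_iff_fixed (k := F)
    (b : AlgebraicClosure F)).mpr h1
  have h2 : IsIntegral ℤ a := by
    have h3 : IsIntegral ℤ (algebraMap F (AlgebraicClosure F) a) := by
      rw [ha]; exact b.isIntegral_coe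
    exact (isIntegral_algebraMap_iff (algebraMap F (AlgebraicClosure F)).injective).mp h3
  refine ⟨⟨a, h2⟩, ?_⟩
  apply RingOfIntegers.ext
  rw [← ha]
  rfl

instance isIntegral_int : Algebra.IsIntegral (𝓞 F) (𝓞 (AlgebraicClosure F)) := by
  constructor
  intro x
  exact (RingOfIntegers.isIntegral x).tower_top

instance isMaximal_under (P : Ideal (𝓞 (AlgebraicClosure F))) [P.IsMaximal] :
    (P.under (𝓞 F)).IsMaximal :=
  Ideal.isMaximal_comap_of_isIntegral_of_isMaximal P

lemma under_ne_bot (P : Ideal (𝓞 (AlgebraicClosure F))) [P.IsMaximal] : P.under (𝓞 F) ≠ ⊥ :=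
  Ring.ne_bot_of_isMaximal_of_not_isField inferInstance (RingOfIntegers.not_isField F)

instance finite_resField (P : Ideal (𝓞 (AlgebraicClosure F))) [P.IsMaximal] :
    Finite (𝓞 F ⧸ P.under (𝓞 F)) :=
  Ideal.finiteQuotientOfFreeOfNeBot _ (under_ne_bot P)

lemma isOpen_stabilizer (x : 𝓞 (AlgebraicClosure F)) :
    IsOpen (MulAction.stabilizer Gal(AlgebraicClosure F/F) x : Set Gal(AlgebraicClosure F/F)) := by
  have h1 := stabilizer_isOpen_of_isIntegral (K := F) (L := AlgebraicClosure F)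
    (x : AlgebraicClosure F)
  convert h1 using 1
  ext σ
  simp only [SetLike.mem_coe, MulAction.mem_stabilizer_iff]
  exact ⟨fun h => congrArg (fun z : 𝓞 (AlgebraicClosure F) => (z : AlgebraicClosure F)) h,
    fun h => RingOfIntegers.ext h⟩

/-- existence of a geometric Frobenius -/
theorem exists_geomFrob (P : Ideal (𝓞 (AlgebraicClosure F))) [hP : P.IsMaximal] :
    ∃ σ : Gal(AlgebraicClosure F/F), ∀ x : 𝓞 (AlgebraicClosure F),
      (σ • x) ^ Nat.card (𝓞 F ⧸ P.under (𝓞 F)) - x ∈ P := by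
  let _ : Field (𝓞 F ⧸ P.under (𝓞 F)) := Ideal.Quotient.field _
  let _ : Field (𝓞 (AlgebraicClosure F) ⧸ P) := Ideal.Quotient.field _
  let _ : Fintype (𝓞 F ⧸ P.under (𝓞 F)) := Fintype.ofFinite _
  let _ : TopologicalSpace (𝓞 (AlgebraicClosure F)) := ⊥
  have hdisc : DiscreteTopology (𝓞 (AlgebraicClosure F)) := ⟨rfl⟩
  have hcont : ContinuousSMul Gal(AlgebraicClosure F/F) (𝓞 (AlgebraicClosure F)) :=
    (continuousSMul_iff_stabilizer_isOpen (M := Gal(AlgebraicClosure F/F))
      (X := 𝓞 (AlgebraicClosure F))).mpr fun x => isOpen_stabilizer x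
  have hcomm : SMulCommClass Gal(AlgebraicClosure F/F) (𝓞 F) (𝓞 (AlgebraicClosure F)) :=
    smulCommClass_int
  have hinv : Algebra.IsInvariant (𝓞 F) (𝓞 (AlgebraicClosure F)) Gal(AlgebraicClosure F/F) :=
    isInvariant_int
  have halg : Algebra.IsAlgebraic (𝓞 F ⧸ P.under (𝓞 F)) (𝓞 (AlgebraicClosure F) ⧸ P) := by
    have : Algebra.IsIntegral (𝓞 F ⧸ P.under (𝓞 F)) (𝓞 (AlgebraicClosure F) ⧸ P) := inferInstance
    infer_instance
  let φ := FiniteField.frobeniusAlgEquivOfAlgebraic (𝓞 F ⧸ P.under (𝓞 F))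
    (𝓞 (AlgebraicClosure F) ⧸ P)
  obtain ⟨⟨σ, hσ⟩, h1⟩ := Ideal.Quotient.stabilizerHom_surjective_of_profinite
    (G := Gal(AlgebraicClosure F/F)) (P.under (𝓞 F)) P φ.symm
  refine ⟨σ, fun x => ?_⟩
  rw [← Ideal.Quotient.eq, map_pow]
  have h2 : Ideal.Quotient.mk P (σ • x) = φ.symm (Ideal.Quotient.mk P x) := by
    rw [← h1]; rfl
  have h3 : φ (φ.symm (Ideal.Quotient.mk P x)) = Ideal.Quotient.mk P x := φ.apply_symm_apply _
  rw [h2, Nat.card_eq_fintype_card]
  exact h3

end Pool.Agent.W2helper47.FM
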