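import Mathlib

/-!
# The ring of integers of `ℂ_p` is `p`-adically complete
-/

set_option autoImplicit false

namespace Pool.Agent.W2helper47.FM

open Ideal

variable {p : ℕ} [hp : Fact p.Prime]

open MonoidWithZeroHom.ValueGroup₀ in
lemma valC_eq (x : ℂ_[p]) : (((PadicComplex.valued p).v x : NNReal) : ℝ) = ‖x‖ := by
  rw [PadicComplex.norm_eq_norm, Valued.v.norm_def, PadicComplex.RankOne.hom_eq_embedding,
    Valuation.embedding_restrict]

lemma mem_int_iff (x : ℂ_[p]) : x ∈ 𝓞_ℂ_[p] ↔ ‖x‖ ≤ 1 := by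
  rw [← valC_eq]
  change (PadicComplex.valued p).v x ≤ 1 ↔ _
  exact_mod_cast Iff.rfl

lemma norm_int_le (x : 𝓞_ℂ_[p]) : ‖(x : ℂ_[p])‖ ≤ 1 := (mem_int_iff _).mp x.2

lemma normC_p : ‖(p : ℂ_[p])‖ = (p : ℝ)⁻¹ := by
  rw [← valC_eq, PadicComplex.valuation_p]
  simp

/-- divisibility by powers of `p` in the ring of integers -/
lemma mem_span_pow_iff (x : 𝓞_ℂ_[p]) (n : ℕ) :
    x ∈ (span {(p : 𝓞_ℂ_[p])} : Ideal 𝓞_ℂ_[p]) ^ n ↔ ‖(x : ℂ_[p])‖ ≤ (p : ℝ)⁻¹ ^ n := by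
  have hp0 : (p : ℂ_[p]) ≠ 0 := by exact_mod_cast hp.out.ne_zero
  have hpr : (0 : ℝ) < p := by exact_mod_cast hp.out.pos
  rw [span_singleton_pow, mem_span_singleton]
  constructor
  · rintro ⟨y, rfl⟩
    push_cast
    rw [norm_mul, norm_pow, normC_p]
    exact mul_le_of_le_one_right (by positivity) (norm_int_le y)
  · intro h
    have h1 : (x : ℂ_[p]) / (p : ℂ_[p]) ^ n ∈ 𝓞_ℂ_[p] := by
      rw [mem_int_iff, norm_div, norm_pow, normC_p]
      exact div_le_one_of_le₀ h (by positivity)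
    refine ⟨⟨_, h1⟩, ?_⟩
    apply Subtype.ext
    push_cast
    field_simp

instance factNotUnit : Fact ¬ IsUnit (p : 𝓞_ℂ_[p]) := ⟨by
  intro h
  obtain ⟨y, hy⟩ := h.exists_right_inv
  have h1 : ‖(((p : 𝓞_ℂ_[p]) * y : 𝓞_ℂ_[p]) : ℂ_[p])‖ = 1 := by rw [hy]; simp
  push_cast at h1
  rw [norm_mul, normC_p] at h1
  have h2 := norm_int_le y
  have h3 : (1 : ℝ) < p := by exact_mod_cast hp.out.one_lt
  have h4 : (p : ℝ)⁻¹ < 1 := inv_lt_one_of_one_lt₀ h3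
  have h5 : (p : ℝ)⁻¹ * ‖(y : ℂ_[p])‖ < 1 := by
    calc _ ≤ (p : ℝ)⁻¹ * 1 := by gcongr
      _ < 1 := by linarith
  linarith⟩

lemma inv_p_lt_one : (p : ℝ)⁻¹ < 1 :=
  inv_lt_one_of_one_lt₀ (by exact_mod_cast hp.out.one_lt)

instance isAdicCompleteInt : IsAdicComplete (span {(p : 𝓞_ℂ_[p])}) 𝓞_ℂ_[p] where
  haus' := by
    intro x hx
    have h1 : ∀ n : ℕ, ‖(x : ℂ_[p])‖ ≤ (p : ℝ)⁻¹ ^ n := by
      intro n
      have := hx n
      rw [SModEq.zero, smul_eq_mul, mul_top] at this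
      exact (mem_span_pow_iff x n).mp this
    have h2 : ‖(x : ℂ_[p])‖ ≤ 0 := by
      refine ge_of_tendsto' (tendsto_pow_atTop_nhds_zero_of_lt_one (by positivity)
        (inv_p_lt_one (p := p))) h1
    have h3 : (x : ℂ_[p]) = 0 := norm_eq_zero.mp (le_antisymm h2 (norm_nonneg _))
    exact Subtype.ext h3
  prec' := by
    intro f hf
    have h1 : ∀ m n : ℕ, m ≤ n → ‖(f m : ℂ_[p]) - (f n : ℂ_[p])‖ ≤ (p : ℝ)⁻¹ ^ m := by
      intro m n hmn
      have := hf hmn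
      rw [SModEq.sub_mem, smul_eq_mul, mul_top, mem_span_pow_iff] at this
      push_cast at this
      exact this
    have hc : CauchySeq fun n => (f n : ℂ_[p]) := by
      refine cauchySeq_of_le_geometric (p : ℝ)⁻¹ 1 (inv_p_lt_one (p := p)) fun n => ?_
      rw [dist_eq_norm, one_mul]
      exact h1 n (n + 1) (Nat.le_succ n)
    obtain ⟨L, hL⟩ := cauchySeq_tendsto_of_complete hc
    have hLn : ‖L‖ ≤ 1 := by
      refine le_of_tendsto' hL.norm fun n => norm_int_le (f n)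
    refine ⟨⟨L, (mem_int_iff L).mpr hLn⟩, fun n => ?_⟩
    rw [SModEq.sub_mem, smul_eq_mul, mul_top, mem_span_pow_iff]
    push_cast
    have h2 : Filter.Tendsto (fun m => ‖(f n : ℂ_[p]) - (f m : ℂ_[p])‖) Filter.atTop
        (nhds ‖(f n : ℂ_[p]) - L‖) := (hL.const_sub _).norm
    refine le_of_tendsto h2 ?_
    filter_upwards [Filter.eventually_ge_atTop n] with m hm
    exact h1 n m hm

end Pool.Agent.W2helper47.FM
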