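import Pool.Agent.W2helper47.FM.Tate2
import Pool.Agent.W2helper47.FM.Inst
import Pool.Agent.W2helper47.FM.Act
import Pool.Agent.W2helper47.FM.Comp

/-!
# The kernel of Fontaine's map `θ` for `ℂ_p`

The kernel of `θ` on `A_inf` is generated by `([ε] - 1) / ([ε^(1/p)] - 1)`.
-/

set_option autoImplicit false

namespace Pool.Agent.W2helper47.FM

open Ideal

variable {p : ℕ} [hp : Fact p.Prime]

/-- The tilt of the ring of integers of `ℂ_p`. -/
abbrev OFlat (p : ℕ) [Fact p.Prime] : Type := PreTilt 𝓞_ℂ_[p] p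

/-- The ring `A_inf`. -/
abbrev AInf (p : ℕ) [Fact p.Prime] : Type := WittVector p (OFlat p)

/-- The norm of the untilt. -/
noncomputable def nu (x : OFlat p) : ℝ := ‖((x.untilt : 𝓞_ℂ_[p]) : ℂ_[p])‖

lemma nu_mul (x y : OFlat p) : nu (x * y) = nu x * nu y := by
  unfold nu
  rw [map_mul]
  push_cast
  rw [norm_mul]

lemma nu_nonneg (x : OFlat p) : 0 ≤ nu x := norm_nonneg _

/-- the `n`-th component of the untilt sequence -/
noncomputable def comp (n : ℕ) (x : OFlat p) : 𝓞_ℂ_[p] :=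
  (((frobeniusEquiv (OFlat p) p).symm^[n]) x).untilt

lemma comp_pow (n : ℕ) (x : OFlat p) : comp n x ^ p ^ n = x.untilt :=
  PreTilt.untilt_iterate_frobeniusEquiv_symm_pow x n

lemma comp_succ_pow (n : ℕ) (x : OFlat p) : comp (n + 1) x ^ p = comp n x := by
  unfold comp
  rw [← map_pow, Function.iterate_succ_apply']
  congr 1
  exact frobeniusEquiv_symm_pow_p _ p _

lemma mk_comp (n : ℕ) (x : OFlat p) :
    Ideal.Quotient.mk (span {(p : 𝓞_ℂ_[p])}) (comp n x) = PreTilt.coeff n x := by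
  unfold comp
  rw [PreTilt.mk_untilt_eq_coeff_zero, PreTilt.coeff_iterate_frobeniusEquiv_symm, zero_add]

lemma norm_comp_pow (n : ℕ) (x : OFlat p) : ‖((comp n x : 𝓞_ℂ_[p]) : ℂ_[p])‖ ^ p ^ n = nu x := by
  unfold nu
  rw [← comp_pow n x]
  push_cast
  rw [norm_pow]

lemma coe_powC (x : PadicAlgCl p) (n : ℕ) : ((x ^ n : PadicAlgCl p) : ℂ_[p]) = (x : ℂ_[p]) ^ n :=
  map_pow (algebraMap (PadicAlgCl p) ℂ_[p]) x n

lemma untilt_approx (x : OFlat p) (n : ℕ) (y : 𝓞_ℂ_[p])
    (h : Ideal.Quotient.mk (span {(p : 𝓞_ℂ_[p])}) y = PreTilt.coeff n x) :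
    ‖((x.untilt : 𝓞_ℂ_[p]) : ℂ_[p]) - (y : ℂ_[p]) ^ p ^ n‖ ≤ (p : ℝ)⁻¹ ^ (n + 1) := by
  have h2 : x.untilt ≡ y ^ p ^ n [SMOD (span {(p : 𝓞_ℂ_[p])}) ^ (n + 1)] :=
    Perfection.teichmuller_sModEq h
  rw [SModEq.sub_mem, mem_span_pow_iff] at h2
  push_cast at h2
  exact h2

/-- Divisibility in the tilt. -/
lemma exists_mul {a b : OFlat p} (ha : nu a ≠ 0) (hab : nu b ≤ nu a) : ∃ c, b = a * c := by
  have ha' : ∀ n, ((comp n a : 𝓞_ℂ_[p]) : ℂ_[p]) ≠ 0 := by
    intro n h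
    apply ha
    rw [← norm_comp_pow n a, h, norm_zero, zero_pow (pow_ne_zero n hp.out.ne_zero)]
  have hle : ∀ n, ‖((comp n b : 𝓞_ℂ_[p]) : ℂ_[p])‖ ≤ ‖((comp n a : 𝓞_ℂ_[p]) : ℂ_[p])‖ := by
    intro n
    rw [← norm_comp_pow n a, ← norm_comp_pow n b] at hab
    exact le_of_pow_le_pow_left₀ (pow_ne_zero n hp.out.ne_zero) (norm_nonneg _) hab
  have hmem : ∀ n, ((comp n b : 𝓞_ℂ_[p]) : ℂ_[p]) / ((comp n a : 𝓞_ℂ_[p]) : ℂ_[p]) ∈ 𝓞_ℂ_[p] := by
    intro n
    rw [mem_int_iff, norm_div]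
    exact div_le_one_of_le₀ (hle n) (norm_nonneg _)
  let c : ℕ → 𝓞_ℂ_[p] := fun n => ⟨_, hmem n⟩
  have hc : ∀ n, c (n + 1) ^ p = c n := by
    intro n
    apply Subtype.ext
    push_cast
    change (_ / _) ^ p = _ / _
    rw [div_pow]
    have h1 := comp_succ_pow n a
    have h2 := comp_succ_pow n b
    have h3 := congrArg (fun z : 𝓞_ℂ_[p] => (z : ℂ_[p])) h1
    have h4 := congrArg (fun z : 𝓞_ℂ_[p] => (z : ℂ_[p])) h2
    push_cast at h3 h4
    rw [h3, h4]
  have hac : ∀ n, comp n a * c n = comp n b := by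
    intro n
    apply Subtype.ext
    push_cast
    change _ * (_ / _) = _
    have := ha' n
    field_simp
  let C : OFlat p := (⟨fun n => Ideal.Quotient.mk _ (c n), fun n => by
    rw [← map_pow, hc]⟩ : Perfection (ModP 𝓞_ℂ_[p] p) p)
  refine ⟨C, tiltMap_ext fun n => ?_⟩
  rw [map_mul, ← mk_comp n a, ← mk_comp n b, ← hac n, map_mul]
  rfl

/-! ### The element `ε` -/

section eps

variable {ζ : ℕ → PadicAlgCl p} (hζ : IsTower ζ)

lemma zeta_mem (hζ : IsTower ζ) (n : ℕ) : ((ζ n : PadicAlgCl p) : ℂ_[p]) ∈ 𝓞_ℂ_[p] := by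
  rw [mem_int_iff, PadicComplex.norm_extends,
    norm_of_root (pow_ne_zero n hp.out.ne_zero) (hζ.prim n).pow_eq_one]

/-- `ζ n` in the ring of integers -/
noncomputable def zO (hζ : IsTower ζ) (n : ℕ) : 𝓞_ℂ_[p] := ⟨_, zeta_mem hζ n⟩

lemma coe_zO (n : ℕ) : ((zO hζ n : 𝓞_ℂ_[p]) : ℂ_[p]) = ((ζ n : PadicAlgCl p) : ℂ_[p]) := rfl

lemma zO_pow (n : ℕ) : zO hζ (n + 1) ^ p = zO hζ n := by
  apply Subtype.ext
  push_cast
  rw [coe_zO, coe_zO, ← hζ.pow n, coe_powC]

lemma zO_zero : zO hζ 0 = 1 := by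
  apply Subtype.ext
  rw [coe_zO]
  have h1 := hζ.prim 0
  rw [pow_zero, IsPrimitiveRoot.one_right_iff] at h1
  rw [h1]
  rfl

/-- The element `ε ^ (p ^ (-k))` of the tilt. -/
noncomputable def eps (hζ : IsTower ζ) (k : ℕ) : OFlat p :=
  (⟨fun n => Ideal.Quotient.mk _ (zO hζ (n + k)), fun n => by
    rw [← map_pow, show n + 1 + k = n + k + 1 by ring, zO_pow]⟩ :
      Perfection (ModP 𝓞_ℂ_[p] p) p)

lemma coeff_eps (k n : ℕ) :
    PreTilt.coeff n (eps hζ k) = Ideal.Quotient.mk _ (zO hζ (n + k)) := rfl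

lemma eps_pow (k : ℕ) : eps hζ (k + 1) ^ p = eps hζ k := by
  refine tiltMap_ext fun n => ?_
  rw [map_pow, coeff_eps, coeff_eps, ← map_pow, ← add_assoc, zO_pow]

lemma zO_pow_pow (k n : ℕ) : zO hζ (n + k) ^ p ^ n = zO hζ k := by
  induction n with
  | zero => simp
  | succ n ih => rw [show n + 1 + k = n + k + 1 by ring, pow_succ', pow_mul, zO_pow, ih]

lemma untilt_eps (k : ℕ) : (eps hζ k).untilt = zO hζ k := by
  refine Perfection.teichmuller_spec fun n => ⟨zO hζ (n + k), rfl, ?_⟩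
  rw [zO_pow_pow]

/-- The generator `w` of the kernel of `θ`. -/
noncomputable def wel (hζ : IsTower ζ) : AInf p :=
  ∑ i ∈ Finset.range p, WittVector.teichmuller p (eps hζ 1) ^ i

/-- `[ε^(1/p)] - 1` -/
noncomputable def vel (hζ : IsTower ζ) : AInf p := WittVector.teichmuller p (eps hζ 1) - 1

/-- `[ε] - 1` -/
noncomputable def tel (hζ : IsTower ζ) : AInf p := WittVector.teichmuller p (eps hζ 0) - 1

lemma wel_mul_vel : wel hζ * vel hζ = tel hζ := by
  unfold wel vel tel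
  rw [geom_sum_mul, ← map_pow, eps_pow]

lemma theta_wel : WittVector.fontaineTheta 𝓞_ℂ_[p] p (wel hζ) = 0 := by
  unfold wel
  rw [map_sum]
  simp only [map_pow, WittVector.fontaineTheta_teichmuller, untilt_eps]
  apply Subtype.ext
  push_cast
  simp only [coe_zO]
  have h1 : (∑ i ∈ Finset.range p, (ζ 1) ^ i : PadicAlgCl p) = 0 := by
    have h2 := hζ.prim 1
    rw [pow_one] at h2
    exact h2.geom_sum_eq_zero hp.out.one_lt
  have h3 := congrArg (algebraMap (PadicAlgCl p) ℂ_[p]) h1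
  rw [map_sum, map_zero] at h3
  simp only [map_pow] at h3
  exact h3

lemma theta_vel : ((WittVector.fontaineTheta 𝓞_ℂ_[p] p (vel hζ) : 𝓞_ℂ_[p]) : ℂ_[p]) =
    ((ζ 1 : PadicAlgCl p) : ℂ_[p]) - 1 := by
  unfold vel
  rw [map_sub, map_one, WittVector.fontaineTheta_teichmuller, untilt_eps]
  push_cast
  rw [coe_zO]

include hζ in
lemma zeta_one_ne : ((ζ 1 : PadicAlgCl p) : ℂ_[p]) - 1 ≠ 0 := by
  intro h
  have h1 : ((ζ 1 - 1 : PadicAlgCl p) : ℂ_[p]) = 0 := by
    rw [UniformSpace.Completion.coe_sub]; exact h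
  have h2 : ‖((ζ 1 - 1 : PadicAlgCl p) : ℂ_[p])‖ = 0 := by rw [h1, norm_zero]
  rw [PadicComplex.norm_extends] at h2
  have h3 := norm_sub_one_pos (n := 0) (ζ := ζ 1) (by simpa using hζ.prim 1)
  linarith

/-- The norm of the untilt of `ε^(1/p) - 1`. -/
lemma nu_eps_sub_one : nu (eps hζ 1 - 1) ^ (p - 1) = (p : ℝ)⁻¹ := by
  have hp1 : (1 : ℝ) < p := by exact_mod_cast hp.out.one_lt
  have hp0 : (0 : ℝ) < p := by linarith
  have h1 := norm_sub_one_pow (n := 1) (hζ.prim 2)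
  rw [Nat.totient_prime_pow_succ hp.out, pow_one, pow_mul] at h1
  set r := ‖ζ 2 - 1‖ ^ p with hr
  have hr0 : 0 ≤ r := by positivity
  have hp12 : 1 ≤ p - 1 := by have := hp.out.two_le; omega
  have hr1 : r ≤ 1 := by
    have h2 : ‖ζ 2 - 1‖ ≤ 1 := by
      have := norm_sub_max (ζ 2) 1
      rwa [norm_one, norm_of_root (pow_ne_zero 2 hp.out.ne_zero) (hζ.prim 2).pow_eq_one,
        max_self] at this
    exact pow_le_one₀ (norm_nonneg _) h2
  have hrp : (p : ℝ)⁻¹ ≤ r := by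
    rw [← h1]
    calc r ^ (p - 1) ≤ r ^ 1 := pow_le_pow_of_le_one hr0 hr1 hp12
      _ = r := pow_one r
  have h2 := untilt_approx (eps hζ 1 - 1) 1 (zO hζ 2 - 1) (by
    rw [map_sub, map_sub, map_one, map_one, coeff_eps])
  rw [pow_one] at h2
  have h3 : ‖(((zO hζ 2 - 1) ^ p : 𝓞_ℂ_[p]) : ℂ_[p])‖ = r := by
    push_cast
    rw [norm_pow, coe_zO, hr]
    congr 1
    rw [← PadicComplex.norm_extends, UniformSpace.Completion.coe_sub]
    rfl
  have h4 : nu (eps hζ 1 - 1) = r := by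
    unfold nu
    have h5 : (p : ℝ)⁻¹ ^ (1 + 1) < r := by
      refine lt_of_lt_of_le ?_ hrp
      rw [show (1 : ℕ) + 1 = 2 by norm_num, pow_two]
      have := inv_lt_one_of_one_lt₀ hp1
      have h6 : 0 < (p : ℝ)⁻¹ := inv_pos.mpr hp0
      nlinarith
    push_cast at h2 h3
    set X : ℂ_[p] := ((PreTilt.untilt (eps hζ 1 - 1) : 𝓞_ℂ_[p]) : ℂ_[p]) with hX
    set Y : ℂ_[p] := ((zO hζ 2 : ℂ_[p]) - 1) ^ p with hY
    have h2' : ‖X - Y‖ ≤ (p : ℝ)⁻¹ ^ (1 + 1) := h2
    apply le_antisymm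
    · have e : X = (X - Y) + Y := by ring
      rw [e]
      exact (IsUltrametricDist.norm_add_le_max _ _).trans (max_le (h2'.trans h5.le) h3.le)
    · by_contra hcon
      push Not at hcon
      have e : Y = X - (X - Y) := by ring
      have h6 : ‖Y‖ < r := by
        rw [e]
        exact lt_of_le_of_lt (normC_sub_max _ _) (max_lt hcon (lt_of_le_of_lt h2' h5))
      rw [h3] at h6
      exact lt_irrefl _ h6
  rw [h4]
  exact h1

lemma nu_pow (x : OFlat p) (n : ℕ) : nu (x ^ n) = nu x ^ n := by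
  unfold nu
  rw [map_pow]
  push_cast
  rw [norm_pow]

/-- The norm of the untilt of the reduction of `w`. -/
lemma nu_wel : nu ((wel hζ).coeff 0) = (p : ℝ)⁻¹ := by
  have hp0 : (0 : ℝ) < p := by exact_mod_cast hp.out.pos
  have h1 : (wel hζ).coeff 0 * (eps hζ 1 - 1) = (eps hζ 1 - 1) ^ p := by
    have h2 := congrArg (WittVector.constantCoeff (p := p)) (wel_mul_vel hζ)
    rw [map_mul] at h2
    have h3 : WittVector.constantCoeff (vel hζ) = eps hζ 1 - 1 := by
      unfold vel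
      rw [map_sub, map_one]
      simp [WittVector.constantCoeff]
    have h4 : WittVector.constantCoeff (tel hζ) = eps hζ 0 - 1 := by
      unfold tel
      rw [map_sub, map_one]
      simp [WittVector.constantCoeff]
    rw [h3, h4] at h2
    rw [sub_pow_char, one_pow, eps_pow]
    exact h2
  have h2 := congrArg nu h1
  rw [nu_mul, nu_pow] at h2
  have h3 := nu_eps_sub_one hζ
  have hp1 : p = (p - 1) + 1 := by have := hp.out.two_le; omega
  have h4 : nu (eps hζ 1 - 1) ≠ 0 := by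
    intro h
    rw [h, zero_pow (by have := hp.out.two_le; omega)] at h3
    exact (inv_pos.mpr hp0).ne h3
  have h5 : nu (eps hζ 1 - 1) ^ p = (p : ℝ)⁻¹ * nu (eps hζ 1 - 1) := by
    rw [← h3, ← pow_succ, ← hp1]
  rw [h5] at h2
  exact mul_right_cancel₀ h4 h2

lemma sub_teichmuller_dvd (x : AInf p) :
    ∃ y : AInf p, x = WittVector.teichmuller p (x.coeff 0) + (p : AInf p) * y := by
  have h1 : x - WittVector.teichmuller p (x.coeff 0) ∈ span {(p : AInf p)} := by
    rw [WittVector.mem_span_p_iff_coeff_zero_eq_zero]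
    have : WittVector.constantCoeff (x - WittVector.teichmuller p (x.coeff 0)) = 0 := by
      rw [map_sub]
      simp [WittVector.constantCoeff]
    exact this
  obtain ⟨y, hy⟩ := mem_span_singleton.mp h1
  exact ⟨y, by rw [← hy]; ring⟩

/-- One step of the approximation. -/
lemma ker_step (x : AInf p) (hx : WittVector.fontaineTheta 𝓞_ℂ_[p] p x = 0) :
    ∃ y x' : AInf p, x = wel hζ * y + (p : AInf p) * x' ∧
      WittVector.fontaineTheta 𝓞_ℂ_[p] p x' = 0 := by
  have hp0 : (0 : ℝ) < p := by exact_mod_cast hp.out.pos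
  have hpc : (p : 𝓞_ℂ_[p]) ≠ 0 := by
    intro h
    have h1 : (((p : 𝓞_ℂ_[p]) : 𝓞_ℂ_[p]) : ℂ_[p]) = 0 := by rw [h]; rfl
    push_cast at h1
    exact hp.out.ne_zero (by exact_mod_cast h1)
  obtain ⟨z, hz⟩ := sub_teichmuller_dvd x
  have h1 : nu (x.coeff 0) ≤ (p : ℝ)⁻¹ := by
    have h2 := congrArg (WittVector.fontaineTheta 𝓞_ℂ_[p] p) hz
    rw [hx, map_add, map_mul, map_natCast, WittVector.fontaineTheta_teichmuller] at h2
    have h3 : (x.coeff 0).untilt = -((p : 𝓞_ℂ_[p]) * WittVector.fontaineTheta 𝓞_ℂ_[p] p z) :=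
      eq_neg_of_add_eq_zero_left h2.symm
    unfold nu
    rw [h3]
    push_cast
    rw [norm_neg, norm_mul, normC_p]
    exact mul_le_of_le_one_right (by positivity) (norm_int_le _)
  obtain ⟨c, hc⟩ := exists_mul (a := (wel hζ).coeff 0) (b := x.coeff 0)
    (by rw [nu_wel]; positivity) (by rw [nu_wel]; exact h1)
  have h2 : x - wel hζ * WittVector.teichmuller p c ∈ span {(p : AInf p)} := by
    rw [WittVector.mem_span_p_iff_coeff_zero_eq_zero]
    have : WittVector.constantCoeff (x - wel hζ * WittVector.teichmuller p c) = 0 := by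
      rw [map_sub, map_mul]
      simp only [WittVector.constantCoeff_apply, WittVector.teichmuller_coeff_zero]
      rw [← hc, sub_self]
    exact this
  obtain ⟨x', hx'⟩ := mem_span_singleton.mp h2
  refine ⟨WittVector.teichmuller p c, x', by rw [← hx']; ring, ?_⟩
  have h3 := congrArg (WittVector.fontaineTheta 𝓞_ℂ_[p] p) hx'
  rw [map_sub, map_mul, map_mul, hx, theta_wel, zero_mul, sub_zero, map_natCast] at h3
  exact (mul_eq_zero.mp h3.symm).resolve_left hpc

/-- **The kernel of `θ` is generated by `w`.** -/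
theorem ker_theta (x : AInf p) (hx : WittVector.fontaineTheta 𝓞_ℂ_[p] p x = 0) :
    ∃ y : AInf p, x = wel hζ * y := by
  classical
  choose! Y X h1 h2 using fun x : AInf p => ker_step hζ x
  let xs : ℕ → AInf p := fun n => X^[n] x
  have hxs : ∀ n, WittVector.fontaineTheta 𝓞_ℂ_[p] p (xs n) = 0 := by
    intro n
    induction n with
    | zero => exact hx
    | succ n ih =>
      change WittVector.fontaineTheta 𝓞_ℂ_[p] p (X^[n + 1] x) = 0
      rw [Function.iterate_succ_apply']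
      exact h2 _ ih
  let ys : ℕ → AInf p := fun n => ∑ i ∈ Finset.range n, (p : AInf p) ^ i * Y (xs i)
  have hstep : ∀ n, x = wel hζ * ys n + (p : AInf p) ^ n * xs n := by
    intro n
    induction n with
    | zero => simp [ys, xs]
    | succ n ih =>
      have h3 := h1 (xs n) (hxs n)
      have h4 : X (xs n) = xs (n + 1) := by
        change X (X^[n] x) = X^[n + 1] x
        rw [Function.iterate_succ_apply']
      rw [h4] at h3
      have h5 : ys (n + 1) = ys n + (p : AInf p) ^ n * Y (xs n) := Finset.sum_range_succ _ _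
      rw [h5]
      calc x = wel hζ * ys n + (p : AInf p) ^ n * xs n := ih
        _ = wel hζ * ys n + (p : AInf p) ^ n * (wel hζ * Y (xs n) + (p : AInf p) * xs (n + 1)) := by
            rw [← h3]
        _ = _ := by ring
  obtain ⟨L, hL⟩ := IsPrecomplete.prec' (I := span {(p : AInf p)}) (M := AInf p) ys (by
    intro m n hmn
    rw [SModEq.sub_mem, smul_eq_mul, mul_top, span_singleton_pow, mem_span_singleton]
    induction n, hmn using Nat.le_induction with
    | base => simp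
    | succ n hmn ih =>
      have h5 : ys (n + 1) = ys n + (p : AInf p) ^ n * Y (xs n) := Finset.sum_range_succ _ _
      rw [h5, sub_add_eq_sub_sub]
      exact dvd_sub ih ((pow_dvd_pow _ hmn).mul_right _))
  refine ⟨L, ?_⟩
  rw [IsHausdorff.eq_iff_smodEq (I := span {(p : AInf p)})]
  intro n
  have h3 := hL n
  rw [SModEq.sub_mem, smul_eq_mul, mul_top, span_singleton_pow, mem_span_singleton] at h3 ⊢
  have h4 : x - wel hζ * L = wel hζ * (ys n - L) + (p : AInf p) ^ n * xs n := by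
    nth_rw 1 [hstep n]
    ring
  rw [h4]
  exact dvd_add (h3.mul_left _) (dvd_mul_right _ _)

end eps

end Pool.Agent.W2helper47.FM
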