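import Pool.Agent.W2helper47.FM.BdR

/-!
# Period rings

`PeriodRing l` is the type of the commutative rings `B` with a homomorphism from `ℚ_l` and an action of
the absolute Galois group of `ℚ_l` which is trivial on `ℚ_l`. We define Fontaine's `B_dR` (as in
Mathlib) and `ℂ_l` as period rings.
-/

set_option autoImplicit false

namespace Pool.Agent.W2helper47.FM

open Ideal

/-- A commutative ring `B` with a homomorphism from `ℚ_l` and an action of the absolute Galois group
of `ℚ_l` by endomorphisms of the ring `B` which is trivial on the image of `ℚ_l`. -/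
structure PeriodRing (l : ℕ) [Fact l.Prime] where
  B : Type
  [ring : CommRing B]
  incl : ℚ_[l] →+* B
  act : Gal(PadicAlgCl l/ℚ_[l]) → B →+* B
  act_one : act 1 = RingHom.id B
  act_mul : ∀ σ τ, act (σ * τ) = (act σ).comp (act τ)
  act_incl : ∀ τ a, act τ (incl a) = incl a

attribute [instance] PeriodRing.ring

/-- The field `ℂ_l` as a period ring. -/
noncomputable def periodC (l : ℕ) [Fact l.Prime] : PeriodRing l where
  B := ℂ_[l]
  incl := algebraMap ℚ_[l] ℂ_[l]
  act := actC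
  act_one := RingHom.ext actC_one
  act_mul := fun σ τ => RingHom.ext (actC_mul σ τ)
  act_incl := actC_algebraMap

/-! ### The map from `ℚ_p` to `B_dR` -/

section generic

variable (R : Type) [CommRing R] (p : ℕ) [hp : Fact p.Prime]
    [Fact ¬IsUnit (p : R)] [IsAdicComplete (span {(p : R)}) R]

/-- The canonical map from the ring `ℤ_p`, which is the ring of Witt vectors of the field with `p`
elements, to the ring `A_inf`, which is the ring of Witt vectors of the tilt of `R`. -/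
noncomputable def zpToW : ℤ_[p] →+* WittVector p (PreTilt R p) :=
  (WittVector.map (ZMod.castHom (dvd_refl p) (PreTilt R p))).comp
    (WittVector.equiv p).symm.toRingHom

/-- The canonical map from `ℤ_p` to `B_dR`. -/
noncomputable def zpToB : ℤ_[p] →+* BDeRham R p :=
  (toBdr R p).comp ((toBdrPlus R p).comp ((algebraMap (WittVector p (PreTilt R p))
    (Localization.Away (p : WittVector p (PreTilt R p)))).comp (zpToW R p)))

lemma isUnit_zpToB (y : nonZeroDivisors ℤ_[p]) : IsUnit (zpToB R p y) := by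
  have hy : (y : ℤ_[p]) ≠ 0 := nonZeroDivisors.coe_ne_zero y
  rw [PadicInt.unitCoeff_spec hy, map_mul, map_pow]
  refine IsUnit.mul (IsUnit.map _ (Units.isUnit _)) (IsUnit.pow _ ?_)
  unfold zpToB
  rw [RingHom.comp_apply, RingHom.comp_apply, RingHom.comp_apply]
  refine IsUnit.map _ (IsUnit.map _ ?_)
  rw [map_natCast]
  exact IsLocalization.Away.algebraMap_isUnit _

/-- The canonical map from `ℚ_p` to `B_dR`: it extends `zpToB`. -/
noncomputable def qpToB : ℚ_[p] →+* BDeRham R p :=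
  IsLocalization.lift (M := nonZeroDivisors ℤ_[p]) (isUnit_zpToB R p)

lemma qpToB_coe (z : ℤ_[p]) : qpToB R p (z : ℚ_[p]) = zpToB R p z :=
  IsLocalization.lift_eq (M := nonZeroDivisors ℤ_[p]) (isUnit_zpToB R p) z

variable {R p}

lemma ainfMap_zpToW (φ : R →+* R) (z : ℤ_[p]) : ainfMap φ (zpToW R p z) = zpToW R p z := by
  unfold zpToW ainfMap
  rw [RingHom.comp_apply]
  ext n
  rw [WittVector.map_coeff, WittVector.map_coeff]
  have h : (tiltMap φ).comp (ZMod.castHom (dvd_refl p) (PreTilt R p)) =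
      ZMod.castHom (dvd_refl p) (PreTilt R p) := Subsingleton.elim _ _
  exact RingHom.congr_fun h _

lemma bdrMap_zpToB (φ ψ : R →+* R) (h : φ.comp ψ = RingHom.id R) (z : ℤ_[p]) :
    bdrMap φ ψ h (zpToB R p z) = zpToB R p z := by
  unfold zpToB
  rw [RingHom.comp_apply, RingHom.comp_apply, RingHom.comp_apply, bdrMap_toBdr,
    bdrPlusMap_toBdrPlus, ainfPMap_algebraMap, ainfMap_zpToW]

lemma bdrMap_qpToB (φ ψ : R →+* R) (h : φ.comp ψ = RingHom.id R) (a : ℚ_[p]) :
    bdrMap φ ψ h (qpToB R p a) = qpToB R p a := by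
  have h1 : (bdrMap φ ψ h).comp (qpToB R p) = qpToB R p := by
    refine qp_hom_ext fun z => ?_
    rw [RingHom.comp_apply, qpToB_coe, bdrMap_zpToB]
  exact congrArg (fun f => f a) h1

lemma bdr_hom_ext {S : Type*} [CommRing S] {f g : BDeRham R p →+* S}
    (h : ∀ x : BDeRhamPlus R p, f (toBdr R p x) = g (toBdr R p x)) : f = g :=
  IsLocalization.ringHom_ext (R := BDeRhamPlus R p) (S := Localization (genSet R p)) (genSet R p)
    (RingHom.ext h)

lemma bdrPlusMap_comp (φ ψ : R →+* R) (x : BDeRhamPlus R p) :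
    bdrPlusMap (φ.comp ψ) x = bdrPlusMap φ (bdrPlusMap ψ x) := by
  refine bdrPlus_ext fun n => ?_
  rw [bdrEval_map, bdrEval_map, bdrEval_map]
  obtain ⟨a, ha⟩ := Ideal.Quotient.mk_surjective (bdrEval R p n x)
  rw [← ha, Ideal.quotientMap_mk, Ideal.quotientMap_mk, Ideal.quotientMap_mk, ainfPMap_comp]

lemma bdrPlusMap_id (x : BDeRhamPlus R p) : bdrPlusMap (RingHom.id R) x = x := by
  refine bdrPlus_ext fun n => ?_
  rw [bdrEval_map]
  obtain ⟨a, ha⟩ := Ideal.Quotient.mk_surjective (bdrEval R p n x)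
  rw [← ha, Ideal.quotientMap_mk, ainfPMap_id]

end generic

/-- The period ring `B_dR` of a `p`-adically complete ring `R` with an action of the absolute Galois
group of `ℚ_p`: Mathlib's `BDeRham R p`, with the action given by functoriality. -/
noncomputable def periodB (R : Type) [CommRing R] (p : ℕ) [hp : Fact p.Prime]
    [Fact ¬IsUnit (p : R)] [IsAdicComplete (span {(p : R)}) R]
    (a : Gal(PadicAlgCl p/ℚ_[p]) → R →+* R) (h1 : a 1 = RingHom.id R)
    (h2 : ∀ σ τ, a (σ * τ) = (a σ).comp (a τ)) : PeriodRing p where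
  B := BDeRham R p
  incl := qpToB R p
  act σ := bdrMap (a σ) (a σ⁻¹) (by rw [← h2, mul_inv_cancel, h1])
  act_one := by
    refine bdr_hom_ext fun x => ?_
    rw [bdrMap_toBdr, RingHom.id_apply, h1, bdrPlusMap_id]
  act_mul σ τ := by
    refine bdr_hom_ext fun x => ?_
    rw [RingHom.comp_apply, bdrMap_toBdr, bdrMap_toBdr, bdrMap_toBdr, h2, bdrPlusMap_comp]
  act_incl τ q := bdrMap_qpToB _ _ _ q

variable {p : ℕ} [hp : Fact p.Prime]

/-- The action of the Galois group on the ring of integers of `ℂ_p`. -/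
noncomputable def galO (σ : Gal(PadicAlgCl p/ℚ_[p])) : 𝓞_ℂ_[p] →+* 𝓞_ℂ_[p] :=
  RingHom.restrict (actC σ) 𝓞_ℂ_[p] 𝓞_ℂ_[p] fun x hx => by
    rw [mem_int_iff, norm_actC]; exact norm_int_le ⟨x, hx⟩

lemma galO_eq (σ : Gal(PadicAlgCl p/ℚ_[p])) : galO σ = actO σ := rfl

lemma galO_one : galO (1 : Gal(PadicAlgCl p/ℚ_[p])) = RingHom.id 𝓞_ℂ_[p] :=
  RingHom.ext fun x => Subtype.ext (actC_one (x : ℂ_[p]))

lemma galO_mul (σ τ : Gal(PadicAlgCl p/ℚ_[p])) : galO (σ * τ) = (galO σ).comp (galO τ) :=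
  RingHom.ext fun x => Subtype.ext (actC_mul σ τ (x : ℂ_[p]))

/-- Fontaine's field `B_dR` as a period ring. -/
noncomputable def periodBdR (p : ℕ) [Fact p.Prime] : PeriodRing p :=
  periodB 𝓞_ℂ_[p] p galO galO_one galO_mul

lemma qpToB_eq : qpToB 𝓞_ℂ_[p] p = qpToBdR p := by
  refine qp_hom_ext fun z => ?_
  rw [qpToB_coe]
  unfold qpToBdR
  rw [RingHom.comp_apply, RingHom.comp_apply, qpToAInfP_coe]
  rfl

instance nontrivial_periodBdR : Nontrivial (periodBdR p).B := nontrivialBdR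

/-- **Eigenvectors in `B_dR`.** -/
theorem no_eigenvector' (U : Subgroup Gal(PadicAlgCl p/ℚ_[p])) [U.FiniteIndex] {e : ℤ} (he : Odd e)
    (η : Gal(PadicAlgCl p/ℚ_[p]) → ℚ_[p])
    (hη : ∀ σ ∈ U, η σ ^ 2 = (((chi σ ^ e : ℤ_[p]ˣ) : ℤ_[p]) : ℚ_[p])) (b : (periodBdR p).B)
    (hb : ∀ σ ∈ U, (periodBdR p).act σ b = (periodBdR p).incl (η σ) * b) : b = 0 := by
  refine no_eigenvector U he η hη b fun σ hσ => ?_
  rw [← qpToB_eq]
  exact hb σ hσ

end Pool.Agent.W2helper47.FM
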