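import Pool.Agent.W2helper47.FM.CycF

/-!
# The inverse of the square root of the cyclotomic character
-/

set_option autoImplicit false
set_option linter.unusedSectionVars false

namespace Pool.Agent.W2helper47.FM

open NumberField IsDedekindDomain
open scoped Matrix

variable (l : ℕ) [hl : Fact l.Prime] (F : Type*) [Field F] [NumberField F]

/-- The character `σ ↦ s(χ(σ)⁻¹)`, with values in the units of `PadicAlgCl l`. -/
noncomputable def rho0 : Gal(AlgebraicClosure F/F) →* (PadicAlgCl l)ˣ :=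
  (rootHom l).comp (cyc l F)⁻¹

/-- The character, as a representation of dimension one. -/
noncomputable def rho : Gal(AlgebraicClosure F/F) →* GL (Fin 1) (PadicAlgCl l) :=
  (Units.map ((Matrix.scalar (Fin 1) : PadicAlgCl l →+* Matrix (Fin 1) (Fin 1) (PadicAlgCl l)) :
    PadicAlgCl l →* Matrix (Fin 1) (Fin 1) (PadicAlgCl l))).comp (rho0 l F)

variable {l F}

lemma rho0_apply (σ : Gal(AlgebraicClosure F/F)) : rho0 l F σ = rootHom l (cyc l F σ)⁻¹ := rfl

lemma rho_val (σ : Gal(AlgebraicClosure F/F)) :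
    (rho l F σ).val = Matrix.scalar (Fin 1) (rho0 l F σ : PadicAlgCl l) := rfl

lemma rho_mulVec (σ : Gal(AlgebraicClosure F/F)) (x : Space l 1) :
    (rho l F σ).val *ᵥ x = (rho0 l F σ : PadicAlgCl l) • x := by
  rw [rho_val, Matrix.scalar_apply, ← Matrix.smul_one_eq_diagonal, Matrix.smul_mulVec,
    Matrix.one_mulVec]

lemma continuous_rho0 : Continuous (rho0 l F) :=
  continuous_rootHom.comp (continuous_cyc l F).inv

lemma continuous_rho : Continuous (rho l F) := by
  have h1 : Continuous ((Matrix.scalar (Fin 1) :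
      PadicAlgCl l →+* Matrix (Fin 1) (Fin 1) (PadicAlgCl l)) :
      PadicAlgCl l →* Matrix (Fin 1) (Fin 1) (PadicAlgCl l)) := by
    change Continuous (fun x : PadicAlgCl l => Matrix.diagonal (fun _ : Fin 1 => x))
    exact Continuous.matrix_diagonal (continuous_pi fun _ => continuous_id)
  exact (Continuous.units_map _ h1).comp continuous_rho0

lemma submodule_one (W : Submodule (PadicAlgCl l) (Space l 1)) : W = ⊥ ∨ W = ⊤ := by
  by_cases h : W = ⊥
  · exact Or.inl h
  · right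
    obtain ⟨v, hv, hv0⟩ := W.ne_bot_iff.mp h
    have h0 : v 0 ≠ 0 := by
      intro h1
      apply hv0
      ext i
      rw [Subsingleton.elim i 0, h1]
      rfl
    rw [eq_top_iff]
    intro w _
    have h1 : w = (w 0 / v 0) • v := by
      ext i
      rw [Subsingleton.elim i 0, Pi.smul_apply, smul_eq_mul, div_mul_cancel₀ _ h0]
    rw [h1]
    exact W.smul_mem _ hv

lemma linRep_rho (σ : Gal(AlgebraicClosure F/F)) (x : Space l 1) :
    linRep (rho l F) σ x = (rho0 l F σ : PadicAlgCl l) • x := rho_mulVec σ x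

lemma isIrred_rho : IsIrred (linRep (rho l F)) := ⟨inferInstance, fun W _ => submodule_one W⟩

variable {P : Ideal (𝓞 (AlgebraicClosure F))} [hP : P.IsMaximal]

lemma cyc_inertia (hlP : (l : 𝓞 (AlgebraicClosure F)) ∉ P) {σ : Gal(AlgebraicClosure F/F)}
    (h : IsFrobPow P σ 0) : cyc l F σ = 1 := by
  have h1 := cyc_frob hlP 0 0 (by simpa using h)
  exact Units.ext (by simpa using h1)

lemma rho0_inertia (hlP : (l : 𝓞 (AlgebraicClosure F)) ∉ P) {σ : Gal(AlgebraicClosure F/F)}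
    (h : IsFrobPow P σ 0) : rho0 l F σ = 1 := by
  rw [rho0_apply, cyc_inertia hlP h, inv_one, map_one]

lemma rho_inertia (hlP : (l : 𝓞 (AlgebraicClosure F)) ∉ P) {σ : Gal(AlgebraicClosure F/F)}
    (h : IsFrobPow P σ 0) : rho l F σ = 1 := by
  apply Units.ext
  rw [rho_val, rho0_inertia hlP h, Units.val_one, map_one, Units.val_one]

lemma unramified_rho {v : HeightOneSpectrum (𝓞 F)} (hv : (l : 𝓞 F) ∉ v.asIdeal) :
    IsUnramifiedAt (rho l F) v := by
  intro P hP hPv σ hσ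
  have _ := hP
  refine rho_inertia (P := P) ?_ (isFrobPow_zero_iff.mpr hσ)
  intro h
  apply hv
  rw [← hPv, Ideal.under_def, Ideal.mem_comap, map_natCast]
  exact h

lemma finite_ramified : {v : HeightOneSpectrum (𝓞 F) | ¬ IsUnramifiedAt (rho l F) v}.Finite := by
  have h0 : (Ideal.span {(l : 𝓞 F)}) ≠ 0 := by
    rw [Ne, Ideal.zero_eq_bot, Ideal.span_singleton_eq_bot]
    exact Nat.cast_ne_zero.mpr hl.out.ne_zero
  refine (Ideal.finite_factors h0).subset fun v hv => ?_
  change v.asIdeal ∣ Ideal.span {(l : 𝓞 F)}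
  rw [Ideal.dvd_span_singleton]
  by_contra h
  exact hv (unramified_rho h)

/-- The eigenvalue `α` of a geometric Frobenius. -/
lemma rho0_frob (hlP : (l : 𝓞 (AlgebraicClosure F)) ∉ P) {Φ : Gal(AlgebraicClosure F/F)}
    (h : IsFrobPow P Φ 1) :
    (rho0 l F Φ : PadicAlgCl l) ^ (2 * (nearOne l).index) =
      ((resCard P ^ (nearOne l).index : ℕ) : PadicAlgCl l) := by
  have h1 := cyc_frob hlP 1 0 (by simpa using h)
  rw [pow_one, pow_zero] at h1
  have h2 : (((cyc l F Φ)⁻¹ : ℤ_[l]ˣ) : ℤ_[l]) = (resCard P : ℤ_[l]) := by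
    calc (((cyc l F Φ)⁻¹ : ℤ_[l]ˣ) : ℤ_[l]) = (((cyc l F Φ)⁻¹ : ℤ_[l]ˣ) : ℤ_[l]) *
        ((cyc l F Φ : ℤ_[l]) * (resCard P : ℤ_[l])) := by rw [h1, mul_one]
      _ = (resCard P : ℤ_[l]) := by rw [← mul_assoc, Units.inv_mul, one_mul]
  have h3 := congrArg (Units.val (α := PadicAlgCl l)) (rootHom_pow (cyc l F Φ)⁻¹)
  rw [Units.val_pow_eq_pow_val, Units.val_pow_eq_pow_val, coe_unitsIncl, h2,
    PadicInt.coe_natCast, map_natCast] at h3
  rw [rho0_apply, h3, Nat.cast_pow]

lemma index_pos : 0 < (nearOne l).index := Nat.pos_of_ne_zero Subgroup.FiniteIndex.index_ne_zero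

lemma isIntegral_of_pow_eq {α : PadicAlgCl l} {m q : ℕ} (hm : 0 < m)
    (h : α ^ m = ((q : ℕ) : PadicAlgCl l)) : IsIntegral ℤ α := by
  refine IsIntegral.of_pow hm ?_
  rw [h]
  exact isIntegral_algebraMap (R := ℤ) (x := (q : ℤ)) |> fun h => by simpa using h

lemma isWeilNumber_of_pow_eq {α : PadicAlgCl l} {m q : ℕ} (hm : 0 < m)
    (h : α ^ (2 * m) = ((q ^ m : ℕ) : PadicAlgCl l)) : IsWeilNumber q 1 α := by
  have hint : IsIntegral ℤ α := isIntegral_of_pow_eq (by positivity) h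
  refine ⟨hint.tower_top.isAlgebraic, fun z hz => ?_⟩
  have h1 : Polynomial.aeval α (Polynomial.X ^ (2 * m) - Polynomial.C ((q : ℚ) ^ m)) = 0 := by
    rw [map_sub, map_pow, Polynomial.aeval_X, Polynomial.aeval_C, h]
    simp
  obtain ⟨g, hg⟩ := minpoly.dvd ℚ α h1
  have h2 : Polynomial.aeval z (Polynomial.X ^ (2 * m) - Polynomial.C ((q : ℚ) ^ m)) = 0 := by
    rw [hg, map_mul, hz, zero_mul]
  rw [map_sub, map_pow, Polynomial.aeval_X, Polynomial.aeval_C, sub_eq_zero] at h2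
  have h3 : ‖z‖ ^ (2 * m) = (q : ℝ) ^ m := by
    rw [← norm_pow, h2]
    simp
  have h4 : ((q : ℝ) ^ (((1 : ℤ) : ℝ) / 2)) ^ (2 * m) = (q : ℝ) ^ m := by
    rw [← Real.rpow_natCast, ← Real.rpow_mul (Nat.cast_nonneg q), ← Real.rpow_natCast]
    congr 1
    push_cast
    ring
  exact (pow_left_inj₀ (norm_nonneg z) (Real.rpow_nonneg (Nat.cast_nonneg q) _)
    (by positivity)).mp (h3.trans h4.symm)

end Pool.Agent.W2helper47.FM
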