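import Pool.Agent.W2helper47.FM.NotDR

/-!
# Checks of the definitions

The trivial representation satisfies condition (1), with zero as its only Hodge-Tate weight, and the
cyclotomic character has the Hodge-Tate weight `-1`.
-/

set_option autoImplicit false
set_option linter.unusedSectionVars false

namespace Pool.Agent.W2helper47.FM

open NumberField IsDedekindDomain
open scoped Matrix TensorProduct

variable {l : ℕ} [hl : Fact l.Prime] {F : Type*} [Field F] [NumberField F] {n : ℕ}

lemma linRep_one (σ : Gal(AlgebraicClosure F/F)) :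
    (linRep (1 : Gal(AlgebraicClosure F/F) →* GL (Fin n) (PadicAlgCl l)) σ).restrictScalars ℚ_[l] =
      LinearMap.id := by
  refine LinearMap.ext fun v => ?_
  change (1 : Matrix (Fin n) (Fin n) (PadicAlgCl l)) *ᵥ v = v
  rw [Matrix.one_mulVec]

theorem deRham_trivial (ι : AlgebraicClosure F →+* PadicAlgCl l) :
    IsDeRhamAt ι (1 : Gal(AlgebraicClosure F/F) →* GL (Fin n) (PadicAlgCl l)) := by
  unfold IsDeRhamAt IsSpannedByInvariants
  rw [eq_top_iff]
  intro w _
  induction w with
  | zero => exact Submodule.zero_mem _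
  | add x y hx hy => exact Submodule.add_mem _ (hx trivial) (hy trivial)
  | tmul c v =>
    have h1 : c ⊗ₜ[ℚ_[l]] v = c • ((1 : (periodBdR l).B) ⊗ₜ[ℚ_[l]] v) := by
      rw [TensorProduct.smul_tmul', smul_eq_mul, mul_one]
    rw [h1]
    refine Submodule.smul_mem _ _ (Submodule.subset_span ?_)
    intro g _
    simp only [linRep_one, TensorProduct.map_tmul, LinearMap.id_apply, one_smul]
    congr 1
    exact map_one ((periodBdR l).act g.1)

theorem weight_trivial (ι : AlgebraicClosure F →+* PadicAlgCl l) (i : ℤ)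
    (h : IsHodgeTateWeight ι
      (1 : Gal(AlgebraicClosure F/F) →* GL (Fin n) (PadicAlgCl l)) i) : i = 0 := by
  obtain ⟨w, hw, hw0⟩ := h
  by_contra hi
  apply hw0
  let b := Module.Basis.ofVectorSpace ℚ_[l] (Space l n)
  apply (b.baseChange (periodC l).B).ext_elem
  intro j
  rw [map_zero, Finsupp.zero_apply]
  refine tate_finiteIndex (smallU l F) (m := -i) (neg_ne_zero.mpr hi) _ fun τ hτ => ?_
  obtain ⟨-, σ, h2⟩ := mem_smallU hτ ι
  have h3 := hw (τ, σ) h2
  simp only [linRep_one] at h3
  have h4 := repr_map (periodC l) b τ w j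
  rw [h3, ← algebraMap_smul (periodC l).B _ w, map_smul, Finsupp.smul_apply, smul_eq_mul] at h4
  exact h4.symm

theorem condition1_trivial :
    Condition1 (1 : Gal(AlgebraicClosure F/F) →* GL (Fin n) (PadicAlgCl l)) :=
  fun ι => ⟨deRham_trivial ι, fun _ h => (weight_trivial ι _ h).ge⟩

/-- The cyclotomic character as a representation of dimension one. -/
noncomputable def cycRep : Gal(AlgebraicClosure F/F) →* GL (Fin 1) (PadicAlgCl l) :=
  (Units.map ((Matrix.scalar (Fin 1) : PadicAlgCl l →+* Matrix (Fin 1) (Fin 1) (PadicAlgCl l)) :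
    PadicAlgCl l →* Matrix (Fin 1) (Fin 1) (PadicAlgCl l))).comp ((unitsIncl l).comp (cyc l F))

theorem weight_cyc (ι : AlgebraicClosure F →+* PadicAlgCl l) :
    IsHodgeTateWeight ι (cycRep (l := l) (F := F)) (-1) := by
  refine ⟨(1 : (periodC l).B) ⊗ₜ[ℚ_[l]] (fun _ => 1 : Space l 1), fun g h => ?_, ?_⟩
  · rw [TensorProduct.map_tmul]
    have h1 : (linRep (cycRep (l := l) (F := F)) g.2).restrictScalars ℚ_[l]
        (fun _ => 1 : Space l 1) =
        (((chi g.1 ^ (-(-1) : ℤ) : ℤ_[l]ˣ) : ℤ_[l]) : ℚ_[l]) • (fun _ => 1 : Space l 1) := by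
      rw [neg_neg, zpow_one, chi_eq_cyc h]
      change (Matrix.scalar (Fin 1) (unitsIncl l (cyc l F g.2) : PadicAlgCl l)) *ᵥ _ = _
      rw [Matrix.scalar_apply, ← Matrix.smul_one_eq_diagonal, Matrix.smul_mulVec,
        Matrix.one_mulVec, coe_unitsIncl, algebraMap_smul]
    rw [h1, TensorProduct.tmul_smul]
    congr 2
    exact map_one ((periodC l).act g.1)
  · intro h0
    let b := Module.Basis.ofVectorSpace ℚ_[l] (Space l 1)
    have hv : (fun _ => 1 : Space l 1) ≠ 0 := fun h => one_ne_zero (congrFun h 0)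
    obtain ⟨j, hj⟩ : ∃ j, b.repr (fun _ => 1 : Space l 1) j ≠ 0 := by
      by_contra hcon
      push Not at hcon
      exact hv (b.ext_elem fun j => by rw [hcon j, map_zero, Finsupp.zero_apply])
    have h1 := congrArg (fun w => (b.baseChange (periodC l).B).repr w j) h0
    simp only [Module.Basis.baseChange_repr_tmul, map_zero, Finsupp.zero_apply] at h1
    rw [Algebra.smul_def, mul_one] at h1
    have h2 : algebraMap ℚ_[l] ℂ_[l] (b.repr (fun _ => 1 : Space l 1) j) = 0 := h1
    rw [map_eq_zero] at h2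
    exact hj h2

end Pool.Agent.W2helper47.FM
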