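import Pool.Agent.W2helper47.FM.ActC

/-!
# Tate's theorem on the invariants of the twists of `ℂ_p`

There is no nonzero `x` in `ℂ_p` with `g x = χ(g) ^ m x` for all `g` in a subgroup of finite index of
the absolute Galois group of `ℚ_p`, if `m ≠ 0`, where `χ` is the cyclotomic character.
-/

set_option autoImplicit false

namespace Pool.Agent.W2helper47.FM

open Polynomial

variable {p : ℕ} [hp : Fact p.Prime]

/-! ### Towers of roots of unity -/

/-- `ζ n` is a primitive root of unity of order `p ^ n` and `ζ (n + 1) ^ p = ζ n`. -/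
structure IsTower (ζ : ℕ → PadicAlgCl p) : Prop where
  prim : ∀ n, IsPrimitiveRoot (ζ n) (p ^ n)
  pow : ∀ n, ζ (n + 1) ^ p = ζ n

lemma IsTower.pow' {ζ : ℕ → PadicAlgCl p} (h : IsTower ζ) (n k : ℕ) :
    ζ (n + k) ^ p ^ k = ζ n := by
  induction k with
  | zero => simp
  | succ k ih => rw [← add_assoc, pow_succ', pow_mul, h.pow, ih]

lemma exists_tower : ∃ ζ : ℕ → PadicAlgCl p, IsTower ζ := by
  classical
  have hp0 : p ≠ 0 := hp.out.ne_zero
  -- a root of order `p ^ (n + 1)` above one of order `p ^ n`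
  have step : ∀ (n : ℕ) (z : {z : PadicAlgCl p // IsPrimitiveRoot z (p ^ n)}),
      ∃ w : {w : PadicAlgCl p // IsPrimitiveRoot w (p ^ (n + 1))}, (w : PadicAlgCl p) ^ p = z := by
    rintro n ⟨z, hz⟩
    obtain ⟨w0, hw0⟩ := HasEnoughRootsOfUnity.exists_primitiveRoot (PadicAlgCl p) (p ^ (n + 1))
    have h1 : IsPrimitiveRoot (w0 ^ p) (p ^ n) :=
      hw0.pow (pow_pos hp.out.pos _) (by rw [pow_succ'])
    obtain ⟨i, -, hi⟩ := h1.eq_pow_of_pow_eq_one hz.pow_eq_one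
    obtain ⟨j, hj⟩ : ∃ j : ℕ, ¬ p ∣ j ∧ w0 ^ (p * j) = z := by
      rcases Nat.eq_zero_or_pos n with h0 | h0
      · subst h0
        refine ⟨1, hp.out.one_lt.ne' ∘ Nat.dvd_one.mp, ?_⟩
        rw [mul_one]
        rw [pow_zero, IsPrimitiveRoot.one_right_iff] at h1 hz
        rw [h1, hz]
      · refine ⟨i, fun hd => ?_, by rw [pow_mul]; exact hi⟩
        rw [← hi] at hz
        have h2 := (h1.pow_iff_coprime (pow_pos hp.out.pos _) i).mp hz
        have h3 := h2.coprime_dvd_left hd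
        have h4 := h3.coprime_dvd_right (dvd_pow_self p h0.ne')
        exact hp.out.one_lt.ne' ((Nat.coprime_self p).mp h4)
    refine ⟨⟨w0 ^ j, hw0.pow_of_coprime j ?_⟩, ?_⟩
    · exact Nat.Coprime.pow_right _ ((Nat.Prime.coprime_iff_not_dvd hp.out).mpr hj.1).symm
    · change (w0 ^ j) ^ p = z
      rw [← pow_mul, mul_comm]
      exact hj.2
  choose nx hnx using step
  let T : ∀ n : ℕ, {z : PadicAlgCl p // IsPrimitiveRoot z (p ^ n)} := fun n =>
    Nat.rec ⟨1, by rw [pow_zero]; exact IsPrimitiveRoot.one⟩ (fun n z => nx n z) n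
  refine ⟨fun n => (T n).1, ?_⟩
  constructor
  · intro n
    exact (T n).2
  · intro n
    exact hnx n (T n)

/-! ### The cyclotomic character -/

lemma modEq_of_pow_eq {ζ : PadicAlgCl p} {N a b : ℕ} (h : IsPrimitiveRoot ζ N) (hN : N ≠ 0)
    (hab : ζ ^ a = ζ ^ b) : a ≡ b [MOD N] := by
  wlog hle : a ≤ b generalizing a b
  · exact (this hab.symm (by omega)).symm
  · obtain ⟨c, rfl⟩ := Nat.exists_eq_add_of_le hle
    have h0 : ζ ^ a ≠ 0 := pow_ne_zero _ (h.ne_zero hN)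
    have h1 : ζ ^ c = 1 := by
      rw [pow_add] at hab
      exact (mul_left_cancel₀ h0 (by rw [mul_one]; exact hab)).symm
    have h2 := (h.pow_eq_one_iff_dvd c).mp h1
    exact (Nat.modEq_iff_dvd' hle).mpr (by simpa using h2)

lemma norm_chi_sub_one {σ : Gal(PadicAlgCl p/ℚ_[p])} {n : ℕ} {ζ : PadicAlgCl p}
    (h : IsPrimitiveRoot ζ (p ^ n)) (hσ : σ ζ = ζ) :
    ‖(chi σ : ℤ_[p]) - 1‖ ≤ (p : ℝ) ^ (-(n : ℤ)) := by
  rw [PadicInt.norm_le_pow_iff_mem_span_pow, ← PadicInt.ker_toZModPow, RingHom.mem_ker,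
    map_sub, map_one, sub_eq_zero]
  have h1 := chi_spec σ h.pow_eq_one
  rw [hσ] at h1
  have h2 : ζ ^ 1 = ζ ^ ((chi σ : ℤ_[p]).toZModPow n).val := by rw [pow_one]; exact h1
  have h3 := modEq_of_pow_eq h (pow_ne_zero _ hp.out.ne_zero) h2
  rw [← ZMod.natCast_eq_natCast_iff] at h3
  rw [ZMod.natCast_zmod_val, Nat.cast_one] at h3
  exact h3.symm

lemma toZModPow_chi {σ : Gal(PadicAlgCl p/ℚ_[p])} {n a : ℕ} {ζ : PadicAlgCl p}
    (h : IsPrimitiveRoot ζ (p ^ n)) (hσ : σ ζ = ζ ^ a) :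
    (chi σ : ℤ_[p]).toZModPow n = (a : ZMod (p ^ n)) := by
  have h1 := chi_spec σ h.pow_eq_one
  rw [hσ] at h1
  have h3 := modEq_of_pow_eq h (pow_ne_zero _ hp.out.ne_zero) h1
  rw [← ZMod.natCast_eq_natCast_iff] at h3
  rw [ZMod.natCast_zmod_val] at h3
  exact h3.symm

/-- There are automorphisms fixing `ζ` such that no given power of the cyclotomic character is
trivial on them. -/
lemma exists_gamma {ζ : ℕ → PadicAlgCl p} (h : IsTower ζ) {k : ℕ} (hk : 1 ≤ k) {m : ℤ}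
    (hm : m ≠ 0) : ∃ γ : Gal(PadicAlgCl p/ℚ_[p]), γ (ζ k) = ζ k ∧ chi γ ^ m ≠ 1 := by
  classical
  by_contra hcon
  push Not at hcon
  obtain ⟨e, he⟩ : ∃ e : ℕ, m.natAbs < p ^ e := ⟨m.natAbs, Nat.lt_pow_self hp.out.one_lt⟩
  have hco : ∀ s : ℕ, (1 + p ^ k * s).Coprime p := by
    intro s
    have : p ∣ p ^ k * s := (dvd_pow_self p (by omega)).mul_right s
    rw [Nat.coprime_comm, Nat.Prime.coprime_iff_not_dvd hp.out]
    intro hd
    have h1 := (Nat.dvd_add_left this).mp hd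
    exact hp.out.one_lt.ne' (Nat.dvd_one.mp h1)
  choose σ hσ using fun s : ℕ => exists_sigma (h.prim (k + e)) (1 + p ^ k * s) (hco s)
  have hfix : ∀ s, σ s (ζ k) = ζ k := by
    intro s
    rw [← h.pow' k e, map_pow, hσ s, ← pow_mul, add_mul, one_mul, pow_add]
    rw [show p ^ k * s * p ^ e = p ^ (k + e) * s by rw [pow_add]; ring, pow_mul (ζ (k + e)),
      (h.prim (k + e)).pow_eq_one, one_pow, mul_one]
  -- the roots of `X ^ |m| - 1`
  have hpow : ∀ s, (chi (σ s) : ℤ_[p]) ^ m.natAbs = 1 := by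
    intro s
    have h1 := hcon (σ s) (hfix s)
    have h2 : chi (σ s) ^ m.natAbs = 1 := by
      rcases Int.natAbs_eq m with h3 | h3
      · rw [← zpow_natCast, ← h3]; exact h1
      · have h4 : ((m.natAbs : ℕ) : ℤ) = -m := by omega
        rw [← zpow_natCast, h4, zpow_neg, h1, inv_one]
    rw [← Units.val_pow_eq_pow_val, h2, Units.val_one]
  set P : (ℤ_[p])[X] := X ^ m.natAbs - 1 with hP
  have hm0 : 0 < m.natAbs := Int.natAbs_pos.mpr hm
  have hP0 : P ≠ 0 := by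
    rw [hP]; exact X_pow_sub_C_ne_zero hm0 1
  have hroot : ∀ s, (chi (σ s) : ℤ_[p]) ∈ P.roots.toFinset := by
    intro s
    rw [Multiset.mem_toFinset, mem_roots hP0, IsRoot.def, hP]
    simp [hpow s]
  have hinj : Set.InjOn (fun s : ℕ => (chi (σ s) : ℤ_[p])) (Finset.range (p ^ e)) := by
    intro s hs t ht hst
    rw [Finset.mem_coe, Finset.mem_range] at hs ht
    have h1 := congrArg (fun z : ℤ_[p] => z.toZModPow (k + e)) hst
    simp only [toZModPow_chi (h.prim (k + e)) (hσ s), toZModPow_chi (h.prim (k + e)) (hσ t)] at h1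
    rw [ZMod.natCast_eq_natCast_iff] at h1
    have h2 := Nat.ModEq.add_left_cancel' 1 h1
    rw [pow_add] at h2
    have h3 := Nat.ModEq.mul_left_cancel' (pow_ne_zero k hp.out.ne_zero) h2
    rw [Nat.ModEq, Nat.mod_eq_of_lt hs, Nat.mod_eq_of_lt ht] at h3
    exact h3
  have h1 := Finset.card_le_card_of_injOn (fun s : ℕ => (chi (σ s) : ℤ_[p]))
    (fun s _ => hroot s) hinj
  rw [Finset.card_range] at h1
  have h2 : P.roots.toFinset.card ≤ m.natAbs := by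
    refine (Multiset.toFinset_card_le _).trans ((card_roots' P).trans ?_)
    rw [hP]
    exact (natDegree_X_pow_sub_C (R := ℤ_[p]) (n := m.natAbs) (r := 1)).le
  omega

/-! ### Traces -/

/-- A sum over automorphisms. -/
noncomputable def tr (σ : ℕ → Gal(PadicAlgCl p/ℚ_[p])) (N : ℕ) : PadicAlgCl p →ₗ[ℚ_[p]] PadicAlgCl p :=
  ∑ s ∈ Finset.range N, (σ s).toLinearMap

lemma tr_apply (σ : ℕ → Gal(PadicAlgCl p/ℚ_[p])) (N : ℕ) (x : PadicAlgCl p) :
    tr σ N x = ∑ s ∈ Finset.range N, σ s x := by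
  simp [tr, LinearMap.sum_apply]

section trace

variable {ζ : PadicAlgCl p} {k e : ℕ} {σ : ℕ → Gal(PadicAlgCl p/ℚ_[p])}

lemma tr_zeta (h : IsPrimitiveRoot ζ (p ^ (k + e))) (hσ : ∀ s, σ s ζ = ζ ^ (1 + p ^ k * s))
    (j : ℕ) : tr σ (p ^ e) (ζ ^ j) = if p ^ e ∣ j then ((p ^ e : ℕ) : PadicAlgCl p) * ζ ^ j else 0 := by
  rw [tr_apply]
  have h1 : ∀ s, σ s (ζ ^ j) = ζ ^ j * (ζ ^ (p ^ k * j)) ^ s := by
    intro s
    rw [map_pow, hσ s, ← pow_mul, ← pow_mul, ← pow_add]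
    congr 1
    ring
  simp only [h1]
  rw [← Finset.mul_sum]
  split_ifs with hd
  · obtain ⟨c, rfl⟩ := hd
    have h2 : ζ ^ (p ^ k * (p ^ e * c)) = 1 := by
      rw [← mul_assoc, ← pow_add, pow_mul, h.pow_eq_one, one_pow]
    rw [h2]
    simp [mul_comm]
  · have h2 : ζ ^ (p ^ k * j) ≠ 1 := by
      intro h3
      have h4 := (h.pow_eq_one_iff_dvd _).mp h3
      rw [pow_add] at h4
      exact hd (Nat.dvd_of_mul_dvd_mul_left (pow_pos hp.out.pos k) h4)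
    have h3 : (ζ ^ (p ^ k * j)) ^ (p ^ e) = 1 := by
      rw [← pow_mul, show p ^ k * j * p ^ e = p ^ (k + e) * j by rw [pow_add]; ring, pow_mul,
        h.pow_eq_one, one_pow]
    rw [geom_sum_eq h2, h3, sub_self, zero_div, mul_zero]

lemma norm_tr_zeta (h : IsPrimitiveRoot ζ (p ^ (k + e))) (hσ : ∀ s, σ s ζ = ζ ^ (1 + p ^ k * s))
    (j : ℕ) : ‖tr σ (p ^ e) (ζ ^ j)‖ ≤ ((p : ℝ) ^ e)⁻¹ := by
  rw [tr_zeta h hσ]
  split_ifs
  · rw [norm_mul, norm_pow, norm_of_root (pow_ne_zero _ hp.out.ne_zero) h.pow_eq_one, one_pow,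
      mul_one, Nat.cast_pow, norm_pow, norm_p, inv_pow]
  · rw [norm_zero]
    have : (0 : ℝ) < p := by exact_mod_cast hp.out.pos
    positivity

lemma norm_tr_pi (h : IsPrimitiveRoot ζ (p ^ (k + e))) (hσ : ∀ s, σ s ζ = ζ ^ (1 + p ^ k * s))
    (j : ℕ) : ‖tr σ (p ^ e) ((ζ - 1) ^ j)‖ ≤ ((p : ℝ) ^ e)⁻¹ := by
  have hp0 : (0 : ℝ) < p := by exact_mod_cast hp.out.pos
  rw [sub_eq_add_neg, add_pow, map_sum]
  refine IsUltrametricDist.norm_sum_le_of_forall_le_of_nonneg (by positivity) fun i _ => ?_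
  have h1 : ζ ^ i * (-1) ^ (j - i) * ((j.choose i : ℕ) : PadicAlgCl p) =
      (((-1) ^ (j - i) * (j.choose i : ℕ) : ℤ) : ℚ_[p]) • ζ ^ i := by
    rw [Algebra.smul_def]
    push_cast
    ring
  rw [h1, map_smul, norm_smul]
  calc _ ≤ 1 * ((p : ℝ) ^ e)⁻¹ := by
        refine mul_le_mul (Padic.norm_int_le_one _) (norm_tr_zeta h hσ i) (norm_nonneg _) zero_le_one
    _ = _ := one_mul _

lemma norm_tr_le (hk : 1 ≤ k) (h : IsPrimitiveRoot ζ (p ^ (k + e)))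
    (hσ : ∀ s, σ s ζ = ζ ^ (1 + p ^ k * s)) {y : PadicAlgCl p}
    (hy : y ∈ IntermediateField.adjoin ℚ_[p] {ζ}) :
    ‖tr σ (p ^ e) y‖ ≤ p * ((p : ℝ) ^ e)⁻¹ * ‖y‖ := by
  have hp0 : (0 : ℝ) < p := by exact_mod_cast hp.out.pos
  obtain ⟨n, hn⟩ : ∃ n, k + e = n + 1 := ⟨k + e - 1, by omega⟩
  have h' : IsPrimitiveRoot ζ (p ^ (n + 1)) := hn ▸ h
  obtain ⟨b, hb, hb'⟩ := exists_coeff h' hy
  have h2 : tr σ (p ^ e) y = ∑ j ∈ Finset.range (Nat.totient (p ^ (n + 1))),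
      b j • tr σ (p ^ e) ((ζ - 1) ^ j) := by
    nth_rw 1 [hb]
    rw [map_sum]
    exact Finset.sum_congr rfl fun j _ => map_smul _ _ _
  rw [h2]
  refine IsUltrametricDist.norm_sum_le_of_forall_le_of_nonneg (by positivity) fun j hj => ?_
  rw [norm_smul]
  calc _ ≤ (p * ‖y‖) * ((p : ℝ) ^ e)⁻¹ :=
        mul_le_mul (hb' j (Finset.mem_range.mp hj)) (norm_tr_pi h hσ j) (norm_nonneg _)
          (by positivity)
    _ = _ := by ring

/-- Linear maps which agree on the powers of `ζ` agree on `ℚ_p(ζ)`. -/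
lemma linear_ext (f g : PadicAlgCl p →ₗ[ℚ_[p]] PadicAlgCl p) (hfg : ∀ j : ℕ, f (ζ ^ j) = g (ζ ^ j))
    {y : PadicAlgCl p} (hy : y ∈ IntermediateField.adjoin ℚ_[p] {ζ}) : f y = g y := by
  have hint : IsIntegral ℚ_[p] ζ := Algebra.IsIntegral.isIntegral ζ
  have h1 : y ∈ Algebra.adjoin ℚ_[p] {ζ} := by
    rw [← IntermediateField.adjoin_simple_toSubalgebra_of_isAlgebraic hint.isAlgebraic]
    exact hy
  rw [Algebra.adjoin_singleton_eq_range_aeval] at h1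
  obtain ⟨P, hP⟩ := h1
  have hP' : aeval ζ P = y := by simpa using hP
  rw [← hP', aeval_eq_sum_range, map_sum, map_sum]
  refine Finset.sum_congr rfl fun j _ => ?_
  rw [map_smul, map_smul, hfg]

lemma tr_gamma (h : IsPrimitiveRoot ζ (p ^ (k + e))) (hσ : ∀ s, σ s ζ = ζ ^ (1 + p ^ k * s))
    {γ : Gal(PadicAlgCl p/ℚ_[p])} (hγ : γ (ζ ^ p ^ e) = ζ ^ p ^ e) {y : PadicAlgCl p}
    (hy : y ∈ IntermediateField.adjoin ℚ_[p] {ζ}) : tr σ (p ^ e) (γ y) = tr σ (p ^ e) y := by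
  refine linear_ext ((tr σ (p ^ e)).comp γ.toLinearMap) (tr σ (p ^ e)) (fun j => ?_) hy
  obtain ⟨a, ha⟩ : ∃ a : ℕ, γ ζ = ζ ^ a := ⟨_, chi_spec γ h.pow_eq_one⟩
  have hcop : ¬ p ∣ a ∨ k + e = 0 := by
    by_contra hcon
    push Not at hcon
    obtain ⟨⟨c, hc⟩, h0⟩ := hcon
    have h1 : IsPrimitiveRoot (γ ζ) (p ^ (k + e)) := h.map_of_injective γ.injective
    rw [ha, hc, pow_mul] at h1
    have h2 : ((ζ ^ p) ^ c) ^ (p ^ (k + e - 1)) = 1 := by
      rw [← pow_mul, ← pow_mul, show p * (c * p ^ (k + e - 1)) = p ^ (k + e - 1 + 1) * c by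
        rw [pow_succ]; ring, Nat.sub_add_cancel (Nat.pos_of_ne_zero h0), pow_mul, h.pow_eq_one,
        one_pow]
    have h3 := (h1.pow_eq_one_iff_dvd _).mp h2
    have h4 := Nat.le_of_dvd (pow_pos hp.out.pos _) h3
    have h5 : p ^ (k + e - 1) < p ^ (k + e) := Nat.pow_lt_pow_right hp.out.one_lt (by omega)
    omega
  change tr σ (p ^ e) (γ (ζ ^ j)) = tr σ (p ^ e) (ζ ^ j)
  rw [map_pow, ha, ← pow_mul, tr_zeta h hσ, tr_zeta h hσ]
  by_cases hd : p ^ e ∣ j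
  · rw [if_pos (hd.mul_left a), if_pos hd]
    obtain ⟨c, rfl⟩ := hd
    rw [show ζ ^ (a * (p ^ e * c)) = ((ζ ^ a) ^ p ^ e) ^ c by rw [← pow_mul, ← pow_mul],
      ← ha, ← map_pow, hγ, ← pow_mul]
  · rcases hcop with h1 | h1
    · rw [if_neg hd, if_neg]
      intro h2
      exact hd (Nat.Coprime.dvd_of_dvd_mul_left
        (Nat.Coprime.pow_left e ((Nat.Prime.coprime_iff_not_dvd hp.out).mpr h1)) h2)
    · exfalso
      apply hd
      have : e = 0 := by omega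
      rw [this, pow_zero]
      exact one_dvd j

lemma tr_fixed (h : IsPrimitiveRoot ζ (p ^ (k + e))) (hσ : ∀ s, σ s ζ = ζ ^ (1 + p ^ k * s))
    {y : PadicAlgCl p} (hy : y ∈ IntermediateField.adjoin ℚ_[p] {ζ ^ p ^ e}) :
    tr σ (p ^ e) y = ((p ^ e : ℕ) : PadicAlgCl p) * y := by
  rw [tr_apply]
  have h1 : ∀ s, σ s y = y := by
    intro s
    have h2 := linear_ext (ζ := ζ ^ p ^ e) (σ s).toLinearMap LinearMap.id (fun j => ?_) hy
    · exact h2
    · change σ s ((ζ ^ p ^ e) ^ j) = (ζ ^ p ^ e) ^ j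
      rw [map_pow, map_pow, hσ s, ← pow_mul ζ, add_mul, one_mul, pow_add ζ,
        show p ^ k * s * p ^ e = p ^ (k + e) * s by rw [pow_add]; ring, pow_mul ζ (p ^ (k + e)),
        h.pow_eq_one, one_pow, mul_one]
  simp [h1]

end trace

end Pool.Agent.W2helper47.FM
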