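import Pool.Agent.W2helper47.FM.Tate

/-!
# Tate's theorem on the invariants of the twists of `ℂ_p`: conclusion
-/

set_option autoImplicit false

namespace Pool.Agent.W2helper47.FM

open Polynomial

variable {p : ℕ} [hp : Fact p.Prime]

/-- An element of `ℂ_p` on which the Galois group of `ℚ_p(ζ)` acts by a character near `1` is near
`ℚ_p(ζ)`. -/
lemma exists_near {ζ : PadicAlgCl p} {x : ℂ_[p]} (hx0 : x ≠ 0) {δ : ℝ} (hδ : 0 < δ)
    (f : Gal(PadicAlgCl p/ℚ_[p]) → ℚ_[p])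
    (hf : ∀ g : Gal(PadicAlgCl p/ℚ_[p]), g ζ = ζ → ‖f g - 1‖ ≤ δ)
    (hx : ∀ g : Gal(PadicAlgCl p/ℚ_[p]), actC g x = algebraMap ℚ_[p] ℂ_[p] (f g) * x) :
    ∃ c ∈ IntermediateField.adjoin ℚ_[p] {ζ}, ‖x - (c : ℂ_[p])‖ ≤ (p : ℝ) ^ 2 * (δ * ‖x‖) := by
  have hp1 : (1 : ℝ) ≤ p := by exact_mod_cast hp.out.one_lt.le
  have hΔ : 0 < δ * ‖x‖ := mul_pos hδ (norm_pos_iff.mpr hx0)
  obtain ⟨a, ha⟩ : ∃ a : PadicAlgCl p, ‖x - (a : ℂ_[p])‖ < δ * ‖x‖ := by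
    have h1 := (UniformSpace.Completion.denseRange_coe (α := PadicAlgCl p)).exists_dist_lt x hΔ
    obtain ⟨a, ha⟩ := h1
    exact ⟨a, by rwa [dist_eq_norm] at ha⟩
  obtain ⟨c, hc⟩ := ax (IntermediateField.adjoin ℚ_[p] {ζ}) a hΔ (by
    intro σ
    set g : Gal(PadicAlgCl p/ℚ_[p]) := σ.restrictScalars ℚ_[p] with hg
    have hgζ : g ζ = ζ := by
      have := σ.commutes ⟨ζ, IntermediateField.mem_adjoin_simple_self ℚ_[p] ζ⟩
      exact this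
    have h1 : ((g a - a : PadicAlgCl p) : ℂ_[p]) =
        (actC g ((a : ℂ_[p]) - x) + (algebraMap ℚ_[p] ℂ_[p] (f g - 1) * x)) + (x - a) := by
      rw [map_sub, hx g, actC_coe, UniformSpace.Completion.coe_sub, map_sub, map_one]
      ring
    have h2 : ‖σ a - a‖ = ‖((g a - a : PadicAlgCl p) : ℂ_[p])‖ := by
      rw [PadicComplex.norm_extends]; rfl
    rw [h2, h1]
    refine (IsUltrametricDist.norm_add_le_max _ _).trans (max_le ?_ ha.le)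
    refine (IsUltrametricDist.norm_add_le_max _ _).trans (max_le ?_ ?_)
    · rw [norm_actC, norm_sub_rev]; exact ha.le
    · rw [norm_mul, norm_algebraMap']
      gcongr
      exact hf g hgζ)
  refine ⟨c, c.2, ?_⟩
  have h1 : x - ((c : PadicAlgCl p) : ℂ_[p]) =
      (x - (a : ℂ_[p])) + ((a - (c : PadicAlgCl p) : PadicAlgCl p) : ℂ_[p]) := by
    rw [UniformSpace.Completion.coe_sub]; ring
  rw [h1]
  refine (IsUltrametricDist.norm_add_le_max _ _).trans (max_le ?_ ?_)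
  · refine ha.le.trans ?_
    have : 1 ≤ (p : ℝ) ^ 2 := one_le_pow₀ hp1
    nlinarith
  · rw [PadicComplex.norm_extends]; exact hc

/-- **Tate's theorem**, abstract form: an infinitely ramified character of the Galois group of the
cyclotomic tower does not occur in `ℂ_p`. -/
theorem tate_aux {ζ : ℕ → PadicAlgCl p} (hζ : IsTower ζ) (f : Gal(PadicAlgCl p/ℚ_[p]) → ℚ_[p])
    (hf : ∀ n, 1 ≤ n → ∀ g : Gal(PadicAlgCl p/ℚ_[p]), g (ζ n) = ζ n →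
      ‖f g - 1‖ ≤ (p : ℝ) ^ (-(n : ℤ)))
    (hγ : ∃ γ : Gal(PadicAlgCl p/ℚ_[p]), γ (ζ 4) = ζ 4 ∧ f γ ≠ 1) (x : ℂ_[p])
    (hx : ∀ g : Gal(PadicAlgCl p/ℚ_[p]), actC g x = algebraMap ℚ_[p] ℂ_[p] (f g) * x) :
    x = 0 := by
  have hp1 : (1 : ℝ) < p := by exact_mod_cast hp.out.one_lt
  have hp0 : (0 : ℝ) < p := by linarith
  by_contra hx0
  have hxn : 0 < ‖x‖ := norm_pos_iff.mpr hx0
  have near : ∀ n, 1 ≤ n → ∃ c ∈ IntermediateField.adjoin ℚ_[p] {ζ n},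
      ‖x - (c : ℂ_[p])‖ ≤ (p : ℝ) ^ 2 * ((p : ℝ) ^ (-(n : ℤ)) * ‖x‖) := fun n hn =>
    exists_near hx0 (zpow_pos hp0 _) f (hf n hn) hx
  obtain ⟨γ, hγ4, hγ1⟩ := hγ
  set δ := ‖f γ - 1‖ with hδdef
  have hδ : 0 < δ := norm_pos_iff.mpr (sub_ne_zero.mpr hγ1)
  -- choose a large level
  obtain ⟨e, he⟩ : ∃ e : ℕ, (p : ℝ)⁻¹ ^ e < δ :=
    exists_pow_lt_of_lt_one hδ (inv_lt_one_of_one_lt₀ hp1)
  obtain ⟨c4, hc4, hc4'⟩ := near 4 (by norm_num)
  obtain ⟨cn, hcn, hcn'⟩ := near (4 + e) (by omega)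
  -- automorphisms
  have hco : ∀ s : ℕ, (1 + p ^ 4 * s).Coprime p := by
    intro s
    have : p ∣ p ^ 4 * s := (dvd_pow_self p (by omega)).mul_right s
    rw [Nat.coprime_comm, Nat.Prime.coprime_iff_not_dvd hp.out]
    intro hd
    have h1 := (Nat.dvd_add_left this).mp hd
    exact hp.out.one_lt.ne' (Nat.dvd_one.mp h1)
  choose σ hσ using fun s : ℕ => exists_sigma (hζ.prim (4 + e)) (1 + p ^ 4 * s) (hco s)
  have hprim := hζ.prim (4 + e)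
  have h4e : ζ (4 + e) ^ p ^ e = ζ 4 := hζ.pow' 4 e
  have hc4n : c4 ∈ IntermediateField.adjoin ℚ_[p] {ζ (4 + e)} := by
    have : IntermediateField.adjoin ℚ_[p] {ζ 4} ≤ IntermediateField.adjoin ℚ_[p] {ζ (4 + e)} := by
      rw [IntermediateField.adjoin_simple_le_iff, ← h4e]
      exact pow_mem (IntermediateField.mem_adjoin_simple_self _ _) _
    exact this hc4
  have hγcn : γ cn ∈ IntermediateField.adjoin ℚ_[p] {ζ (4 + e)} := by
    obtain ⟨a, ha⟩ : ∃ a : ℕ, γ (ζ (4 + e)) = ζ (4 + e) ^ a := ⟨_, chi_spec γ hprim.pow_eq_one⟩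
    have h1 : (IntermediateField.adjoin ℚ_[p] {ζ (4 + e)}).map γ.toAlgHom ≤
        IntermediateField.adjoin ℚ_[p] {ζ (4 + e)} := by
      rw [IntermediateField.adjoin_map, Set.image_singleton, IntermediateField.adjoin_simple_le_iff]
      change γ (ζ (4 + e)) ∈ _
      rw [ha]
      exact pow_mem (IntermediateField.mem_adjoin_simple_self _ _) _
    exact h1 ⟨cn, hcn, rfl⟩
  -- the norm of `c4`
  have hN4 : (p : ℝ) ^ (-((4 : ℕ) : ℤ)) * (p : ℝ) ^ 2 * p = (p : ℝ)⁻¹ := by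
    rw [zpow_neg, zpow_natCast]; field_simp
  have hc4lt : ‖x - (c4 : ℂ_[p])‖ < ‖x‖ := by
    refine lt_of_le_of_lt hc4' ?_
    have h1 : (p : ℝ) ^ 2 * ((p : ℝ) ^ (-((4 : ℕ) : ℤ)) * ‖x‖) =
        ((p : ℝ)⁻¹ * (p : ℝ)⁻¹) * ‖x‖ := by
      rw [zpow_neg, zpow_natCast]; field_simp
    rw [h1]
    have h2 : (p : ℝ)⁻¹ < 1 := inv_lt_one_of_one_lt₀ hp1
    have h3 : 0 < (p : ℝ)⁻¹ := inv_pos.mpr hp0
    nlinarith [mul_pos h3 hxn, mul_lt_one_of_nonneg_of_lt_one_left h3.le h2 h2.le]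
  have hc4norm : ‖x‖ ≤ ‖c4‖ := by
    by_contra hcon
    push Not at hcon
    have h1 : x = (x - (c4 : ℂ_[p])) + (c4 : ℂ_[p]) := by ring
    have h2 : ‖x‖ < ‖x‖ := by
      nth_rw 1 [h1]
      refine lt_of_le_of_lt (IsUltrametricDist.norm_add_le_max _ _) (max_lt hc4lt ?_)
      rw [PadicComplex.norm_extends]; exact hcon
    exact lt_irrefl _ h2
  -- the difference
  have hdiff : ‖c4 - cn‖ ≤ (p : ℝ) ^ 2 * ((p : ℝ) ^ (-((4 : ℕ) : ℤ)) * ‖x‖) := by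
    have h1 : ((c4 - cn : PadicAlgCl p) : ℂ_[p]) = (x - (cn : ℂ_[p])) - (x - (c4 : ℂ_[p])) := by
      rw [UniformSpace.Completion.coe_sub]; ring
    rw [← PadicComplex.norm_extends, h1]
    refine (normC_sub_max _ _).trans (max_le (hcn'.trans ?_) hc4')
    gcongr
    · exact hp1.le
    · omega
  -- the twisted difference
  have htw : ‖γ cn - f γ • cn‖ ≤ (p : ℝ) ^ 2 * ((p : ℝ) ^ (-((4 + e : ℕ) : ℤ)) * ‖x‖) := by
    have h1 : ((γ cn - f γ • cn : PadicAlgCl p) : ℂ_[p]) =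
        algebraMap ℚ_[p] ℂ_[p] (f γ) * (x - (cn : ℂ_[p])) - actC γ (x - (cn : ℂ_[p])) := by
      rw [map_sub, hx γ, actC_coe, UniformSpace.Completion.coe_sub, Algebra.smul_def,
        UniformSpace.Completion.coe_mul]
      have h2 : ((algebraMap ℚ_[p] (PadicAlgCl p) (f γ) : PadicAlgCl p) : ℂ_[p]) =
        algebraMap ℚ_[p] ℂ_[p] (f γ) := rfl
      rw [h2]
      ring
    have hfn : ‖f γ‖ ≤ 1 := by
      have h2 := hf 4 (by norm_num) γ hγ4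
      have h3 : f γ = (f γ - 1) + 1 := by ring
      rw [h3]
      refine (IsUltrametricDist.norm_add_le_max _ _).trans (max_le (h2.trans ?_) (norm_one).le)
      rw [zpow_neg, zpow_natCast]
      exact inv_le_one_of_one_le₀ (one_le_pow₀ hp1.le)
    rw [← PadicComplex.norm_extends, h1]
    refine (normC_sub_max _ _).trans (max_le ?_ ?_)
    · rw [norm_mul, norm_algebraMap']
      calc _ ≤ 1 * ‖x - (cn : ℂ_[p])‖ := by gcongr
        _ ≤ _ := by rw [one_mul]; exact hcn'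
    · rw [norm_actC]; exact hcn'
  -- traces
  have hT4 := tr_fixed hprim hσ (y := c4) (by rw [h4e]; exact hc4)
  have hTd := norm_tr_le (by norm_num) hprim hσ (y := c4 - cn) (sub_mem hc4n hcn)
  have hTt := norm_tr_le (by norm_num) hprim hσ (y := γ cn - f γ • cn)
    (sub_mem hγcn (IntermediateField.smul_mem _ hcn))
  have hTγ := tr_gamma hprim hσ (γ := γ) (by rw [h4e]; exact hγ4) hcn
  rw [map_sub, map_smul, hTγ] at hTt
  have hTt' : δ * ‖tr σ (p ^ e) cn‖ ≤ p * ((p : ℝ) ^ e)⁻¹ *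
      ((p : ℝ) ^ 2 * ((p : ℝ) ^ (-((4 + e : ℕ) : ℤ)) * ‖x‖)) := by
    have h1 : tr σ (p ^ e) cn - f γ • tr σ (p ^ e) cn = (1 - f γ) • tr σ (p ^ e) cn := by
      rw [sub_smul, one_smul]
    rw [h1, norm_smul, norm_sub_rev] at hTt
    refine hTt.trans ?_
    gcongr
  have hTd' : ‖tr σ (p ^ e) (c4 - cn)‖ ≤ p * ((p : ℝ) ^ e)⁻¹ *
      ((p : ℝ) ^ 2 * ((p : ℝ) ^ (-((4 : ℕ) : ℤ)) * ‖x‖)) := by
    refine hTd.trans ?_
    gcongr
  -- the final contradiction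
  have hsum : ((p ^ e : ℕ) : PadicAlgCl p) * c4 = tr σ (p ^ e) (c4 - cn) + tr σ (p ^ e) cn := by
    rw [← hT4, map_sub]; ring
  have hPe : ‖((p ^ e : ℕ) : PadicAlgCl p)‖ = ((p : ℝ) ^ e)⁻¹ := by
    rw [Nat.cast_pow, norm_pow, norm_p, inv_pow]
  have hpe0 : 0 < ((p : ℝ) ^ e)⁻¹ := by positivity
  have hle : ((p : ℝ) ^ e)⁻¹ * ‖x‖ ≤ max ‖tr σ (p ^ e) (c4 - cn)‖ ‖tr σ (p ^ e) cn‖ := by
    calc ((p : ℝ) ^ e)⁻¹ * ‖x‖ ≤ ((p : ℝ) ^ e)⁻¹ * ‖c4‖ := by gcongr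
      _ = ‖((p ^ e : ℕ) : PadicAlgCl p) * c4‖ := by rw [norm_mul, hPe]
      _ ≤ _ := by rw [hsum]; exact IsUltrametricDist.norm_add_le_max _ _
  have hlt1 : ‖tr σ (p ^ e) (c4 - cn)‖ < ((p : ℝ) ^ e)⁻¹ * ‖x‖ := by
    refine lt_of_le_of_lt hTd' ?_
    have h1 : p * ((p : ℝ) ^ e)⁻¹ * ((p : ℝ) ^ 2 * ((p : ℝ) ^ (-((4 : ℕ) : ℤ)) * ‖x‖)) =
        (p : ℝ)⁻¹ * (((p : ℝ) ^ e)⁻¹ * ‖x‖) := by
      rw [zpow_neg, zpow_natCast]; field_simp
    rw [h1]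
    have h2 : (p : ℝ)⁻¹ < 1 := inv_lt_one_of_one_lt₀ hp1
    have h3 : 0 < ((p : ℝ) ^ e)⁻¹ * ‖x‖ := by positivity
    nlinarith
  have hlt2 : ‖tr σ (p ^ e) cn‖ < ((p : ℝ) ^ e)⁻¹ * ‖x‖ := by
    have h1 : δ * ‖tr σ (p ^ e) cn‖ < δ * (((p : ℝ) ^ e)⁻¹ * ‖x‖) := by
      refine lt_of_le_of_lt hTt' ?_
      have h2 : p * ((p : ℝ) ^ e)⁻¹ * ((p : ℝ) ^ 2 * ((p : ℝ) ^ (-((4 + e : ℕ) : ℤ)) * ‖x‖)) =
          ((p : ℝ)⁻¹ * (p : ℝ)⁻¹ ^ e) * (((p : ℝ) ^ e)⁻¹ * ‖x‖) := by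
        rw [zpow_neg, zpow_natCast, pow_add, inv_pow]; field_simp
      rw [h2]
      have h3 : (p : ℝ)⁻¹ < 1 := inv_lt_one_of_one_lt₀ hp1
      have h4 : 0 < ((p : ℝ) ^ e)⁻¹ * ‖x‖ := by positivity
      have h5 : 0 < (p : ℝ)⁻¹ ^ e := by positivity
      have h6 : (p : ℝ)⁻¹ * (p : ℝ)⁻¹ ^ e < δ := by nlinarith
      exact mul_lt_mul_of_pos_right h6 h4
    exact lt_of_mul_lt_mul_left h1 hδ.le
  exact absurd hle (not_le.mpr (max_lt hlt1 hlt2))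

/-- powers of units near one -/
lemma norm_zpow_sub_one {u : ℤ_[p]ˣ} {r : ℝ} (hu : ‖(u : ℤ_[p]) - 1‖ ≤ r)
    (m : ℤ) : ‖(((u ^ m : ℤ_[p]ˣ) : ℤ_[p]) : ℚ_[p]) - 1‖ ≤ r := by
  have hnat : ∀ (v : ℤ_[p]ˣ) (k : ℕ), ‖((v ^ k : ℤ_[p]ˣ) : ℤ_[p]) - 1‖ ≤ ‖(v : ℤ_[p]) - 1‖ := by
    intro v k
    rw [Units.val_pow_eq_pow_val, ← mul_geom_sum (v : ℤ_[p]) k, norm_mul]
    exact mul_le_of_le_one_right (norm_nonneg _) (PadicInt.norm_le_one _)
  have hinv : ∀ v : ℤ_[p]ˣ, ‖((v⁻¹ : ℤ_[p]ˣ) : ℤ_[p]) - 1‖ = ‖(v : ℤ_[p]) - 1‖ := by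
    intro v
    have h1 : ((v⁻¹ : ℤ_[p]ˣ) : ℤ_[p]) - 1 = -(((v⁻¹ : ℤ_[p]ˣ) : ℤ_[p]) * ((v : ℤ_[p]) - 1)) := by
      rw [mul_sub, Units.inv_mul]; ring
    rw [h1, norm_neg, norm_mul, PadicInt.norm_units, one_mul]
  have key : ‖((u ^ m : ℤ_[p]ˣ) : ℤ_[p]) - 1‖ ≤ r := by
    obtain ⟨k, rfl | rfl⟩ := m.eq_nat_or_neg
    · rw [zpow_natCast]; exact (hnat u k).trans hu
    · rw [zpow_neg, zpow_natCast, hinv]; exact (hnat u k).trans hu
  rw [PadicInt.norm_def, PadicInt.coe_sub, PadicInt.coe_one] at key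
  exact key

/-- **Tate's theorem**: the invariants of the nontrivial Tate twists of `ℂ_p` are zero. -/
theorem tate {m : ℤ} (hm : m ≠ 0) (x : ℂ_[p])
    (hx : ∀ g : Gal(PadicAlgCl p/ℚ_[p]),
      actC g x = algebraMap ℚ_[p] ℂ_[p] (((chi g ^ m : ℤ_[p]ˣ) : ℤ_[p]) : ℚ_[p]) * x) : x = 0 := by
  obtain ⟨ζ, hζ⟩ := exists_tower (p := p)
  refine tate_aux hζ (fun g => (((chi g ^ m : ℤ_[p]ˣ) : ℤ_[p]) : ℚ_[p])) ?_ ?_ x hx
  · intro n _ g hg
    exact norm_zpow_sub_one (norm_chi_sub_one (hζ.prim n) hg) m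
  · obtain ⟨γ, h1, h2⟩ := exists_gamma hζ (k := 4) (by norm_num) hm
    refine ⟨γ, h1, fun h3 => h2 ?_⟩
    apply Units.ext
    rw [Units.val_one]
    exact PadicInt.ext (by rw [PadicInt.coe_one]; exact h3)

/-- **Tate's theorem** for a subgroup of finite index. -/
theorem tate_finiteIndex (U : Subgroup Gal(PadicAlgCl p/ℚ_[p])) [U.FiniteIndex] {m : ℤ}
    (hm : m ≠ 0) (x : ℂ_[p])
    (hx : ∀ g ∈ U, actC g x =
      algebraMap ℚ_[p] ℂ_[p] (((chi g ^ m : ℤ_[p]ˣ) : ℤ_[p]) : ℚ_[p]) * x) : x = 0 := by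
  classical
  set c : Gal(PadicAlgCl p/ℚ_[p]) → ℤ → ℂ_[p] := fun g k =>
    algebraMap ℚ_[p] ℂ_[p] (((chi g ^ k : ℤ_[p]ˣ) : ℤ_[p]) : ℚ_[p]) with hc
  have hchi1 : ∀ g : Gal(PadicAlgCl p/ℚ_[p]), ∀ a b : ℤ, c g (a + b) = c g a * c g b := by
    intro g a b
    simp only [hc]
    rw [zpow_add, Units.val_mul, PadicInt.coe_mul, map_mul]
  have hc0 : ∀ g, c g 0 = 1 := by intro g; simp [hc]
  have hcmul : ∀ g h k, c (g * h) k = c g k * c h k := by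
    intro g h k
    simp only [hc]
    rw [chi_mul, mul_zpow, Units.val_mul, PadicInt.coe_mul, map_mul]
  have hcne : ∀ g k, c g k ≠ 0 := by
    intro g k h
    have h1 := hchi1 g k (-k)
    rw [add_neg_cancel, hc0, h, zero_mul] at h1
    exact one_ne_zero h1
  have hcinv : ∀ g k, actC g (c g k) = c g k := fun g k => actC_algebraMap g _
  have hcinv' : ∀ g h k, actC g (c h k) = c h k := fun g h k => actC_algebraMap g _
  -- the function on the cosets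
  let F : Gal(PadicAlgCl p/ℚ_[p]) → ℂ_[p] := fun s => c s (-m) * actC s x
  have hF : ∀ s, ∀ u ∈ U, F (s * u) = F s := by
    intro s u hu
    change c (s * u) (-m) * actC (s * u) x = c s (-m) * actC s x
    rw [actC_mul, hx u hu, map_mul]
    have h2 : actC s (c u m) = c u m := hcinv' s u m
    have h3 : c u (-m) * c u m = 1 := by rw [← hchi1, neg_add_cancel, hc0]
    change c (s * u) (-m) * (actC s (c u m) * actC s x) = _
    rw [h2, hcmul]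
    calc c s (-m) * c u (-m) * (c u m * actC s x) = c s (-m) * (c u (-m) * c u m) * actC s x := by
          ring
      _ = _ := by rw [h3, mul_one]
  let F' : Gal(PadicAlgCl p/ℚ_[p]) ⧸ U → ℂ_[p] := Quotient.lift F (by
    intro a b hab
    have hab' : a⁻¹ * b ∈ U := QuotientGroup.leftRel_apply.mp hab
    have := hF a (a⁻¹ * b) hab'
    rw [mul_inv_cancel_left] at this
    exact this.symm)
  have hF' : ∀ s, F' (QuotientGroup.mk s) = F s := fun s => rfl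
  have : Fintype (Gal(PadicAlgCl p/ℚ_[p]) ⧸ U) := Fintype.ofFinite _
  set y : ℂ_[p] := ∏ q, F' q with hy
  have hact : ∀ g (q : Gal(PadicAlgCl p/ℚ_[p]) ⧸ U), actC g (F' q) = c g m * F' (g • q) := by
    intro g q
    induction q using QuotientGroup.induction_on with
    | H s =>
      change actC g (F s) = c g m * F (g * s)
      change actC g (c s (-m) * actC s x) = c g m * (c (g * s) (-m) * actC (g * s) x)
      rw [map_mul, hcinv', actC_mul, hcmul]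
      have h3 : c g m * c g (-m) = 1 := by rw [← hchi1, add_neg_cancel, hc0]
      calc _ = (c g m * c g (-m)) * (c s (-m) * actC g (actC s x)) := by rw [h3, one_mul]
        _ = _ := by ring
  have hyact : ∀ g, actC g y = c g (m * Fintype.card (Gal(PadicAlgCl p/ℚ_[p]) ⧸ U)) * y := by
    intro g
    rw [hy, map_prod]
    simp only [hact]
    rw [Finset.prod_mul_distrib]
    congr 1
    · rw [Finset.prod_const, Finset.card_univ]
      simp only [hc]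
      rw [zpow_mul, zpow_natCast, Units.val_pow_eq_pow_val, PadicInt.coe_pow, map_pow]
    · exact Fintype.prod_bijective (fun q => g • q) (MulAction.bijective g) _ _ (fun _ => rfl)
  have hy0 : y = 0 := by
    refine tate (m := m * Fintype.card (Gal(PadicAlgCl p/ℚ_[p]) ⧸ U)) ?_ y hyact
    refine mul_ne_zero hm ?_
    have : 0 < Fintype.card (Gal(PadicAlgCl p/ℚ_[p]) ⧸ U) := Fintype.card_pos
    exact_mod_cast this.ne'
  rw [hy, Finset.prod_eq_zero_iff] at hy0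
  obtain ⟨q, -, hq⟩ := hy0
  induction q using QuotientGroup.induction_on with
  | H s =>
    change c s (-m) * actC s x = 0 at hq
    rcases mul_eq_zero.mp hq with h | h
    · exact absurd h (hcne _ _)
    · rw [← norm_eq_zero, norm_actC, norm_eq_zero] at h
      exact h

end Pool.Agent.W2helper47.FM
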