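import Pool.Agent.W2helper47.FM.Weil

/-!
# Weil-Deligne representations: the definitions

We fix a topological group `G`, a relation `fr` and a number `q`. In the application, `G` is the
absolute Galois group of a number field `F`, `fr σ m` means that `σ` is in the decomposition group
at a place and acts on the residue field as the `m`-th power of the geometric Frobenius, and `q` is
the number of elements of the residue field of `F` at this place. So the Weil group is
`{σ | ∃ m, fr σ m}` and the inertia group is `{σ | fr σ 0}`.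
-/

set_option autoImplicit false

namespace Pool.Agent.W2helper47.FM

section WeilDeligne

variable {K V G : Type*} [Field K] [AddCommGroup V] [Module K V] [Group G] [TopologicalSpace G]

/-- A Weil-Deligne representation on the vector space `V` over `K`: a homomorphism `r` from the Weil
group to the automorphisms of `V` which is trivial on an open subgroup of the inertia group, and a
nilpotent endomorphism `N` such that `r(σ) N = q ^ (-m) N r(σ)` for `σ` acting on the residue field as
the `m`-th power of the geometric Frobenius. (The values of `r` outside of the Weil group play no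
role.) -/
structure WeilDeligneRep (K V : Type*) [Field K] [AddCommGroup V] [Module K V] {G : Type*}
    [Group G] [TopologicalSpace G] (fr : G → ℤ → Prop) (q : ℕ) where
  r : G → Module.End K V
  N : Module.End K V
  r_one : r 1 = 1
  r_mul : ∀ σ τ m m', fr σ m → fr τ m' → r (σ * τ) = r σ * r τ
  smooth : ∃ U : Subgroup G, IsOpen (U : Set G) ∧ ∀ σ ∈ U, fr σ 0 → r σ = 1
  nilpotent : IsNilpotent N
  rel : ∀ σ m, fr σ m → r σ * N = ((q : K) ^ (-m)) • (N * r σ)

/-- The exponential of `c N`, for `N` nilpotent. -/
noncomputable def expNil (N : Module.End K V) (c : K) : Module.End K V :=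
  ∑ i ∈ Finset.range (nilpotencyClass N), (c ^ i / (i.factorial : K)) • N ^ i

variable {fr : G → ℤ → Prop} {q : ℕ}

/-- The Weil-Deligne representation `(r, N)` is attached to `ρ`, as in Grothendieck's monodromy
theorem: there are a continuous homomorphism `t` from the inertia group to `E` (which is `ℚ_l` in the
application), nonzero unless `N = 0`, and a geometric Frobenius `Φ` such that
`ρ(Φ^m u) = r(Φ^m u) exp(t(u) N)` for all integers `m` and all `u` in the inertia group. -/
def WeilDeligneRep.IsAttached (W : WeilDeligneRep K V fr q) (E : Type*) [Field E]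
    [TopologicalSpace E] [Algebra E K] (ρ : G → Module.End K V) : Prop :=
  ∃ (t : G → E) (Φ : G), fr Φ 1 ∧ (∀ u v, fr u 0 → fr v 0 → t (u * v) = t u + t v) ∧
    ContinuousOn t {u | fr u 0} ∧ (W.N ≠ 0 → ∃ u, fr u 0 ∧ t u ≠ 0) ∧
    ∀ (m : ℤ) (u : G), fr u 0 →
      ρ (Φ ^ m * u) = W.r (Φ ^ m * u) * expNil W.N (algebraMap E K (t u))

/-- `(r, N)` is integral: all eigenvalues of `r(Φ)`, for `Φ` a geometric Frobenius, are algebraic
integers. -/
def WeilDeligneRep.IsIntegral (W : WeilDeligneRep K V fr q) : Prop :=
  ∀ Φ, fr Φ 1 → ∀ α : K, (∃ x : V, x ≠ 0 ∧ W.r Φ x = α • x) → _root_.IsIntegral ℤ α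

/-- `α` is an algebraic number all of whose complex conjugates have absolute value `q ^ (k / 2)`. -/
def IsWeilNumber [Algebra ℚ K] (q : ℕ) (k : ℤ) (α : K) : Prop :=
  IsAlgebraic ℚ α ∧
    ∀ z : ℂ, Polynomial.aeval z (minpoly ℚ α) = 0 → ‖z‖ = (q : ℝ) ^ ((k : ℝ) / 2)

/-- `M` is the monodromy filtration of the nilpotent endomorphism `N`: an increasing filtration with
`N M_j ⊆ M_{j-2}` such that `N ^ k` induces an isomorphism from `M_k / M_{k-1}` to
`M_{-k} / M_{-k-1}`, for all natural numbers `k`. -/
structure IsMonodromyFiltration (N : Module.End K V) (M : ℤ → Submodule K V) : Prop where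
  mono : Monotone M
  bot : ∃ a, M a = ⊥
  top : ∃ b, M b = ⊤
  map : ∀ j, ∀ x ∈ M j, N x ∈ M (j - 2)
  inj : ∀ k : ℕ, ∀ x ∈ M k, (N ^ k) x ∈ M (-k - 1) → x ∈ M (k - 1)
  surj : ∀ k : ℕ, ∀ y ∈ M (-k), ∃ x ∈ M k, y - (N ^ k) x ∈ M (-k - 1)

/-- `(r, N)` is pure of weight `w`: for every `j`, all eigenvalues of `r(Φ)`, for `Φ` a geometric
Frobenius, on the `j`-th graded piece of the monodromy filtration of `N` are algebraic numbers all of
whose complex conjugates have absolute value `q ^ ((w + j) / 2)`. -/
def WeilDeligneRep.IsPure [Algebra ℚ K] (W : WeilDeligneRep K V fr q) (w : ℤ) : Prop :=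
  ∃ M : ℤ → Submodule K V, IsMonodromyFiltration W.N M ∧ ∀ Φ, fr Φ 1 → ∀ (j : ℤ) (α : K),
    (∃ x ∈ M j, x ∉ M (j - 1) ∧ W.r Φ x - α • x ∈ M (j - 1)) → IsWeilNumber q (w + j) α

/-- There is a Weil-Deligne representation attached to `ρ`, and each such one is integral and pure of
weight `w`. -/
def IsIntegralPure [Algebra ℚ K] (E : Type*) [Field E] [TopologicalSpace E] [Algebra E K]
    (fr : G → ℤ → Prop) (q : ℕ) (ρ : G → Module.End K V) (w : ℤ) : Prop :=
  (∃ W : WeilDeligneRep K V fr q, W.IsAttached E ρ) ∧
    ∀ W : WeilDeligneRep K V fr q, W.IsAttached E ρ → W.IsIntegral ∧ W.IsPure w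

end WeilDeligne

open NumberField

variable {l : ℕ} [hl : Fact l.Prime] {F : Type*} [Field F] [NumberField F] {n : ℕ}

/-- Condition (2): there is an integer `w` such that at every finite place `v` of `F` not above `l`
the Weil-Deligne representation attached to `ρ` is integral and pure of weight `w`. The places are
given by the maximal ideals `P` of the ring of all algebraic integers. -/
def Condition2 (ρ : Gal(AlgebraicClosure F/F) →* GL (Fin n) (PadicAlgCl l)) : Prop :=
  ∃ w : ℤ, ∀ P : Ideal (𝓞 (AlgebraicClosure F)), P.IsMaximal →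
    (l : 𝓞 (AlgebraicClosure F)) ∉ P →
      IsIntegralPure ℚ_[l] (IsFrobPow P) (resCard P) (linRep ρ) w

end Pool.Agent.W2helper47.FM
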