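import Pool.Agent.W2helper47.FM.Defs
import Pool.Agent.W2helper47.FM.Frob

/-!
# The Weil group at a finite place
-/

set_option autoImplicit false
set_option linter.unusedSectionVars false

namespace Pool.Agent.W2helper47.FM

open NumberField

variable {F : Type*} [Field F] [NumberField F]
  {P : Ideal (𝓞 (AlgebraicClosure F))} [hP : P.IsMaximal]

lemma resCard_pos : 0 < resCard P := Nat.card_pos

lemma pow_resCard_sub (k : ℕ) (u v : 𝓞 (AlgebraicClosure F)) :
    Ideal.Quotient.mk P ((u - v) ^ resCard P ^ k) =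
      Ideal.Quotient.mk P (u ^ resCard P ^ k) - Ideal.Quotient.mk P (v ^ resCard P ^ k) := by
  let _ : Field (𝓞 F ⧸ P.under (𝓞 F)) := Ideal.Quotient.field _
  let _ : Fintype (𝓞 F ⧸ P.under (𝓞 F)) := Fintype.ofFinite _
  let φ := FiniteField.frobeniusAlgHom (𝓞 F ⧸ P.under (𝓞 F)) (𝓞 (AlgebraicClosure F) ⧸ P)
  have h1 : ∀ (k : ℕ) (x : 𝓞 (AlgebraicClosure F) ⧸ P), (φ ^ k) x = x ^ resCard P ^ k := by
    intro k
    induction k with
    | zero => intro x; simp
    | succ k ih =>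
      intro x
      rw [pow_succ, AlgHom.mul_apply, ih]
      have h2 : φ x = x ^ resCard P := by
        unfold resCard
        rw [Nat.card_eq_fintype_card]
        rfl
      rw [h2, ← pow_mul, pow_succ, mul_comm]
  rw [map_pow, map_pow, map_pow, ← h1, ← h1, ← h1, map_sub, map_sub]

lemma mem_of_pow_resCard (k : ℕ) {u v : 𝓞 (AlgebraicClosure F)}
    (h : u ^ resCard P ^ k - v ^ resCard P ^ k ∈ P) : u - v ∈ P := by
  rw [← Ideal.Quotient.eq, ← sub_eq_zero, ← pow_resCard_sub, Ideal.Quotient.eq_zero_iff_mem] at h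
  exact hP.isPrime.mem_of_pow_mem _ h

lemma pow_resCard_mem (k : ℕ) {u v : 𝓞 (AlgebraicClosure F)}
    (h : u - v ∈ P) : u ^ resCard P ^ k - v ^ resCard P ^ k ∈ P := by
  rw [← Ideal.Quotient.eq, ← sub_eq_zero, ← pow_resCard_sub, Ideal.Quotient.eq_zero_iff_mem]
  exact P.pow_mem_of_mem h _ (pow_pos resCard_pos _)

lemma isFrobPow_of {σ : Gal(AlgebraicClosure F/F)} {m : ℤ} (a b : ℕ) (hab : (a : ℤ) - b = m)
    (h : ∀ x : 𝓞 (AlgebraicClosure F), (σ • x) ^ resCard P ^ a - x ^ resCard P ^ b ∈ P) :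
    IsFrobPow P σ m := by
  intro a' b' hab' x
  have h1 := pow_resCard_mem (P := P) a' (h x)
  rw [← pow_mul, ← pow_mul, ← pow_add, ← pow_add] at h1
  have h2 : b + a' = b' + a := by omega
  have h3 : a + a' = a' + a := by omega
  rw [h2, h3, pow_add, pow_add, pow_mul, pow_mul] at h1
  exact mem_of_pow_resCard a h1

lemma isFrobPow_one : IsFrobPow P (1 : Gal(AlgebraicClosure F/F)) 0 :=
  isFrobPow_of 0 0 (by simp) fun x => by
    rw [one_smul, sub_self]; exact P.zero_mem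

lemma isFrobPow_mul {σ τ : Gal(AlgebraicClosure F/F)} {m m' : ℤ} (h : IsFrobPow P σ m)
    (h' : IsFrobPow P τ m') : IsFrobPow P (σ * τ) (m + m') := by
  -- `a - c = m`, `c - b = m'`
  refine isFrobPow_of (m.toNat + m'.toNat) ((-m).toNat + (-m').toNat) (by omega) fun x => ?_
  have h1 := h (m.toNat + m'.toNat) ((-m).toNat + m'.toNat) (by omega) (τ • x)
  have h2 := h' ((-m).toNat + m'.toNat) ((-m).toNat + (-m').toNat) (by omega) x
  have h3 := P.add_mem h1 h2
  rw [sub_add_sub_cancel, ← mul_smul] at h3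
  exact h3

lemma isFrobPow_inv {σ : Gal(AlgebraicClosure F/F)} {m : ℤ} (h : IsFrobPow P σ m) :
    IsFrobPow P σ⁻¹ (-m) := by
  intro a b hab x
  have h1 := h b a (by omega) (σ⁻¹ • x)
  rw [smul_inv_smul] at h1
  rw [← neg_mem_iff, neg_sub]
  exact h1

lemma isFrobPow_zero_iff {σ : Gal(AlgebraicClosure F/F)} :
    IsFrobPow P σ 0 ↔ σ ∈ P.inertia Gal(AlgebraicClosure F/F) := by
  constructor
  · intro h x
    have h1 := h 0 0 (by simp) x
    rw [pow_zero, pow_one, pow_one] at h1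
    exact h1
  · intro h
    refine isFrobPow_of 0 0 (by simp) fun x => ?_
    rw [pow_zero, pow_one, pow_one]
    exact h x

lemma exists_isFrobPow_one : ∃ Φ : Gal(AlgebraicClosure F/F), IsFrobPow P Φ 1 := by
  obtain ⟨Φ, hΦ⟩ := exists_geomFrob P
  refine ⟨Φ, isFrobPow_of 1 0 (by simp) fun x => ?_⟩
  rw [pow_one, pow_zero, pow_one]
  exact hΦ x

/-- The Weil group at `P`. -/
def weilGroup (P : Ideal (𝓞 (AlgebraicClosure F))) [hP : P.IsMaximal] :
    Subgroup Gal(AlgebraicClosure F/F) where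
  carrier := {σ | ∃ m, IsFrobPow P σ m}
  one_mem' := ⟨0, isFrobPow_one⟩
  mul_mem' := fun ⟨m, h⟩ ⟨m', h'⟩ => ⟨m + m', isFrobPow_mul h h'⟩
  inv_mem' := fun ⟨m, h⟩ => ⟨-m, isFrobPow_inv h⟩

end Pool.Agent.W2helper47.FM
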